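import Mathlib
import Pool.Agent.Lib.MP_688fd0_co.SQ5.H69.StarG

/-!
MP_688fd0_co, type C: STAR for a whole strand graph, second form: every edge of `Λ` has an end with at least three
neighbours. Three local checks on four strands (centre `0`, leaves `1`, `2`, `3`; the end `i` is the lower end of the strand
`i`, the end `4 + i` the upper end).
-/

set_option autoImplicit false

namespace Pool.Agent.Lib.MP_688fd0_co.SQ5.H87.Star2

open Function Equiv
open Pool.Agent.Lib.MP_688fd0_co.SQ5.H64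
open Pool.Agent.Lib.MP_688fd0_co.SQ5.H69

set_option linter.unusedSectionVars false

/-! ### Moves -/

/-- `a` is a neighbour of the centre on the side of `u` (leaves `1..k`) -/
def adk (k u a : ℕ) : Bool :=
  (u == 0 && decide (1 ≤ a) && decide (a ≤ k)) || (u == 4 && decide (5 ≤ a) && decide (a ≤ 4 + k))

/-- the moves on codes -/
def runc (k : ℕ) : List (ℕ × ℕ × ℕ) → ℕ → Option ℕ
  | [], q => some q
  | (u, a, b) :: l, q =>
    if (adk k u a && adk k u b && !(a == b) && okc u a q) = true then runc k l (sgc u b (sgc u a q)) else none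

/-- the moves -/
inductive Run (k : ℕ) : ℕ → (Fin 8 → Fin 8) → (Fin 8 → Fin 8) → Prop
  | nil (P : Fin 8 → Fin 8) : Run k 0 P P
  | cons {n : ℕ} {P P' : Fin 8 → Fin 8} {u a b : Fin 8} : adk k u a = true → adk k u b = true → a ≠ b →
      OK8 u a P → Run k n (sg8 u b (sg8 u a P)) P' → Run k (n + 1) P P'

theorem adk_cases {k u a : ℕ} (hk : k ≤ 3) (h : adk k u a = true) :
    (u = 0 ∧ 1 ≤ a ∧ a ≤ k ∧ a < 4) ∨ (u = 4 ∧ 5 ≤ a ∧ a ≤ 4 + k ∧ a < 8) := by
  unfold adk at h
  simp only [Bool.or_eq_true, Bool.and_eq_true, beq_iff_eq, decide_eq_true_eq] at h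
  omega

theorem sg8_inv {P : Fin 8 → Fin 8} (hP : ∀ x, P (P x) = x) {u v : Fin 8} (huv : u ≠ v) (h : P u ≠ v) (e : Fin 8) :
    sg8 u v P (sg8 u v P e) = e := by
  have hPv : P v ≠ u := fun h' => h (by rw [← h', hP])
  have hinj : ∀ {x y}, P x = P y → x = y := fun {x y} h => by rw [← hP x, h, hP]
  have eu : sg8 u v P u = v := if_pos rfl
  have ev : sg8 u v P v = u := by unfold sg8; rw [if_neg huv.symm, if_pos rfl]
  have e3 : ∀ x, x ≠ u → x ≠ v → x = P u → sg8 u v P x = if P v = v then x else P v := by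
    intro x h1 h2 h3; unfold sg8; rw [if_neg h1, if_neg h2, if_pos h3]
  have e4 : ∀ x, x ≠ u → x ≠ v → x ≠ P u → x = P v → sg8 u v P x = if P u = u then x else P u := by
    intro x h1 h2 h3 h4; unfold sg8; rw [if_neg h1, if_neg h2, if_neg h3, if_pos h4]
  have e5 : ∀ x, x ≠ u → x ≠ v → x ≠ P u → x ≠ P v → sg8 u v P x = P x := by
    intro x h1 h2 h3 h4; unfold sg8; rw [if_neg h1, if_neg h2, if_neg h3, if_neg h4]
  by_cases h1 : e = u
  · rw [h1, eu, ev]
  by_cases h2 : e = v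
  · rw [h2, ev, eu]
  by_cases h3 : e = P u
  · have hu : P u ≠ u := fun h' => h1 (h3.trans h')
    rw [e3 e h1 h2 h3]
    split_ifs with h5
    · rw [e3 e h1 h2 h3, if_pos h5]
    · rw [e4 (P v) hPv h5 (fun h' => huv (hinj h').symm) rfl, if_neg hu, h3]
  by_cases h4 : e = P v
  · have hv : P v ≠ v := fun h' => h2 (h4.trans h')
    rw [e4 e h1 h2 h3 h4]
    split_ifs with h5
    · rw [e4 e h1 h2 h3 h4, if_pos h5]
    · rw [e3 (P u) h5 h rfl, if_neg hv, h4]
  rw [e5 e h1 h2 h3 h4, e5 (P e) (fun h' => h3 (by rw [← h', hP])) (fun h' => h4 (by rw [← h', hP]))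
    (fun h' => h1 (hinj h')) (fun h' => h2 (hinj h')), hP]

theorem eq_of_app {q q' : ℕ} (hq : q < 8 ^ 8) (hq' : q' < 8 ^ 8) (h : ∀ x < 8, app q x = app q' x) : q = q' := by
  have h0 := h 0 (by norm_num)
  have h1 := h 1 (by norm_num)
  have h2 := h 2 (by norm_num)
  have h3 := h 3 (by norm_num)
  have h4 := h 4 (by norm_num)
  have h5 := h 5 (by norm_num)
  have h6 := h 6 (by norm_num)
  have h7 := h 7 (by norm_num)
  unfold app at h0 h1 h2 h3 h4 h5 h6 h7
  norm_num at h0 h1 h2 h3 h4 h5 h6 h7 hq hq'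
  omega

theorem sgc_code {P : Fin 8 → Fin 8} {q : ℕ} (hm : Mat P q) (u v : Fin 8) : sgc u v q = code (sg8 u v P) := by
  have hm' := sgc_mat hm u v
  apply eq_of_app
  · unfold sgc
    apply pc_lt
    intro y
    have h1 := app_lt8 q u
    have h2 := app_lt8 q v
    have h3 := app_lt8 q y
    have h4 := u.2
    have h5 := v.2
    split_ifs <;> omega
  · exact pc_lt (ext8_lt _) 8
  · intro x hx
    rw [← hm' ⟨x, hx⟩]
    exact (app_code _ ⟨x, hx⟩).symm

theorem code_mat (P : Fin 8 → Fin 8) : Mat P (code P) := fun x => (app_code P x).symm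

theorem runc_sound {k : ℕ} (hk : k ≤ 3) : ∀ (l : List (ℕ × ℕ × ℕ)) {P : Fin 8 → Fin 8} {q' : ℕ},
    (∀ x, P (P x) = x) → runc k l (code P) = some q' →
      ∃ P' : Fin 8 → Fin 8, Run k l.length P P' ∧ (∀ x, P' (P' x) = x) ∧ q' = code P'
  | [], P, q', hP, h => ⟨P, Run.nil P, hP, (Option.some_injective _ h).symm⟩
  | (u, a, b) :: l, P, q', hP, h => by
    unfold runc at h
    split_ifs at h with h1
    simp only [Bool.and_eq_true, Bool.not_eq_true', beq_eq_false_iff_ne, ne_eq] at h1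
    obtain ⟨⟨⟨h2, h3⟩, h4⟩, h5⟩ := h1
    have hu : u < 8 := by rcases adk_cases hk h2 with h | h <;> omega
    have ha : a < 8 := by rcases adk_cases hk h2 with h | h <;> omega
    have hb : b < 8 := by rcases adk_cases hk h3 with h | h <;> omega
    have hua : (⟨u, hu⟩ : Fin 8) ≠ ⟨a, ha⟩ := by
      intro h'
      have := congrArg Fin.val h'
      dsimp only at this
      rcases adk_cases hk h2 with h | h <;> omega
    have hub : (⟨u, hu⟩ : Fin 8) ≠ ⟨b, hb⟩ := by
      intro h'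
      have := congrArg Fin.val h'
      dsimp only at this
      rcases adk_cases hk h3 with h | h <;> omega
    have h6 := okc_sound (u := ⟨u, hu⟩) (v := ⟨a, ha⟩) (code_mat P) h5
    have e1 := sgc_code (code_mat P) ⟨u, hu⟩ ⟨a, ha⟩
    have i1 := sg8_inv hP hua h6.1
    have e2 := sgc_code (code_mat (sg8 ⟨u, hu⟩ ⟨a, ha⟩ P)) ⟨u, hu⟩ ⟨b, hb⟩
    have e3 : sg8 ⟨u, hu⟩ ⟨a, ha⟩ P ⟨u, hu⟩ = ⟨a, ha⟩ := if_pos rfl
    have i2 := sg8_inv i1 hub (by rw [e3]; exact fun h' => h4 (congrArg Fin.val h'))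
    have e4 : sgc u b (sgc u a (code P)) = code (sg8 ⟨u, hu⟩ ⟨b, hb⟩ (sg8 ⟨u, hu⟩ ⟨a, ha⟩ P)) := by
      rw [← e2, ← e1]
    rw [e4] at h
    obtain ⟨P', h7, h8, h9⟩ := runc_sound hk l i2 h
    exact ⟨P', Run.cons (u := ⟨u, hu⟩) (a := ⟨a, ha⟩) (b := ⟨b, hb⟩) h2 h3 (fun h' => h4 (congrArg Fin.val h')) h6 h7,
      h8, h9⟩

/-! ### The alternative -/

/-- the number of cycles goes down, or it does not go up and `F` holds -/
def AltF (F : (Fin 8 → Fin 8) → Prop) (P P' : Fin 8 → Fin 8) : Prop :=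
  ∃ D D' : Finset (Fin 8), NC P D ∧ CV P' D' ∧ (D'.card < D.card ∨ (D'.card ≤ D.card ∧ F P'))

/-- is `a` an admissible image of `k`, given the images of `0..k-1` -/
def okg (q k a : ℕ) : Bool := (List.range k).all fun j => ((app q j == k) == (a == j)) && !(app q j == a)

/-- all involutions which extend the given piece -/
def goH (c : ℕ → Bool) : ℕ → ℕ → ℕ → Bool
  | 0, _, q => c q
  | n + 1, k, q => bits.all fun a => !(okg q k a) || goH c n (k + 1) (q + a * 8 ^ k)

theorem goH_step {c : ℕ → Bool} {n k q a : ℕ} (h : goH c (n + 1) k q = true) (ha : a < 8)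
    (ho : okg q k a = true) : goH c n (k + 1) (q + a * 8 ^ k) = true := by
  rw [goH, List.all_eq_true] at h
  have h1 := h a (mem_bits ha)
  rw [ho] at h1
  simpa using h1

theorem okg_pc {Q : Fin 8 → Fin 8} (hQ : ∀ x, Q (Q x) = x) {k : ℕ} (hk : k < 8) :
    okg (pc (ext8 Q) k) k (ext8 Q k) = true := by
  have h0 := okf_pc hQ hk
  unfold okf at h0
  rw [List.all_eq_true] at h0
  unfold okg
  rw [List.all_eq_true]
  intro j hj
  rw [Bool.and_eq_true]
  refine ⟨h0 j hj, ?_⟩
  rw [List.mem_range] at hj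
  rw [app_pc (ext8_lt Q) hj, Bool.not_eq_true', beq_eq_false_iff_ne]
  have hj8 : j < 8 := by omega
  intro h
  unfold ext8 at h
  rw [dif_pos hk, dif_pos hj8] at h
  have h1 := congrArg Q (Fin.ext h)
  rw [hQ, hQ] at h1
  have := congrArg Fin.val h1
  dsimp only at this
  omega

theorem goH_inv {c : ℕ → Bool} (h : goH c 8 0 0 = true) {Q : Fin 8 → Fin 8} (hQ : ∀ x, Q (Q x) = x) :
    c (code Q) = true := by
  have h0 : goH c 8 0 (pc (ext8 Q) 0) = true := h
  have h1 : goH c 7 1 (pc (ext8 Q) 1) = true := goH_step h0 (ext8_lt Q _) (okg_pc hQ (by norm_num))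
  have h2 : goH c 6 2 (pc (ext8 Q) 2) = true := goH_step h1 (ext8_lt Q _) (okg_pc hQ (by norm_num))
  have h3 : goH c 5 3 (pc (ext8 Q) 3) = true := goH_step h2 (ext8_lt Q _) (okg_pc hQ (by norm_num))
  have h4 : goH c 4 4 (pc (ext8 Q) 4) = true := goH_step h3 (ext8_lt Q _) (okg_pc hQ (by norm_num))
  have h5 : goH c 3 5 (pc (ext8 Q) 5) = true := goH_step h4 (ext8_lt Q _) (okg_pc hQ (by norm_num))
  have h6 : goH c 2 6 (pc (ext8 Q) 6) = true := goH_step h5 (ext8_lt Q _) (okg_pc hQ (by norm_num))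
  have h7 : goH c 1 7 (pc (ext8 Q) 7) = true := goH_step h6 (ext8_lt Q _) (okg_pc hQ (by norm_num))
  exact goH_step h7 (ext8_lt Q _) (okg_pc hQ (by norm_num))

/-- the masks are constant on the components -/
def clm (q : ℕ) : Bool := bits.all fun x => (cm q (app q x) == cm q x) && (cm q (bn x) == cm q x)

theorem goCC : goH (fun q => clm q && cvq q) 8 0 0 = true := by decide +kernel

theorem cm_code {P : Fin 8 → Fin 8} (hP : ∀ x, P (P x) = x) {x z : Fin 8} (h : Con P bar8 x z) :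
    cm (code P) x = cm (code P) z := by
  have hc := goH_inv goCC hP
  rw [Bool.and_eq_true] at hc
  have hc := hc.1
  unfold clm at hc
  rw [List.all_eq_true] at hc
  induction h with
  | refl => rfl
  | tail _ hs ih =>
    rename_i b c _
    have h2 := hc b (mem_bits b.2)
    rw [Bool.and_eq_true, beq_iff_eq, beq_iff_eq] at h2
    rw [ih]
    rcases hs with hs | hs
    · rw [hs, ← h2.1, ← code_mat P b]
    · rw [hs, ← h2.2, bn_bar]

theorem cq_iff {P : Fin 8 → Fin 8} (hP : ∀ x, P (P x) = x) (x z : Fin 8) :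
    cq (code P) x z = true ↔ Con P bar8 x z := by
  refine ⟨cq_con (code_mat P), fun h => ?_⟩
  have h1 := cm_code hP h
  have h2 := cq_self (q := code P) (z : ℕ)
  unfold cq at h2 ⊢
  rw [h1]
  exact h2

theorem tq_iff {P : Fin 8 → Fin 8} (hP : ∀ x, P (P x) = x) (x : Fin 8) : tq (code P) x = true ↔ TL P x := by
  refine ⟨tq_TL (code_mat P), ?_⟩
  rintro ⟨j, hj1, hj2⟩
  unfold tq
  rw [List.any_eq_true]
  refine ⟨j, mem_bits j.2, ?_⟩
  rw [Bool.and_eq_true, beq_iff_eq]
  exact ⟨(cq_iff hP x j).2 hj1, by rw [← code_mat P j, hj2]⟩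

theorem nc_code {P : Fin 8 → Fin 8} (hP : ∀ x, P (P x) = x) : NC P (dset (code P)) := by
  have key : ∀ i j : Fin 8, j ∈ dset (code P) → i < j → ¬ Con P bar8 j i := by
    intro i j hj hij h
    have h1 := (cq_iff hP j i).2 h
    unfold dset at hj
    rw [Finset.mem_filter, Bool.and_eq_true, beq_iff_eq] at hj
    have h2 : Nat.testBit (cm (code P) j % 2 ^ (j : ℕ)) i = true := by
      rw [Nat.testBit_mod_two_pow, Bool.and_eq_true]
      exact ⟨by simpa using hij, h1⟩
    rw [hj.2.1] at h2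
    simp at h2
  constructor
  · intro i hi j hj hij h
    rcases lt_or_gt_of_ne hij with h1 | h1
    · exact key i j hj h1 (h.symm' hP bar8_bar8)
    · exact key j i hi h1 h
  · intro i hi h
    unfold dset at hi
    rw [Finset.mem_filter, Bool.and_eq_true, (tq_iff hP i).2 h] at hi
    simp at hi

theorem cv_code {P : Fin 8 → Fin 8} (hP : ∀ x, P (P x) = x) : CV P (dset (code P)) := by
  have hc := goH_inv goCC hP
  rw [Bool.and_eq_true] at hc
  exact cvq_CV (code_mat P) hc.2

/-- the alternative on codes -/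
def altc (f : ℕ → Bool) (q q' : ℕ) : Bool :=
  decide ((dl q').length < (dl q).length) || (decide ((dl q').length ≤ (dl q).length) && f q')

theorem altc_sound {f : ℕ → Bool} {F : (Fin 8 → Fin 8) → Prop} {P P' : Fin 8 → Fin 8}
    (hP : ∀ x, P (P x) = x) (hP' : ∀ x, P' (P' x) = x) (hF : f (code P') = true → F P')
    (h : altc f (code P) (code P') = true) : AltF F P P' := by
  unfold altc at h
  refine ⟨dset (code P), dset (code P'), nc_code hP, cv_code hP', ?_⟩
  rw [← dl_length, ← dl_length]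
  rw [Bool.or_eq_true] at h
  rcases h with h1 | h1
  · exact Or.inl (of_decide_eq_true h1)
  · rw [Bool.and_eq_true] at h1
    exact Or.inr ⟨of_decide_eq_true h1.1, hF h1.2⟩

/-- the check: `h`, or one of the lists of moves -/
def chkG (h f : ℕ → Bool) (k : ℕ) (L : List (List (ℕ × ℕ × ℕ))) (q : ℕ) : Bool :=
  h q || L.any fun l => match runc k l q with
    | some q' => altc f q q'
    | none => false

theorem chkG_sound {h f : ℕ → Bool} {k : ℕ} (hk : k ≤ 3) {L : List (List (ℕ × ℕ × ℕ))}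
    {F : (Fin 8 → Fin 8) → Prop} {P : Fin 8 → Fin 8} (hP : ∀ x, P (P x) = x)
    (hF : ∀ P' : Fin 8 → Fin 8, (∀ x, P' (P' x) = x) → f (code P') = true → F P')
    (hc : chkG h f k L (code P) = true) (hh : h (code P) = false) :
    ∃ l ∈ L, ∃ P', Run k l.length P P' ∧ AltF F P P' := by
  unfold chkG at hc
  rw [hh, Bool.false_or, List.any_eq_true] at hc
  obtain ⟨l, hl, hc⟩ := hc
  refine ⟨l, hl, ?_⟩
  cases hr : runc k l (code P) with
  | none => rw [hr] at hc; simp at hc
  | some q' =>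
    rw [hr] at hc
    obtain ⟨P', h1, h2, rfl⟩ := runc_sound hk l hP hr
    exact ⟨P', h1, altc_sound hP h2 (hF P' h2) hc⟩

/-! ### The three checks -/

/-- three components -/
def hA (q : ℕ) : Bool := cq q 0 1 || cq q 0 2 || cq q 1 2 || (tq q 0 && tq q 1 && tq q 2)

/-- a star -/
def hB (q : ℕ) : Bool := cq q 0 1 || !(cq q 0 2) || (!(cq q 3 0) && !(cq q 3 1))

/-- a path -/
def hC (q : ℕ) : Bool := cq q 0 1 || !(cq q 0 2) || !(cq q 0 3)

/-- the moves for `hA` -/
def lA : List (List (ℕ × ℕ × ℕ)) := [[(0, 1, 2)], [(0, 2, 1)]]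

/-- the moves for `hB` -/
def lB : List (List (ℕ × ℕ × ℕ)) := [[(0, 1, 3), (4, 7, 5)], [(0, 3, 1), (4, 6, 7)], [(0, 2, 3), (4, 7, 5)],
  [(0, 3, 1), (4, 5, 7)], [(0, 1, 3)], [(4, 5, 7)]]

/-- the moves for `hC` -/
def lC : List (List (ℕ × ℕ × ℕ)) := [[(0, 2, 1)], [(4, 6, 5)], [(0, 1, 2)], [(4, 5, 6)]]

theorem goABC : goH (fun q => chkG hA (fun _ => false) 2 lA q && chkG hB (fun q => !(cq q 0 2)) 3 lB q &&
    chkG hC (fun q => !(cq q 0 2 && cq q 0 3)) 2 lC q) 8 0 0 = true := by decide +kernel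

theorem localA {P : Fin 8 → Fin 8} (hP : ∀ x, P (P x) = x) (h1 : ¬ Con P bar8 0 1) (h2 : ¬ Con P bar8 0 2)
    (h3 : ¬ Con P bar8 1 2) (h4 : ¬ (TL P 0 ∧ TL P 1 ∧ TL P 2)) :
    ∃ n ≤ 2, ∃ P', Run 2 n P P' ∧ AltF (fun _ => False) P P' := by
  have hm := code_mat P
  have hc : chkG hA (fun _ => false) 2 lA (code P) = true := by
    have h := goH_inv goABC hP
    rw [Bool.and_eq_true, Bool.and_eq_true] at h
    exact h.1.1
  have hh : hA (code P) = false := by
    by_contra hne
    rw [Bool.not_eq_false] at hne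
    unfold hA at hne
    simp only [Bool.or_eq_true, Bool.and_eq_true] at hne
    rcases hne with ((hne | hne) | hne) | hne
    · exact h1 (cq_con (x := 0) (z := 1) hm hne)
    · exact h2 (cq_con (x := 0) (z := 2) hm hne)
    · exact h3 (cq_con (x := 1) (z := 2) hm hne)
    · exact h4 ⟨tq_TL (x := 0) hm hne.1.1, tq_TL (x := 1) hm hne.1.2, tq_TL (x := 2) hm hne.2⟩
  obtain ⟨l, hl, P', h5, h6⟩ := chkG_sound (F := fun _ => False) (by norm_num) hP
    (fun _ _ h => absurd h (by decide)) hc hh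
  refine ⟨l.length, ?_, P', h5, h6⟩
  simp only [lA, List.mem_cons, List.not_mem_nil, or_false] at hl
  rcases hl with rfl | rfl <;> simp

theorem localB {P : Fin 8 → Fin 8} (hP : ∀ x, P (P x) = x) (h1 : ¬ Con P bar8 0 1) (h2 : Con P bar8 0 2)
    (h3 : Con P bar8 3 0 ∨ Con P bar8 3 1) :
    ∃ n ≤ 2, ∃ P', Run 3 n P P' ∧ AltF (fun P' => ¬ Con P' bar8 0 2) P P' := by
  have g2 : cq (code P) 0 2 = true := (cq_iff hP 0 2).2 h2
  have g3 : cq (code P) 3 0 = true ∨ cq (code P) 3 1 = true := h3.imp (cq_iff hP 3 0).2 (cq_iff hP 3 1).2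
  have hc : chkG hB (fun q => !(cq q 0 2)) 3 lB (code P) = true := by
    have h := goH_inv goABC hP
    rw [Bool.and_eq_true, Bool.and_eq_true] at h
    exact h.1.2
  have hh : hB (code P) = false := by
    by_contra hne
    rw [Bool.not_eq_false] at hne
    unfold hB at hne
    rw [g2] at hne
    simp only [Bool.or_eq_true, Bool.and_eq_true, Bool.not_eq_true', Bool.not_true] at hne
    rcases hne with (hne | hne) | hne
    · exact h1 ((cq_iff hP 0 1).1 hne)
    · exact absurd hne (by decide)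
    · rcases g3 with g3 | g3
      · rw [g3] at hne; exact absurd hne.1 (by decide)
      · rw [g3] at hne; exact absurd hne.2 (by decide)
  obtain ⟨l, hl, P', h5, h6⟩ := chkG_sound (F := fun P' => ¬ Con P' bar8 0 2) (by norm_num) hP
    (fun P' hP' h hcon => by
      have g : cq (code P') 0 2 = true := (cq_iff hP' 0 2).2 hcon
      rw [g] at h
      exact absurd h (by decide)) hc hh
  refine ⟨l.length, ?_, P', h5, h6⟩
  simp only [lB, List.mem_cons, List.not_mem_nil, or_false] at hl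
  rcases hl with rfl | rfl | rfl | rfl | rfl | rfl <;> simp

theorem localC {P : Fin 8 → Fin 8} (hP : ∀ x, P (P x) = x) (h1 : ¬ Con P bar8 0 1) (h2 : Con P bar8 0 2)
    (h3 : Con P bar8 0 3) :
    ∃ n ≤ 2, ∃ P', Run 2 n P P' ∧ AltF (fun P' => ¬ (Con P' bar8 0 2 ∧ Con P' bar8 0 3)) P P' := by
  have g2 : cq (code P) 0 2 = true := (cq_iff hP 0 2).2 h2
  have g3 : cq (code P) 0 3 = true := (cq_iff hP 0 3).2 h3
  have hc : chkG hC (fun q => !(cq q 0 2 && cq q 0 3)) 2 lC (code P) = true := by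
    have h := goH_inv goABC hP
    rw [Bool.and_eq_true, Bool.and_eq_true] at h
    exact h.2
  have hh : hC (code P) = false := by
    by_contra hne
    rw [Bool.not_eq_false] at hne
    unfold hC at hne
    rw [g2, g3] at hne
    simp only [Bool.or_eq_true, Bool.not_true] at hne
    rcases hne with (hne | hne) | hne
    · exact h1 ((cq_iff hP 0 1).1 hne)
    · exact absurd hne (by decide)
    · exact absurd hne (by decide)
  obtain ⟨l, hl, P', h5, h6⟩ := chkG_sound (F := fun P' => ¬ (Con P' bar8 0 2 ∧ Con P' bar8 0 3)) (by norm_num) hP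
    (fun P' hP' h hcon => by
      have g1 : cq (code P') 0 2 = true := (cq_iff hP' 0 2).2 hcon.1
      have g2 : cq (code P') 0 3 = true := (cq_iff hP' 0 3).2 hcon.2
      rw [g1, g2] at h
      exact absurd h (by decide)) hc hh
  refine ⟨l.length, ?_, P', h5, h6⟩
  simp only [lC, List.mem_cons, List.not_mem_nil, or_false] at hl
  rcases hl with rfl | rfl | rfl | rfl <;> simp

end Pool.Agent.Lib.MP_688fd0_co.SQ5.H87.Star2
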