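import Mathlib
import Pool.Agent.Lib.MP_688fd0_co.SQ5.H87.Star2
import Pool.Agent.Lib.MP_688fd0_co.SQ5.H95.Core

/-!
MP_688fd0_co, type C: STAR for a whole strand graph, second form: `Λ` connected, every edge of `Λ` has an end with at least
three neighbours.
-/

set_option autoImplicit false

namespace Pool.Agent.Lib.MP_688fd0_co.SQ5.H87.Star2

open Function Equiv
open Pool.Agent.Lib.MP_688fd0_co.SQ5.H64
open Pool.Agent.Lib.MP_688fd0_co.SQ5.H69

set_option linter.unusedSectionVars false

variable {S : Type*}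

/-! ### Lifting the moves -/

theorem L4_lo (v : Fin 4 → S) (i : Fin 8) (h : i.1 < 4) : L4 v i = Sum.inr (v ⟨i.1, h⟩, false) := by
  unfold L4
  have h1 : (⟨i.1 % 4, Nat.mod_lt _ (by norm_num)⟩ : Fin 4) = ⟨i.1, h⟩ := Fin.ext (Nat.mod_eq_of_lt h)
  have h2 : decide (4 ≤ i.1) = false := decide_eq_false (by omega)
  rw [h1, h2]

theorem L4_hi (v : Fin 4 → S) (i : Fin 8) (h : 4 ≤ i.1) :
    L4 v i = Sum.inr (v ⟨i.1 - 4, by have := i.2; omega⟩, true) := by
  unfold L4
  have h1 : (⟨i.1 % 4, Nat.mod_lt _ (by norm_num)⟩ : Fin 4) = ⟨i.1 - 4, by have := i.2; omega⟩ := by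
    apply Fin.ext
    have := i.2
    change i.1 % 4 = i.1 - 4
    omega
  have h2 : decide (4 ≤ i.1) = true := decide_eq_true h
  rw [h1, h2]

variable [Finite S] [DecidableEq S] {Λ : SimpleGraph S}

theorem run_lift {v : Fin 4 → S} (hv : Injective v) {k : ℕ} (hk : k ≤ 3)
    (hadj : ∀ i : Fin 4, 1 ≤ i.1 → i.1 ≤ k → Λ.Adj (v 0) (v i)) {n : ℕ} {P P' : Fin 8 → Fin 8}
    (h : Run k n P P') : ∀ {Q : E4 S → E4 S}, IsPair Q → P8 Q (J4 v) (L4 v) = P →
    ∃ Q', Rel (B4 S) (J4 v) (L4 v) Q Q' ∧ (∀ m, Good Λ m Q' → Good Λ (m + n) Q) ∧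
      P8 Q' (J4 v) (L4 v) = P' := by
  induction h with
  | nil P =>
    intro Q hQ hP
    exact ⟨Q, Rel.refl' hQ, fun _ h => h, hP⟩
  | @cons n P P' u a b h1 h2 h3 h4 _ ih =>
    intro Q hQ hP
    have hua : u ≠ a := by
      rintro rfl
      rcases adk_cases hk h1 with h | h <;> omega
    have hub : u ≠ b := by
      rintro rfl
      rcases adk_cases hk h2 with h | h <;> omega
    subst hP
    obtain ⟨r, e, hne⟩ := move_rel hv hQ hua hub h3 h4
    obtain ⟨Q', r', g', e'⟩ := ih r.pair e
    refine ⟨Q', r.trans' r', fun m hm => ?_, e'⟩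
    have h5 := g' m hm
    have e6 : m + (n + 1) = (m + n) + 1 := by omega
    rw [e6]
    rcases adk_cases hk h1 with ⟨hu0, ha1, ha2, ha3⟩ | ⟨hu0, ha1, ha2, ha3⟩
    · have hb : 1 ≤ b.1 ∧ b.1 ≤ k ∧ b.1 < 4 := by
        rcases adk_cases hk h2 with h | h <;> omega
      have hu4 : u.1 < 4 := by omega
      have eu : v ⟨u.1, hu4⟩ = v 0 := congrArg v (Fin.ext hu0)
      rw [L4_lo v u hu4, L4_lo v a ha3, eu] at hne
      rw [L4_lo v u hu4, L4_lo v a ha3, L4_lo v b hb.2.2, eu] at h5
      refine Good.step hQ (b := false) (hadj ⟨a.1, ha3⟩ ha1 ha2) (hadj ⟨b.1, hb.2.2⟩ hb.1 hb.2.1) ?_ hne h5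
      intro h
      have h' := congrArg Fin.val (hv h)
      change a.1 = b.1 at h'
      exact h3 (Fin.ext h')
    · have hb : 5 ≤ b.1 ∧ b.1 ≤ 4 + k ∧ b.1 < 8 := by
        rcases adk_cases hk h2 with h | h <;> omega
      have hu4 : 4 ≤ u.1 := by omega
      have eu : v ⟨u.1 - 4, by have := u.2; omega⟩ = v 0 := congrArg v (Fin.ext (by change u.1 - 4 = 0; omega))
      rw [L4_hi v u hu4, L4_hi v a (by omega), eu] at hne
      rw [L4_hi v u hu4, L4_hi v a (by omega), L4_hi v b (by omega), eu] at h5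
      refine Good.step hQ (b := true) (hadj ⟨a.1 - 4, by omega⟩ (by change 1 ≤ a.1 - 4; omega)
        (by change a.1 - 4 ≤ k; omega)) (hadj ⟨b.1 - 4, by omega⟩ (by change 1 ≤ b.1 - 4; omega)
        (by change b.1 - 4 ≤ k; omega)) ?_ hne h5
      intro h
      have h' := congrArg Fin.val (hv h)
      change a.1 - 4 = b.1 - 4 at h'
      exact h3 (Fin.ext (by omega))

/-- one step with an alternative -/
theorem alt_step {v : Fin 4 → S} (hv : Injective v) {k : ℕ} (hk : k ≤ 3)
    (hadj : ∀ i : Fin 4, 1 ≤ i.1 → i.1 ≤ k → Λ.Adj (v 0) (v i)) {Q : E4 S → E4 S} (hQ : IsPair Q) {c : ℕ}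
    (hcov : ∃ R, Cov Q (B4 S) R ∧ R.card ≤ c + 1) {F : (Fin 8 → Fin 8) → Prop}
    (h : ∃ n ≤ 2, ∃ P', Run k n (P8 Q (J4 v) (L4 v)) P' ∧ AltF F (P8 Q (J4 v) (L4 v)) P') :
    ∃ Q', Rel (B4 S) (J4 v) (L4 v) Q Q' ∧ (∀ m, Good Λ m Q' → Good Λ (m + 2) Q) ∧
      ((∃ R, Cov Q' (B4 S) R ∧ R.card ≤ c) ∨
       ((∃ R, Cov Q' (B4 S) R ∧ R.card ≤ c + 1) ∧ F (P8 Q' (J4 v) (L4 v)))) := by
  obtain ⟨n, hn, P', hr, D, D', hNC, hCV, hcase⟩ := h
  obtain ⟨Q', r, g, e⟩ := run_lift hv hk hadj hr hQ rfl
  obtain ⟨R, hR, hRc⟩ := hcov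
  obtain ⟨R', hR', hRc'⟩ := cover_step (cut4 hv) hQ r hR hNC (by rw [e]; exact hCV)
  refine ⟨Q', r, fun m hm => (g m hm).mono (by omega), ?_⟩
  rcases hcase with h | ⟨h1, h2⟩
  · exact Or.inl ⟨R', hR', by omega⟩
  · exact Or.inr ⟨⟨R', hR', by omega⟩, by rw [e]; exact h2⟩

/-! ### The walk -/

/-- at least three neighbours -/
def Deg3 (Λ : SimpleGraph S) (s : S) : Prop := ∃ a b c, a ≠ b ∧ a ≠ c ∧ b ≠ c ∧ Λ.Adj s a ∧ Λ.Adj s b ∧ Λ.Adj s c

theorem fourth {s p q r : S} (h : Deg3 Λ s) : ∃ u : S, u ≠ p ∧ u ≠ q ∧ u ≠ r := by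
  obtain ⟨a, b, d, hab, had, hbd, ha, hb, hd⟩ := h
  have h4 : ({s, a, b, d} : Finset S).card = 4 := by
    rw [Finset.card_insert_of_notMem, Finset.card_insert_of_notMem, Finset.card_insert_of_notMem,
      Finset.card_singleton]
    · simpa using hbd
    · simp [hab, had]
    · simp [ha.ne, hb.ne, hd.ne]
  have h3 : ({p, q, r} : Finset S).card ≤ 3 := Finset.card_le_three
  obtain ⟨u, -, hu⟩ := Finset.exists_mem_notMem_of_card_lt_card (s := ({p, q, r} : Finset S))
    (t := ({s, a, b, d} : Finset S)) (by omega)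
  simp only [Finset.mem_insert, Finset.mem_singleton, not_or] at hu
  exact ⟨u, hu.1, hu.2.1, hu.2.2⟩

theorem inj4 {x0 x1 x2 x3 : S} (h01 : x0 ≠ x1) (h02 : x0 ≠ x2) (h03 : x0 ≠ x3) (h12 : x1 ≠ x2) (h13 : x1 ≠ x3)
    (h23 : x2 ≠ x3) : Injective ![x0, x1, x2, x3] := by
  intro i j h
  fin_cases i <;> fin_cases j <;> first
    | rfl
    | (exfalso; revert h; change _ ≠ _)
  · exact h01
  · exact h02
  · exact h03
  · exact h01.symm
  · exact h12
  · exact h13
  · exact h02.symm
  · exact h12.symm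
  · exact h23
  · exact h03.symm
  · exact h13.symm
  · exact h23.symm

/-- if the four lower ends are connected to the first or the second one, then all eight ends are -/
theorem all_ends {v : Fin 4 → S} (hv : Injective v) {Q : E4 S → E4 S}
    (h2 : Con Q (B4 S) (L4 v 2) (L4 v 0) ∨ Con Q (B4 S) (L4 v 2) (L4 v 1))
    (h3 : Con Q (B4 S) (L4 v 3) (L4 v 0) ∨ Con Q (B4 S) (L4 v 3) (L4 v 1)) (i : Fin 8) :
    Con Q (B4 S) (L4 v i) (L4 v 0) ∨ Con Q (B4 S) (L4 v i) (L4 v 1) := by
  have hlow : ∀ i : Fin 8, i.1 < 4 → Con Q (B4 S) (L4 v i) (L4 v 0) ∨ Con Q (B4 S) (L4 v i) (L4 v 1) := by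
    intro i hi
    have hi' : i = 0 ∨ i = 1 ∨ i = 2 ∨ i = 3 := by
      revert hi; revert i; decide
    rcases hi' with rfl | rfl | rfl | rfl
    · exact Or.inl (Con.refl' _)
    · exact Or.inr (Con.refl' _)
    · exact h2
    · exact h3
  have hi' : i.1 < 4 ∨ (bar8 i).1 < 4 := by
    revert i; decide
  rcases hi' with h | h
  · exact hlow i h
  · have h5 : Con Q (B4 S) (L4 v i) (L4 v (bar8 i)) := by
      rw [← (cut4 hv).bar]; exact con_right _
    rcases hlow _ h with h6 | h6
    · exact Or.inl (h5.trans' h6)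
    · exact Or.inr (h5.trans' h6)

variable {Q : E4 S → E4 S}

/-- one step: the number of cycles goes down or the walk becomes shorter -/
theorem walk_step2 (hdeg : ∀ v w, Λ.Adj v w → Deg3 Λ v ∨ Deg3 Λ w) (hQ : IsPair Q) (hact : Act Q (B4 S)) {c K n : ℕ}
    (hcov : ∃ R, Cov Q (B4 S) R ∧ R.card ≤ c + 1)
    (IHc : ∀ Q' : E4 S → E4 S, IsPair Q' → Act Q' (B4 S) →
      (∃ R, Cov Q' (B4 S) R ∧ R.card ≤ c) → Good Λ K Q')
    (IHn : ∀ Q' : E4 S → E4 S, IsPair Q' → Act Q' (B4 S) →
      (∃ R, Cov Q' (B4 S) R ∧ R.card ≤ c + 1) → Three Λ Q' (n - 1) →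
      Good Λ (K + 2 * (n - 1)) Q')
    (hn : 2 ≤ n) (hmin : ∀ m < n, ¬ Three Λ Q m) {f : ℕ → S} (hf : ∀ i < n, Λ.Adj (f i) (f (i + 1)))
    (hA : ∀ m, 0 < m → m < n → Con Q (B4 S) (le (f m)) (le (f 1)))
    (hB : ¬ Con Q (B4 S) (le (f 0)) (le (f 1))) (hC : ¬ Con Q (B4 S) (le (f n)) (le (f 1)))
    (hD : ¬ Con Q (B4 S) (le (f 0)) (le (f n))) (h3 : n = 3 → Deg3 Λ (f 1)) : Good Λ (K + 2 * n) Q := by
  have sym : ∀ {x y : E4 S}, Con Q (B4 S) x y → Con Q (B4 S) y x := fun h => con_symm hQ h
  have had0 : Λ.Adj (f 1) (f 0) := (hf 0 (by omega)).symm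
  have had2 : Λ.Adj (f 1) (f 2) := hf 1 (by omega)
  have hne02 : f 0 ≠ f 2 := by
    intro h
    by_cases h2 : n = 2
    · subst h2
      apply hD; rw [h]; exact Con.refl' _
    · apply hB
      rw [h]
      exact hA 2 (by omega) (by omega)
  rcases Nat.lt_or_ge n 3 with hlt | hge
  · -- two steps
    obtain rfl : n = 2 := by omega
    obtain ⟨u, hu1, hu0, hu2⟩ : ∃ u : S, u ≠ f 1 ∧ u ≠ f 0 ∧ u ≠ f 2 := by
      rcases hdeg _ _ had0 with h | h
      · exact fourth h
      · exact fourth h
    set v : Fin 4 → S := ![f 1, f 0, f 2, u] with hv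
    have hvinj : Injective v := inj4 had0.ne had2.ne hu1.symm hne02 hu0.symm hu2.symm
    have hc := cut4 hvinj
    have l0 : L4 v 0 = le (f 1) := rfl
    have l1 : L4 v 1 = le (f 0) := rfl
    have l2 : L4 v 2 = le (f 2) := rfl
    have hloc := localA (P := P8 Q (J4 v) (L4 v)) (fun x => p8_inv hQ hc x)
      (fun h => hB (sym (con_of_loc hQ hc h))) (fun h => hC (sym (con_of_loc hQ hc h)))
      (fun h => hD (con_of_loc hQ hc h)) (by
        rintro ⟨⟨j0, a0, b0⟩, ⟨j1, a1, b1⟩, ⟨j2, a2, b2⟩⟩
        rcases term_three hQ (term_of_loc hQ hc a0 b0) (term_of_loc hQ hc a1 b1) (term_of_loc hQ hc a2 b2)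
          with h | h | h
        · exact hB (sym h)
        · exact hC (sym h)
        · exact hD h)
    obtain ⟨Q', r, g, hcase⟩ := alt_step hvinj (Λ := Λ) (by norm_num) (by
      intro i h1 h2
      fin_cases i
      · exact absurd h1 (by decide)
      · exact had0
      · exact had2
      · exact absurd h2 (by decide)) hQ hcov hloc
    rcases hcase with h | ⟨-, h⟩
    · exact (g _ (IHc Q' r.pair (r.act hact) h)).mono (by omega)
    · exact h.elim
  · have c2 : Con Q (B4 S) (le (f 2)) (le (f 1)) := hA 2 (by omega) (by omega)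
    rcases Nat.lt_or_ge n 4 with hlt | hge4
    · -- three steps
      obtain rfl : n = 3 := by omega
      obtain ⟨a, b, d, hab, had, hbd, ha, hb, hd⟩ := h3 rfl
      obtain ⟨u, hu, hu0, hu2⟩ := third (p := f 0) (q := f 2) hab had hbd
      have hadu : Λ.Adj (f 1) u := by
        rcases hu with h | h | h
        · rw [h]; exact ha
        · rw [h]; exact hb
        · rw [h]; exact hd
      have hcu : Con Q (B4 S) (le u) (le (f 1)) ∨ Con Q (B4 S) (le u) (le (f 0)) := by
        by_contra hne
        push Not at hne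
        refine hmin 2 (by norm_num) ⟨fun i => if i = 0 then u else if i = 1 then f 1 else f 0, ?_, 0, 1, 2,
          by norm_num, by norm_num, le_rfl, ?_, ?_, ?_⟩
        · intro i hi
          have hi' : i = 0 ∨ i = 1 := by omega
          rcases hi' with rfl | rfl
          · exact hadu.symm
          · exact had0
        · exact hne.1
        · exact hne.2
        · exact fun h => hB (sym h)
      set v : Fin 4 → S := ![f 1, f 0, f 2, u] with hv
      have hvinj : Injective v := inj4 had0.ne had2.ne hadu.ne hne02 hu0.symm hu2.symm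
      have hc := cut4 hvinj
      have l0 : L4 v 0 = le (f 1) := rfl
      have l1 : L4 v 1 = le (f 0) := rfl
      have l2 : L4 v 2 = le (f 2) := rfl
      have l3 : L4 v 3 = le u := rfl
      have hloc := localB (P := P8 Q (J4 v) (L4 v)) (fun x => p8_inv hQ hc x)
        (fun h => hB (sym (con_of_loc hQ hc h))) (loc_con hQ hc (i := 0) (k := 2) (sym c2))
        (hcu.imp (fun h => loc_con hQ hc (i := 3) (k := 0) h) (fun h => loc_con hQ hc (i := 3) (k := 1) h))
      obtain ⟨Q', hrel, g, hcase⟩ := alt_step hvinj (Λ := Λ) (by norm_num) (by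
        intro i h1 h2
        fin_cases i
        · exact absurd h1 (by decide)
        · exact had0
        · exact had2
        · exact hadu) hQ hcov hloc
      rcases hcase with h | ⟨hcov', h2⟩
      · exact (g _ (IHc Q' hrel.pair (hrel.act hact) h)).mono (by omega)
      · have hall := all_ends hvinj (Q := Q) (Or.inl c2) hcu
        have hunt : ∀ i, ¬ Con Q (B4 S) (le (f 3)) (L4 v i) := by
          intro i h
          rcases hall i with h5 | h5
          · exact hC (h.trans' h5)
          · exact hD (sym (h.trans' h5))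
        have e1 := hrel.unt _ hunt
        have sym' : ∀ {x y : E4 S}, Con Q' (B4 S) x y → Con Q' (B4 S) y x := fun h => con_symm hrel.pair h
        have d1 : ¬ Con Q' (B4 S) (le (f 1)) (le (f 2)) := by
          intro h
          exact h2 (loc_con hrel.pair hc (i := 0) (k := 2) h)
        have d2 : ¬ Con Q' (B4 S) (le (f 1)) (le (f 3)) := by
          intro h
          exact hC ((e1 _).1 (sym' h))
        have d3 : ¬ Con Q' (B4 S) (le (f 2)) (le (f 3)) := by
          intro h
          exact hC (((e1 _).1 (sym' h)).trans' c2)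
        have h3' : Three Λ Q' (3 - 1) :=
          three_part (a := 1) (i := 1) (j := 2) (k := 3) hf le_rfl (by omega) (by omega) le_rfl d1 d2 d3
        exact (g _ (IHn Q' hrel.pair (hrel.act hact) hcov' h3')).mono (by omega)
    · -- at least four steps
      have c3 : Con Q (B4 S) (le (f 3)) (le (f 1)) := hA 3 (by omega) (by omega)
      have hne31 : f 3 ≠ f 1 := by
        intro h
        refine hmin (n - 2) (by omega) ⟨fun i => if i = 0 then f 0 else f (i + 2), ?_, 0, 1, n - 2,
          by norm_num, by omega, le_rfl, ?_, ?_, ?_⟩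
        · intro i hi
          rcases Nat.eq_zero_or_pos i with rfl | hi0
          · change Λ.Adj (f 0) (f 3)
            rw [h]; exact had0.symm
          · change Λ.Adj (if i = 0 then f 0 else f (i + 2)) (if i + 1 = 0 then f 0 else f (i + 1 + 2))
            rw [if_neg (by omega), if_neg (by omega)]
            have := hf (i + 2) (by omega)
            rwa [show i + 2 + 1 = i + 1 + 2 by omega] at this
        · change ¬ Con Q (B4 S) (le (f 0)) (le (f 3))
          rw [h]; exact hB
        · change ¬ Con Q (B4 S) (le (f 0)) (le (if n - 2 = 0 then f 0 else f (n - 2 + 2)))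
          rw [if_neg (by omega), Nat.sub_add_cancel (by omega)]
          exact hD
        · change ¬ Con Q (B4 S) (le (f 3)) (le (if n - 2 = 0 then f 0 else f (n - 2 + 2)))
          rw [if_neg (by omega), Nat.sub_add_cancel (by omega), h]
          exact fun h' => hC (sym h')
      have hne30 : f 3 ≠ f 0 := by
        intro h
        apply hB
        rw [← h]; exact c3
      have had23 : Λ.Adj (f 2) (f 3) := hf 2 (by omega)
      set v : Fin 4 → S := ![f 1, f 0, f 2, f 3] with hv
      have hvinj : Injective v := inj4 had0.ne had2.ne hne31.symm hne02 hne30.symm had23.ne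
      have hc := cut4 hvinj
      have l0 : L4 v 0 = le (f 1) := rfl
      have l1 : L4 v 1 = le (f 0) := rfl
      have l2 : L4 v 2 = le (f 2) := rfl
      have l3 : L4 v 3 = le (f 3) := rfl
      have hloc := localC (P := P8 Q (J4 v) (L4 v)) (fun x => p8_inv hQ hc x)
        (fun h => hB (sym (con_of_loc hQ hc h))) (loc_con hQ hc (i := 0) (k := 2) (sym c2))
        (loc_con hQ hc (i := 0) (k := 3) (sym c3))
      obtain ⟨Q', hrel, g, hcase⟩ := alt_step hvinj (Λ := Λ) (by norm_num) (by
        intro i h1 h2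
        fin_cases i
        · exact absurd h1 (by decide)
        · exact had0
        · exact had2
        · exact absurd h2 (by decide)) hQ hcov hloc
      rcases hcase with h | ⟨hcov', h2⟩
      · exact (g _ (IHc Q' hrel.pair (hrel.act hact) h)).mono (by omega)
      · have hall := all_ends hvinj (Q := Q) (Or.inl c2) (Or.inl c3)
        have hunt : ∀ i, ¬ Con Q (B4 S) (le (f n)) (L4 v i) := by
          intro i h
          rcases hall i with h5 | h5
          · exact hC (h.trans' h5)
          · exact hD (sym (h.trans' h5))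
        have e1 := hrel.unt _ hunt
        have sym' : ∀ {x y : E4 S}, Con Q' (B4 S) x y → Con Q' (B4 S) y x := fun h => con_symm hrel.pair h
        have d2 : ¬ Con Q' (B4 S) (le (f 1)) (le (f n)) := by
          intro h
          exact hC ((e1 _).1 (sym' h))
        have d3 : ¬ Con Q' (B4 S) (le (f 2)) (le (f n)) := by
          intro h
          exact hC (((e1 _).1 (sym' h)).trans' c2)
        have d4 : ¬ Con Q' (B4 S) (le (f 3)) (le (f n)) := by
          intro h
          exact hC (((e1 _).1 (sym' h)).trans' c3)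
        have h3' : Three Λ Q' (n - 1) := by
          by_cases h12 : Con Q' (B4 S) (le (f 1)) (le (f 2))
          · have h13 : ¬ Con Q' (B4 S) (le (f 1)) (le (f 3)) := by
              intro h13
              exact h2 ⟨loc_con hrel.pair hc (i := 0) (k := 2) h12, loc_con hrel.pair hc (i := 0) (k := 3) h13⟩
            exact three_part (a := 1) (i := 1) (j := 3) (k := n) hf le_rfl (by omega) (by omega) le_rfl h13 d2 d4
          · exact three_part (a := 1) (i := 1) (j := 2) (k := n) hf le_rfl (by omega) (by omega) le_rfl h12 d2 d3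
        exact (g _ (IHn Q' hrel.pair (hrel.act hact) hcov' h3')).mono (by omega)

theorem main_good2 (hdeg : ∀ v w, Λ.Adj v w → Deg3 Λ v ∨ Deg3 Λ w) (hconn : Λ.Connected) : ∀ (c : ℕ)
    (Q : E4 S → E4 S), IsPair Q → Act Q (B4 S) → (∃ R, Cov Q (B4 S) R ∧ R.card ≤ c) →
      Good Λ (c * (4 * Nat.card S)) Q := by
  intro c
  induction c with
  | zero =>
    rintro Q hQ hact ⟨R, hR, hc⟩
    refine ⟨0, by omega, idd, Stk.nil, ?_⟩
    intro e
    have h0 : R = ∅ := Finset.card_eq_zero.1 (by omega)
    rcases hR e with ⟨r, hr, -⟩ | ⟨t, ht, h⟩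
    · rw [h0] at hr; exact absurd hr (Finset.notMem_empty _)
    · obtain ⟨t', rfl⟩ := B4_fix ht
      exact ⟨t', h⟩
  | succ c IHc =>
    intro Q0 hQ0 hact0 hcov0
    have walk : ∀ (n : ℕ) (Q : E4 S → E4 S), IsPair Q → Act Q (B4 S) →
        (∃ R, Cov Q (B4 S) R ∧ R.card ≤ c + 1) → Three Λ Q n →
        Good Λ (c * (4 * Nat.card S) + 2 * n) Q := by
      intro n
      induction n using Nat.strong_induction_on with
      | _ n IHn =>
        intro Q hQ hact hcov h3
        by_cases hm : ∃ m < n, Three Λ Q m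
        · obtain ⟨m, hmn, hm⟩ := hm
          exact (IHn m hmn Q hQ hact hcov hm).mono (by omega)
        · push Not at hm
          obtain ⟨hn, f, hf, hA, hB, hC, hD⟩ := three_min hQ h3 hm
          have sym : ∀ {x y : E4 S}, Con Q (B4 S) x y → Con Q (B4 S) y x :=
            fun h => con_symm hQ h
          by_cases hT : n = 3 ∧ ¬ Deg3 Λ (f 1)
          · -- reverse the walk
            obtain ⟨rfl, hT⟩ := hT
            have hd2 : Deg3 Λ (f 2) := (hdeg _ _ (hf 1 (by norm_num))).resolve_left hT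
            have hnn : Con Q (B4 S) (le (f (3 - 1))) (le (f 1)) := hA _ (by omega) (by omega)
            refine walk_step2 hdeg hQ hact hcov IHc
              (fun Q' h1 h2 h3 h4 => IHn (3 - 1) (by omega) Q' h1 h2 h3 h4) hn hm
              (f := fun m => f (3 - m)) ?_ ?_ ?_ ?_ ?_ ?_
            · intro i hi
              have h1 := (hf (3 - (i + 1)) (by omega)).symm
              rwa [show 3 - (i + 1) + 1 = 3 - i by omega] at h1
            · intro m hm0 hmn
              exact (hA (3 - m) (by omega) (by omega)).trans' (sym hnn)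
            · intro h
              exact hC (h.trans' hnn)
            · intro h
              have h' : Con Q (B4 S) (le (f 0)) (le (f (3 - 1))) := h
              exact hB (h'.trans' hnn)
            · intro h
              have h' : Con Q (B4 S) (le (f 3)) (le (f 0)) := h
              exact hD (sym h')
            · intro _
              exact hd2
          · refine walk_step2 hdeg hQ hact hcov IHc
              (fun Q' h1 h2 h3 h4 => IHn (n - 1) (by omega) Q' h1 h2 h3 h4) hn hm hf hA hB hC hD ?_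
            intro h
            by_contra h'
            exact hT ⟨h, h'⟩
    obtain ⟨R, hR, hRc⟩ := hcov0
    by_cases h : ∃ r ∈ R, ¬ TC Q0 (B4 S) r
    · obtain ⟨n, hn, h3⟩ := exists_three hconn hQ0 hact0 h
      have h4 := walk n Q0 hQ0 hact0 ⟨R, hR, hRc⟩ h3
      refine h4.mono ?_
      have : (c + 1) * (4 * Nat.card S) = c * (4 * Nat.card S) + 4 * Nat.card S := by ring
      omega
    · push Not at h
      have h0 : Cov Q0 (B4 S) ∅ := by
        intro e
        right
        rcases hR e with ⟨r, hr, her⟩ | h1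
        · obtain ⟨t, ht, hrt⟩ := h r hr
          exact ⟨t, ht, her.trans' hrt⟩
        · exact h1
      refine (IHc Q0 hQ0 hact0 ⟨∅, h0, by simp⟩).mono ?_
      exact Nat.mul_le_mul_right _ (Nat.le_succ c)

/-! ### The theorem -/

/-- STAR for a whole strand graph: `Λ` connected, every edge has an end with three neighbours -/
theorem star2 (hconn : Λ.Connected) (hdeg : ∀ v w, Λ.Adj v w → Deg3 Λ v ∨ Deg3 Λ w) :
    H64.Star {d : S × Bool → S × Bool | ∃ n ≤ 4 * Nat.card S ^ 2, Stk Λ n d} := by
  intro Q hQ x y hxy hxy'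
  have hF := Fintype.ofFinite S
  have hO := opn_pair hQ hxy hxy'
  have hact : Act (opn Q x y) (B4 S) := by
    intro t ht
    obtain ⟨t', rfl⟩ := B4_fix ht
    intro h
    have h1 : opn Q x y (Sum.inl t') = Sum.inr (![x, Q x, y, Q y] t') := rfl
    rw [h1] at h
    obtain ⟨t'', h2⟩ := B4_fix h
    cases h2
  have hcov : Cov (opn Q x y) (B4 S) (Finset.univ.image fun s : S => le s) := by
    rintro (t | q)
    · exact Or.inr ⟨Sum.inl t, rfl, Con.refl' _⟩
    · exact Or.inl ⟨le q.1, Finset.mem_image_of_mem _ (Finset.mem_univ _),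
        con_symm hO (le_con q)⟩
  obtain ⟨m, hm, d, hd, hall⟩ := main_good2 hdeg hconn (Nat.card S) (opn Q x y) hO hact
    ⟨_, hcov, by rw [Nat.card_eq_fintype_card]; exact Finset.card_image_le⟩
  refine ⟨d, ⟨m, hm.trans (le_of_eq (by ring)), hd⟩, ?_⟩
  have hdp := hd.pair
  -- back to the closed picture
  let χ : E4 S → S × Bool := fun e => match e with
    | Sum.inl t => ![x, Q x, y, Q y] t
    | Sum.inr q => q
  have hstep : ∀ e e' : E4 S, Con (opn Q x y) (jd (Fin 4) d) e e' → Con Q d (χ e) (χ e') := by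
    intro e e' h
    induction h with
    | refl => exact Con.refl' _
    | tail _ hs ih =>
      rename_i b c _
      refine ih.trans' ?_
      rcases hs with hs | hs
      · rw [hs]
        rcases b with t | q
        · exact Con.refl' _
        · by_cases c1 : q = x
          · subst c1
            have : opn Q q y (Sum.inr q) = Sum.inl 0 := by simp [opn]
            rw [this]; exact Con.refl' _
          by_cases c2 : q = Q x
          · have : opn Q x y (Sum.inr q) = Sum.inl 1 := by simp [opn, c2, hQ.2]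
            rw [this, c2]; exact Con.refl' _
          by_cases c3 : q = y
          · have : opn Q x y (Sum.inr q) = Sum.inl 2 := by
              rw [c3]; simp [opn, hxy, hxy']
            rw [this, c3]; exact Con.refl' _
          by_cases c4 : q = Q y
          · have h3 : Q y ≠ x := fun h => hxy' (by rw [← h, hQ.1])
            have h4 : Q y ≠ Q x := fun h => hxy (pair_inj hQ h)
            have : opn Q x y (Sum.inr q) = Sum.inl 3 := by
              rw [c4]; simp [opn, h3, h4, hQ.2]
            rw [this, c4]; exact Con.refl' _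
          have e1 : opn Q x y (Sum.inr q) = Sum.inr (Q q) := by simp [opn, c1, c2, c3, c4]
          rw [e1]
          exact con_left _
      · rw [hs]
        rcases b with t | q
        · exact Con.refl' _
        · exact con_right _
  intro z
  obtain ⟨t, ht⟩ := hall (Sum.inr z)
  have h1 : Con Q d z (![x, Q x, y, Q y] t) := hstep _ _ ht
  have h2 : Con Q d (![x, Q x, y, Q y] t) z := h1.symm' hQ.1 hdp.1
  fin_cases t
  · exact Or.inl h2
  · exact Or.inl ((con_left x).trans' h2)
  · exact Or.inr h2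
  · exact Or.inr ((con_left y).trans' h2)

theorem deg3_of_four {s : S} (h : H95.Four Λ s) : Deg3 Λ s := by
  obtain ⟨f, hf, h⟩ := h
  exact ⟨f 0, f 1, f 2, fun e => absurd (hf e) (by decide), fun e => absurd (hf e) (by decide),
    fun e => absurd (hf e) (by decide), h 0, h 1, h 2⟩

/-- the form of helper95 -/
theorem star4S : H95.Star4S 4 := by
  intro T _ _ Λ hconn _ hdeg
  exact star2 hconn (fun v w h => (hdeg v w h).imp deg3_of_four deg3_of_four)

end Pool.Agent.Lib.MP_688fd0_co.SQ5.H87.Star2
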