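import Pool.Agent.Lib.MP_688fd0_co.SQ5.H87.HP
import Pool.Agent.Lib.MP_688fd0_co.SQ5.H66.Node
import Pool.Agent.Lib.MP_688fd0_co.SQ5.H64.P3All

/-!
MP_688fd0_co, type C2, FAR-3, design B', row HPATH, part P4 (helper87, plan of helper20): loops for all edges of the rung graph.

`loop_at`: `rg m → {y', θ^q z'}`, `{y', r} → {y', r'}`, `{y', θ^q' z'} → rg m`, where `rg (σ m) = {y', z'}` and `y'` is a strand
which does not drift. `Sit.turn`: the windows `{y, r} → {y, r'}` on both sides of `y`. `Sit.loop`: every edge of `Lam`.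
-/

set_option autoImplicit false

namespace Pool.Agent.Lib.MP_688fd0_co.SQ5.H87.P4

open Function Equiv
open Pool.Agent.Lib.MP_688fd0_co.OSF Pool.Agent.Lib.MP_688fd0_co.SQ5.H76
open Pool.Agent.Lib.MP_688fd0_co.SQ5.H20 Pool.Agent.Lib.MP_688fd0_co.SQ5.H64

universe u v

/-! ### Involutions of the levels -/

/-- A table of steps which is an involution. -/
def Tab (δ : ℤ → ℤ) : Prop := ∀ r, 0 ≤ r → r < 8 → δ ((r + δ r) % 8) = - δ r

/-- The involution. -/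
def sgF (δ : ℤ → ℤ) (ph m : ℤ) : ℤ := m + δ ((ph + m) % 8)

theorem sgF_inv {δ : ℤ → ℤ} (h : Tab δ) (ph : ℤ) : Involutive (sgF δ ph) := by
  intro m
  unfold sgF
  have e : (ph + (m + δ ((ph + m) % 8))) % 8 = ((ph + m) % 8 + δ ((ph + m) % 8)) % 8 := by omega
  rw [e, h _ (by omega) (by omega)]
  ring

/-- The permutation. -/
def sg {δ : ℤ → ℤ} (h : Tab δ) (ph : ℤ) : Perm ℤ := (sgF_inv h ph).toPerm

theorem sg_apply {δ : ℤ → ℤ} (h : Tab δ) (ph m : ℤ) : sg h ph m = m + δ ((ph + m) % 8) := rfl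

theorem sg_sg {δ : ℤ → ℤ} (h : Tab δ) (ph m : ℤ) : sg h ph (sg h ph m) = m := sgF_inv h ph m

theorem sg_add {δ : ℤ → ℤ} (h : Tab δ) (ph m : ℤ) (e : ℕ) : sg h ph (m + ((8 * e : ℕ) : ℤ)) = sg h ph m + ((8 * e : ℕ) : ℤ) := by
  rw [sg_apply, sg_apply]
  have e1 : (ph + (m + ((8 * e : ℕ) : ℤ))) % 8 = (ph + m) % 8 := by push_cast; omega
  rw [e1]
  ring

/-- (0 1)(2 3)(4 5)(6 7) -/
def dA (r : ℤ) : ℤ := if r = 0 ∨ r = 2 ∨ r = 4 ∨ r = 6 then 1 else -1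

/-- (1 2)(3 4)(5 6)(7 8) -/
def dB (r : ℤ) : ℤ := if r = 1 ∨ r = 3 ∨ r = 5 ∨ r = 7 then 1 else -1

/-- (1 4)(2 3)(5 8)(6 7) -/
def dC (r : ℤ) : ℤ := if r = 1 ∨ r = 5 then 3 else if r = 0 ∨ r = 4 then -3 else if r = 2 ∨ r = 6 then 1 else -1

theorem tabA : Tab dA := by
  intro r h0 h1
  interval_cases r <;> decide

theorem tabB : Tab dB := by
  intro r h0 h1
  interval_cases r <;> decide

theorem tabC : Tab dC := by
  intro r h0 h1
  interval_cases r <;> decide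

/-! ### Loops -/

section Loop

variable {S : Type*} {ω : ℤ → S} {Clo : ℤ → ℕ → Prop} {θ : Perm S} {P : ℕ} {M : Set ℤ}

theorem rg_zpow (h : HPathC ω Clo θ P M) (m q : ℤ) : rgZ ω (m + q * P) = (rgZ ω m).map (θ ^ q) := by
  unfold rgZ
  rw [h.om_zpow, add_right_comm, h.om_zpow, Sym2.map_mk]

variable [DecidableEq S] [Finite S] {D : ℕ → Set (S × Bool → S × Bool)}

/-- THE LOOP OF A RUNG. -/
theorem loop_at (h : HPathC ω Clo θ P M) (hD : Closed D) (hI : ∀ n, idd ∈ D n) {C ℓ : ℕ}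
    (hw : ∀ m ∈ M, ∀ i, Clo m i → (∀ i', i' < i → ¬ Clo m i') → i ≤ P → WC D C ℓ (rgZ ω m) (rgZ ω (m + i)))
    (σ : Perm ℤ) (hσP : ∀ m : ℤ, σ (m + P) = σ m + P) (hσM : ∀ m, σ m ∈ M ↔ m ∈ M)
    (hσ : ∀ m ∈ M, One (rgZ ω m) (rgZ ω (σ m))) (hσ2 : ∀ m, σ (σ m) = m) {m : ℤ} (hm : m ∈ M)
    {y z r r' : S} (h2 : rgZ ω (σ m) = s(y, z)) (hy : θ y = y) {c' n' : ℕ} (ht : WC D c' n' s(y, r) s(y, r'))
    (hr : ∀ q : ℤ, (θ ^ q) z ≠ r) (hr' : ∀ q : ℤ, (θ ^ q) z ≠ r') :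
    WC D (P * C + c' + P * C) (P * ℓ + n' + P * ℓ) (rgZ ω m) (rgZ ω m) := by
  obtain ⟨⟨q, hq⟩, ⟨q', hq'⟩⟩ := h.chain hD hI hw σ hσP hσM hσ hm
  have e : σ⁻¹ m = σ m := by
    rw [Perm.inv_def, symm_apply_eq, hσ2]
  have e1 : ∀ q : ℤ, rgZ ω (σ m + q * P) = s(y, (θ ^ q) z) := by
    intro q
    rw [rg_zpow h, h2, Sym2.map_mk, zpow_fix hy]
  rw [e, e1] at hq
  rw [e1] at hq'
  exact (hq.comp hD ⟨y, (θ ^ q) z, r, rfl, rfl, hr q⟩ ht).comp hD ⟨y, r', (θ ^ q') z, rfl, rfl, (hr' q').symm⟩ hq'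

/-- A turn pair. -/
theorem turn_at (h : HPathC ω Clo θ P M) (hD : Closed D) (hI : ∀ n, idd ∈ D n) {C ℓ : ℕ}
    (hw : ∀ m ∈ M, ∀ i, Clo m i → (∀ i', i' < i → ¬ Clo m i') → i ≤ P → WC D C ℓ (rgZ ω m) (rgZ ω (m + i)))
    (σ : Perm ℤ) (hσP : ∀ m : ℤ, σ (m + P) = σ m + P) (hσM : ∀ m, σ m ∈ M ↔ m ∈ M)
    (hσ : ∀ m ∈ M, One (rgZ ω m) (rgZ ω (σ m))) (hσ2 : ∀ m, σ (σ m) = m) {m : ℤ} (hm : m ∈ M)
    {y z r : S} (h1 : rgZ ω m = s(y, r)) (h2 : rgZ ω (σ m) = s(y, z)) (hy : θ y = y) :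
    ∃ q : ℤ, WC D (P * C) (P * ℓ) s(y, r) s(y, (θ ^ q) z) := by
  obtain ⟨⟨q, hq⟩, -⟩ := h.chain hD hI hw σ hσP hσM hσ hm
  have e : σ⁻¹ m = σ m := by
    rw [Perm.inv_def, symm_apply_eq, hσ2]
  rw [e, rg_zpow h, h2, Sym2.map_mk, zpow_fix hy, h1] at hq
  exact ⟨q, hq⟩

omit [DecidableEq S] [Finite S] in
theorem one_adj {m : ℤ} (h : ω m ≠ ω (m + 2)) : One (rgZ ω m) (rgZ ω (m + 1)) := by
  refine ⟨ω (m + 1), ω m, ω (m + 2), Sym2.eq_swap, ?_, h⟩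
  unfold rgZ
  rw [show m + 1 + 1 = m + 2 by ring]

omit [DecidableEq S] [Finite S] in
theorem one_adj' {m : ℤ} (h : ω (m - 1) ≠ ω (m - 1 + 2)) : One (rgZ ω m) (rgZ ω (m + -1)) := by
  have h1 := (one_adj h).symm
  rwa [show m - 1 + 1 = m by ring, sub_eq_add_neg] at h1

omit [DecidableEq S] [Finite S] in
theorem one_far {m : ℤ} (h0 : ω m = ω (m + 2)) (h1 : ω (m + 2) = ω (m + 2 + 2)) (h : ω (m + 1) ≠ ω (m + 1 + 2)) :
    One (rgZ ω m) (rgZ ω (m + 3)) := by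
  refine ⟨ω m, ω (m + 1), ω (m + 1 + 2), rfl, ?_, h⟩
  unfold rgZ
  rw [show m + 3 + 1 = m + 2 + 2 by ring, ← h1, ← h0, show m + 1 + 2 = m + 3 by ring]
  exact Sym2.eq_swap

omit [DecidableEq S] [Finite S] in
theorem one_far' {m : ℤ} (h0 : ω (m - 3) = ω (m - 3 + 2)) (h1 : ω (m - 3 + 2) = ω (m - 3 + 2 + 2))
    (h : ω (m - 3 + 1) ≠ ω (m - 3 + 1 + 2)) : One (rgZ ω m) (rgZ ω (m + -3)) := by
  have h2 := (one_far h0 h1 h).symm
  rwa [show m - 3 + 3 = m by ring, sub_eq_add_neg] at h2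

end Loop

/-! ### Phases -/

/-- labels and strips in all phases -/
theorem phases (x : ℤ) :
    (x % 8 = 0 ∧ col x = 0 ∧ col (x + 1) = 1 ∧ bw x = true) ∨ (x % 8 = 1 ∧ col x = 1 ∧ col (x + 1) = 2 ∧ bw x = true) ∨
    (x % 8 = 2 ∧ col x = 2 ∧ col (x + 1) = 1 ∧ bw x = false) ∨ (x % 8 = 3 ∧ col x = 1 ∧ col (x + 1) = 2 ∧ bw x = true) ∨
    (x % 8 = 4 ∧ col x = 2 ∧ col (x + 1) = 1 ∧ bw x = false) ∨ (x % 8 = 5 ∧ col x = 1 ∧ col (x + 1) = 0 ∧ bw x = false) ∨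
    (x % 8 = 6 ∧ col x = 0 ∧ col (x + 1) = 1 ∧ bw x = true) ∨ (x % 8 = 7 ∧ col x = 1 ∧ col (x + 1) = 0 ∧ bw x = false) := by
  rcases mod8c x with h | h | h | h | h | h | h | h
  · have h' : (x + 1) % 8 = 1 := by omega
    simp [bw, col, h, h']
  · have h' : (x + 1) % 8 = 2 := by omega
    simp [bw, col, h, h']
  · have h' : (x + 1) % 8 = 3 := by omega
    simp [bw, col, h, h']
  · have h' : (x + 1) % 8 = 4 := by omega
    simp [bw, col, h, h']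
  · have h' : (x + 1) % 8 = 5 := by omega
    simp [bw, col, h, h']
  · have h' : (x + 1) % 8 = 6 := by omega
    simp [bw, col, h, h']
  · have h' : (x + 1) % 8 = 7 := by omega
    simp [bw, col, h, h']
  · have h' : (x + 1) % 8 = 0 := by omega
    simp [bw, col, h, h']

/-! ### The run -/

variable {Q : Type u} [Group Q] {B : Lb.{u, v} Q} {l : L3 → B.L} {L : AddSubgroup (ℤ × ℤ)}

/-- The situation. -/
structure Sit (c : Cov B l L) (D : Bd) (s0 κ0 κ1 ph c0 : ℤ) (w : ℕ) (hi : ∀ i, B.inv (l i) = l i)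
    [DecidableEq (Sd c D s0 κ0 κ1)] (θ : Perm (Sd c D s0 κ0 κ1)) (e C ℓ : ℕ)
    (Dd : ℕ → Set (Sd c D s0 κ0 κ1 × Bool → Sd c D s0 κ0 κ1 × Bool)) : Prop where
  run : RunD D s0 ph c0 w
  k0 : κ0 ≤ c0 + 1
  k1 : c0 + w + 2 ≤ κ1
  n2 : ¬ Commute (qq B l .a * qq B l .t) ((qq B l .a * qq B l .b) ^ 2)
  kap : ∀ s, (θ s).1.1 = s.1.1
  fix : ∀ s, c0 + 3 ≤ s.1.1 → s.1.1 ≤ c0 + w → θ s = s
  hp : ∀ {J : ℤ} {y : Q} (hW : Wl c D s0 κ0 κ1 J y),
    HPathC (wp hi hW) (fun m i => CloW (qq B l .a) (qq B l .b) (qq B l .t) (ph + m) i) θ (8 * e) (Mw D ph J)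
  cl : Closed Dd
  id : ∀ n, idd ∈ Dd n
  gad : ∀ {J : ℤ} {y : Q} (hW : Wl c D s0 κ0 κ1 J y), ∀ m ∈ Mw D ph J, ∀ i,
    CloW (qq B l .a) (qq B l .b) (qq B l .t) (ph + m) i →
    (∀ i', i' < i → ¬ CloW (qq B l .a) (qq B l .b) (qq B l .t) (ph + m) i') → i ≤ 8 * e →
      WC Dd C ℓ (rgZ (wp hi hW) m) (rgZ (wp hi hW) (m + i))

namespace Sit

variable {c : Cov B l L} {D : Bd} {s0 κ0 κ1 ph c0 : ℤ} {w : ℕ} {hi : ∀ i, B.inv (l i) = l i}
  [DecidableEq (Sd c D s0 κ0 κ1)] {θ : Perm (Sd c D s0 κ0 κ1)} {e C ℓ : ℕ}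
  {Dd : ℕ → Set (Sd c D s0 κ0 κ1 × Bool → Sd c D s0 κ0 κ1 × Bool)} (X : Sit c D s0 κ0 κ1 ph c0 w hi θ e C ℓ Dd)

include X

/-- Every strand is at a wall. -/
theorem wall (s : Sd c D s0 κ0 κ1) (m : ℤ) {J : ℤ} (hJ : s.1.1 = J + col (ph + m)) (h0 : c0 + 1 ≤ J) (h1 : J ≤ c0 + w) :
    ∃ y, ∃ hW : Wl c D s0 κ0 κ1 J y, wp hi hW m = s := by
  have hJ' : J = s.1.1 - D.cs (s0 + m) := by rw [X.run.cs, hJ]; ring
  subst hJ'
  have k0 := X.k0
  have k1 := X.k1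
  refine exists_wl hi s m (fun m' => ?_) (fun m' => ?_)
  · have := (X.run.cs_range m').1
    omega
  · have := (X.run.cs_range m').2
    omega

variable {J : ℤ} {y : Q} (hW : Wl c D s0 κ0 κ1 J y)

theorem lab (m : ℤ) : (wp hi hW m).1.1 = J + col (ph + m) := by rw [wp_κ, X.run.cs]

theorem kapz (q : ℤ) (s : Sd c D s0 κ0 κ1) : ((θ ^ q) s).1.1 = s.1.1 := by
  have hn : ∀ (n : ℕ) (s : Sd c D s0 κ0 κ1), ((θ ^ n) s).1.1 = s.1.1 := by
    intro n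
    induction n with
    | zero => intro s; rfl
    | succ n ih =>
      intro s
      rw [pow_succ', Perm.mul_apply, X.kap, ih]
  cases q with
  | ofNat n => rw [Int.ofNat_eq_natCast, zpow_natCast]; exact hn n s
  | negSucc n =>
    have h1 := hn (n + 1) ((θ ^ Int.negSucc n) s)
    rw [zpow_negSucc, ← Perm.mul_apply, mul_inv_cancel, Perm.one_apply] at h1
    rw [zpow_negSucc]
    exact h1.symm

/-- The strip of a node. -/
theorem strip (m : ℤ) : D.sp (J + D.cs (s0 + m)) (s0 + m) = if bw (ph + m) = true then J - 1 else J := by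
  unfold Bd.sp
  rw [X.run.b]
  split_ifs <;> ring

theorem cs2 {m : ℤ} (hx : col (ph + m) = col (ph + m + 2)) : D.cs (s0 + m) = D.cs (s0 + m + 2) := by
  rw [add_assoc, X.run.cs, X.run.cs, ← add_assoc]
  exact hx

/-- Different strands at the two sides of a node. -/
theorem ne {m : ℤ} (hx : col (ph + m) = col (ph + m + 2))
    (hn : ¬ Commute (qq B l .a * qq B l .t) ((qq B l .a * qq B l .b) ^ D.hw (if bw (ph + m) = true then J - 1 else J))) :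
    wp hi hW m ≠ wp hi hW (m + 2) := by
  refine H66.wp_ne hi hW (X.cs2 hx) ?_ hn
  rw [X.strip]

/-- The same strand at the two sides of a node. -/
theorem eq {m : ℤ} (hx : col (ph + m) = col (ph + m + 2))
    (hn : Commute (qq B l .a * qq B l .t) ((qq B l .a * qq B l .b) ^ D.hw (if bw (ph + m) = true then J - 1 else J))) :
    wp hi hW m = wp hi hW (m + 2) := by
  refine H66.wp_eq2 hi hW (X.cs2 hx) ?_ hn
  rw [X.strip]

theorem ne_lab {m : ℤ} (hx : col (ph + m) ≠ col (ph + m + 2)) : wp hi hW m ≠ wp hi hW (m + 2) := by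
  intro h
  have h1 : (wp hi hW m).1.1 = (wp hi hW (m + 2)).1.1 := by rw [h]
  rw [X.lab, X.lab, ← add_assoc] at h1
  exact hx (by omega)

omit X in
theorem col2 (x : ℤ) :
    ((x % 8 = 1 ∨ x % 8 = 2 ∨ x % 8 = 3 ∨ x % 8 = 5 ∨ x % 8 = 6 ∨ x % 8 = 7) → col x = col (x + 2)) ∧
    ((x % 8 = 0 ∨ x % 8 = 4) → col x ≠ col (x + 2)) := by
  rcases mod8c x with h | h | h | h | h | h | h | h
  · have h' : (x + 2) % 8 = 2 := by omega
    simp [col, h, h']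
  · have h' : (x + 2) % 8 = 3 := by omega
    simp [col, h, h']
  · have h' : (x + 2) % 8 = 4 := by omega
    simp [col, h, h']
  · have h' : (x + 2) % 8 = 5 := by omega
    simp [col, h, h']
  · have h' : (x + 2) % 8 = 6 := by omega
    simp [col, h, h']
  · have h' : (x + 2) % 8 = 7 := by omega
    simp [col, h, h']
  · have h' : (x + 2) % 8 = 0 := by omega
    simp [col, h, h']
  · have h' : (x + 2) % 8 = 1 := by omega
    simp [col, h, h']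

/-- the node of phase `x + 1`, `x = 2, 6` or `x = 1, 3`: the strip `J - 1`, `J` -/
theorem neU {m : ℤ} (hx : (ph + m) % 8 = 1 ∨ (ph + m) % 8 = 3 ∨ (ph + m) % 8 = 6)
    (hn : ¬ Commute (qq B l .a * qq B l .t) ((qq B l .a * qq B l .b) ^ D.hw (J - 1))) :
    wp hi hW m ≠ wp hi hW (m + 2) := by
  refine X.ne hW ((col2 _).1 (by omega)) ?_
  have hb : bw (ph + m) = true := by
    unfold bw
    rcases hx with h | h | h <;> simp [h]
  rw [if_pos hb]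
  exact hn

theorem neV {m : ℤ} (hx : (ph + m) % 8 = 2 ∨ (ph + m) % 8 = 5 ∨ (ph + m) % 8 = 7)
    (hn : ¬ Commute (qq B l .a * qq B l .t) ((qq B l .a * qq B l .b) ^ D.hw J)) :
    wp hi hW m ≠ wp hi hW (m + 2) := by
  refine X.ne hW ((col2 _).1 (by omega)) ?_
  have hb : ¬ bw (ph + m) = true := by
    unfold bw
    rcases hx with h | h | h <;> simp [h]
  rw [if_neg hb]
  exact hn

theorem eqU {m : ℤ} (hx : (ph + m) % 8 = 1 ∨ (ph + m) % 8 = 3 ∨ (ph + m) % 8 = 6)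
    (hn : Commute (qq B l .a * qq B l .t) ((qq B l .a * qq B l .b) ^ D.hw (J - 1))) :
    wp hi hW m = wp hi hW (m + 2) := by
  refine X.eq hW ((col2 _).1 (by omega)) ?_
  have hb : bw (ph + m) = true := by
    unfold bw
    rcases hx with h | h | h <;> simp [h]
  rw [if_pos hb]
  exact hn

theorem eqV {m : ℤ} (hx : (ph + m) % 8 = 2 ∨ (ph + m) % 8 = 5 ∨ (ph + m) % 8 = 7)
    (hn : Commute (qq B l .a * qq B l .t) ((qq B l .a * qq B l .b) ^ D.hw J)) :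
    wp hi hW m = wp hi hW (m + 2) := by
  refine X.eq hW ((col2 _).1 (by omega)) ?_
  have hb : ¬ bw (ph + m) = true := by
    unfold bw
    rcases hx with h | h | h <;> simp [h]
  rw [if_neg hb]
  exact hn

theorem neW {m : ℤ} (hx : (ph + m) % 8 = 0 ∨ (ph + m) % 8 = 4) : wp hi hW m ≠ wp hi hW (m + 2) :=
  X.ne_lab hW ((col2 _).2 hx)

/-- (0 1)(2 3)(4 5)(6 7) -/
theorem oneA (h0 : ¬ Commute (qq B l .a * qq B l .t) ((qq B l .a * qq B l .b) ^ D.hw (J - 1)))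
    (h1 : ¬ Commute (qq B l .a * qq B l .t) ((qq B l .a * qq B l .b) ^ D.hw J)) (m : ℤ) :
    One (rgZ (wp hi hW) m) (rgZ (wp hi hW) (sg tabA ph m)) := by
  rw [sg_apply]
  have hev : ∀ m : ℤ, (ph + m) % 8 = 0 ∨ (ph + m) % 8 = 2 ∨ (ph + m) % 8 = 4 ∨ (ph + m) % 8 = 6 →
      wp hi hW m ≠ wp hi hW (m + 2) := by
    intro m h
    rcases h with h | h | h | h
    · exact X.neW hW (Or.inl h)
    · exact X.neV hW (Or.inl h) h1
    · exact X.neW hW (Or.inr h)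
    · exact X.neU hW (Or.inr (Or.inr h)) h0
  by_cases hm : (ph + m) % 8 = 0 ∨ (ph + m) % 8 = 2 ∨ (ph + m) % 8 = 4 ∨ (ph + m) % 8 = 6
  · rw [dA, if_pos hm]
    exact one_adj (hev m hm)
  · rw [dA, if_neg hm]
    exact one_adj' (hev (m - 1) (by omega))

/-- (1 2)(3 4)(5 6)(7 8) -/
theorem oneB (h0 : ¬ Commute (qq B l .a * qq B l .t) ((qq B l .a * qq B l .b) ^ D.hw (J - 1)))
    (h1 : ¬ Commute (qq B l .a * qq B l .t) ((qq B l .a * qq B l .b) ^ D.hw J)) (m : ℤ) :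
    One (rgZ (wp hi hW) m) (rgZ (wp hi hW) (sg tabB ph m)) := by
  rw [sg_apply]
  have hod : ∀ m : ℤ, (ph + m) % 8 = 1 ∨ (ph + m) % 8 = 3 ∨ (ph + m) % 8 = 5 ∨ (ph + m) % 8 = 7 →
      wp hi hW m ≠ wp hi hW (m + 2) := by
    intro m h
    rcases h with h | h | h | h
    · exact X.neU hW (Or.inl h) h0
    · exact X.neU hW (Or.inr (Or.inl h)) h0
    · exact X.neV hW (Or.inr (Or.inl h)) h1
    · exact X.neV hW (Or.inr (Or.inr h)) h1
  by_cases hm : (ph + m) % 8 = 1 ∨ (ph + m) % 8 = 3 ∨ (ph + m) % 8 = 5 ∨ (ph + m) % 8 = 7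
  · rw [dB, if_pos hm]
    exact one_adj (hod m hm)
  · rw [dB, if_neg hm]
    exact one_adj' (hod (m - 1) (by omega))

/-- (1 4)(2 3) -/
theorem oneC (h0 : Commute (qq B l .a * qq B l .t) ((qq B l .a * qq B l .b) ^ D.hw (J - 1)))
    (h1 : ¬ Commute (qq B l .a * qq B l .t) ((qq B l .a * qq B l .b) ^ D.hw J)) {m : ℤ}
    (hm : (ph + m) % 8 = 1 ∨ (ph + m) % 8 = 2 ∨ (ph + m) % 8 = 3 ∨ (ph + m) % 8 = 4) :
    One (rgZ (wp hi hW) m) (rgZ (wp hi hW) (sg tabC ph m)) := by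
  rw [sg_apply]
  rcases hm with h | h | h | h
  · rw [h, show dC 1 = 3 by decide]
    exact one_far (X.eqU hW (by omega) h0) (X.eqU hW (by omega) h0) (X.neV hW (by omega) h1)
  · rw [h, show dC 2 = 1 by decide]
    exact one_adj (X.neV hW (by omega) h1)
  · rw [h, show dC 3 = -1 by decide]
    exact one_adj' (X.neV hW (by omega) h1)
  · rw [h, show dC 4 = -3 by decide]
    exact one_far' (X.eqU hW (by omega) h0) (X.eqU hW (by omega) h0) (X.neV hW (by omega) h1)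

/-- (5 8)(6 7) -/
theorem oneC' (h0 : ¬ Commute (qq B l .a * qq B l .t) ((qq B l .a * qq B l .b) ^ D.hw (J - 1)))
    (h1 : Commute (qq B l .a * qq B l .t) ((qq B l .a * qq B l .b) ^ D.hw J)) {m : ℤ}
    (hm : (ph + m) % 8 = 5 ∨ (ph + m) % 8 = 6 ∨ (ph + m) % 8 = 7 ∨ (ph + m) % 8 = 0) :
    One (rgZ (wp hi hW) m) (rgZ (wp hi hW) (sg tabC ph m)) := by
  rw [sg_apply]
  rcases hm with h | h | h | h
  · rw [h, show dC 5 = 3 by decide]
    exact one_far (X.eqV hW (by omega) h1) (X.eqV hW (by omega) h1) (X.neU hW (by omega) h0)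
  · rw [h, show dC 6 = 1 by decide]
    exact one_adj (X.neU hW (by omega) h0)
  · rw [h, show dC 7 = -1 by decide]
    exact one_adj' (X.neU hW (by omega) h0)
  · rw [h, show dC 0 = -3 by decide]
    exact one_far' (X.eqV hW (by omega) h1) (X.eqV hW (by omega) h1) (X.neU hW (by omega) h0)

omit X in
/-- The classes of the phases. -/
theorem cls (x : ℤ) : (wd J (x + dB (x % 8)) = wd J x ∧ wd J (x + dC (x % 8)) = wd J x) ∧
    ((x % 8 = 1 ∨ x % 8 = 2 ∨ x % 8 = 3 ∨ x % 8 = 4) →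
      ((x + dB (x % 8)) % 8 = 1 ∨ (x + dB (x % 8)) % 8 = 2 ∨ (x + dB (x % 8)) % 8 = 3 ∨ (x + dB (x % 8)) % 8 = 4) ∧
      ((x + dC (x % 8)) % 8 = 1 ∨ (x + dC (x % 8)) % 8 = 2 ∨ (x + dC (x % 8)) % 8 = 3 ∨ (x + dC (x % 8)) % 8 = 4)) ∧
    ((x % 8 = 5 ∨ x % 8 = 6 ∨ x % 8 = 7 ∨ x % 8 = 0) →
      ((x + dB (x % 8)) % 8 = 5 ∨ (x + dB (x % 8)) % 8 = 6 ∨ (x + dB (x % 8)) % 8 = 7 ∨ (x + dB (x % 8)) % 8 = 0) ∧
      ((x + dC (x % 8)) % 8 = 5 ∨ (x + dC (x % 8)) % 8 = 6 ∨ (x + dC (x % 8)) % 8 = 7 ∨ (x + dC (x % 8)) % 8 = 0)) := by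
  have hw1 : ∀ z, wd J z = if z % 8 = 1 ∨ z % 8 = 2 ∨ z % 8 = 3 ∨ z % 8 = 4 then J else J - 1 := fun z => rfl
  rcases mod8c x with h | h | h | h | h | h | h | h
  · have e1 : (x + -1) % 8 = 7 := by omega
    have e2 : (x + -3) % 8 = 5 := by omega
    rw [h, show dB 0 = -1 by decide, show dC 0 = -3 by decide]
    simp [hw1, h, e1, e2]
  · have e1 : (x + 1) % 8 = 2 := by omega
    have e2 : (x + 3) % 8 = 4 := by omega
    rw [h, show dB 1 = 1 by decide, show dC 1 = 3 by decide]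
    simp [hw1, h, e1, e2]
  · have e1 : (x + -1) % 8 = 1 := by omega
    have e2 : (x + 1) % 8 = 3 := by omega
    rw [h, show dB 2 = -1 by decide, show dC 2 = 1 by decide]
    simp [hw1, h, e1, e2]
  · have e1 : (x + 1) % 8 = 4 := by omega
    have e2 : (x + -1) % 8 = 2 := by omega
    rw [h, show dB 3 = 1 by decide, show dC 3 = -1 by decide]
    simp [hw1, h, e1, e2]
  · have e1 : (x + -1) % 8 = 3 := by omega
    have e2 : (x + -3) % 8 = 1 := by omega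
    rw [h, show dB 4 = -1 by decide, show dC 4 = -3 by decide]
    simp [hw1, h, e1, e2]
  · have e1 : (x + 1) % 8 = 6 := by omega
    have e2 : (x + 3) % 8 = 0 := by omega
    rw [h, show dB 5 = 1 by decide, show dC 5 = 3 by decide]
    simp [hw1, h, e1, e2]
  · have e1 : (x + -1) % 8 = 5 := by omega
    have e2 : (x + 1) % 8 = 7 := by omega
    rw [h, show dB 6 = -1 by decide, show dC 6 = 1 by decide]
    simp [hw1, h, e1, e2]
  · have e1 : (x + 1) % 8 = 0 := by omega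
    have e2 : (x + -1) % 8 = 6 := by omega
    rw [h, show dB 7 = 1 by decide, show dC 7 = -1 by decide]
    simp [hw1, h, e1, e2]

omit X in
theorem memB (m : ℤ) : sg tabB ph m ∈ Mw D ph J ↔ m ∈ Mw D ph J := by
  unfold Mw
  rw [Set.mem_ofPred_eq, Set.mem_ofPred_eq, sg_apply, ← add_assoc, (cls (ph + m)).1.1]

omit X in
theorem memC (m : ℤ) : sg tabC ph m ∈ Mw D ph J ↔ m ∈ Mw D ph J := by
  unfold Mw
  rw [Set.mem_ofPred_eq, Set.mem_ofPred_eq, sg_apply, ← add_assoc, (cls (ph + m)).1.2]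

/-- Middle walls: all levels are good. -/
theorem mid (h0 : c0 + 2 ≤ J) (h1 : J ≤ c0 + w - 1) : D.hw (J - 1) = 2 ∧ D.hw J = 2 ∧ ∀ m, m ∈ Mw D ph J := by
  have e0 : D.hw (J - 1) = 2 := X.run.hM _ (by omega) (by omega)
  have e1 : D.hw J = 2 := X.run.hM _ (by omega) (by omega)
  refine ⟨e0, e1, fun m => ?_⟩
  show D.hw (wd J (ph + m)) = 2
  rcases wd_cases J (ph + m) with h | h
  · rw [h, e1]
  · rw [h, e0]

variable [Finite Q]

/-- THE TURN PAIRS on both sides of a strand. -/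
theorem turn {y : Sd c D s0 κ0 κ1} (h0 : c0 + 3 ≤ y.1.1) (h1 : y.1.1 ≤ c0 + w) {ε : ℤ} (hε : ε = 1 ∨ ε = -1) :
    ∃ r r' : Sd c D s0 κ0 κ1, r.1.1 = y.1.1 + ε ∧ r'.1.1 = y.1.1 + ε ∧
      WC Dd (8 * e * C) (8 * e * ℓ) s(y, r) s(y, r') := by
  have key : ∀ x : ℤ, (x = 3 ∧ ε = 1) ∨ (x = 7 ∧ ε = -1) → ∃ r r' : Sd c D s0 κ0 κ1, r.1.1 = y.1.1 + ε ∧
      r'.1.1 = y.1.1 + ε ∧ WC Dd (8 * e * C) (8 * e * ℓ) s(y, r) s(y, r') := by
    intro x hx
    have hm : ph + (x - ph) = x := by ring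
    have hcx : col x = 1 ∧ col (x + 1) = 1 + ε ∧ col (x - 1) = 1 + ε := by
      rcases hx with ⟨rfl, rfl⟩ | ⟨rfl, rfl⟩ <;> decide
    obtain ⟨y', hW, hy⟩ := X.wall y (x - ph) (J := y.1.1 - 1) (by rw [hm, hcx.1]; ring) (by omega) (by omega)
    obtain ⟨e0, e1, hM⟩ := X.mid (J := y.1.1 - 1) (by omega) (by omega)
    have n0 : ¬ Commute (qq B l .a * qq B l .t) ((qq B l .a * qq B l .b) ^ D.hw (y.1.1 - 1 - 1)) := by
      rw [e0]; exact X.n2
    have n1 : ¬ Commute (qq B l .a * qq B l .t) ((qq B l .a * qq B l .b) ^ D.hw (y.1.1 - 1)) := by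
      rw [e1]; exact X.n2
    have hs : sg tabA ph (x - ph) = x - ph - 1 := by
      rw [sg_apply, hm]
      rcases hx with ⟨rfl, -⟩ | ⟨rfl, -⟩
      · rw [show dA (3 % 8) = -1 by decide]; ring
      · rw [show dA (7 % 8) = -1 by decide]; ring
    obtain ⟨q, hq⟩ := turn_at (X.hp hW) X.cl X.id (C := C) (ℓ := ℓ) (X.gad hW) (sg tabA ph)
      (fun m => sg_add tabA ph m e) (fun m => ⟨fun _ => hM m, fun _ => hM _⟩) (fun m _ => X.oneA hW n0 n1 m)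
      (sg_sg tabA ph) (hM (x - ph)) (y := y) (r := wp hi hW (x - ph + 1)) (z := wp hi hW (x - ph - 1))
      (by unfold rgZ; rw [hy])
      (by rw [hs]; unfold rgZ; rw [sub_add_cancel, hy]; exact Sym2.eq_swap) (X.fix y h0 h1)
    refine ⟨_, _, ?_, ?_, hq⟩
    · rw [X.lab, show ph + (x - ph + 1) = x + 1 by ring, hcx.2.1]
      ring
    · rw [X.kapz, X.lab, show ph + (x - ph - 1) = x - 1 by ring, hcx.2.2]
      ring
  rcases hε with h | h
  · exact key 3 (Or.inl ⟨rfl, h⟩)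
  · exact key 7 (Or.inr ⟨rfl, h⟩)

/-- THE LOOP of a rung, if the partner rung contains a strand which does not drift. -/
theorem loopS {σ : Perm ℤ} (hσP : ∀ m : ℤ, σ (m + ((8 * e : ℕ) : ℤ)) = σ m + ((8 * e : ℕ) : ℤ))
    (hσM : ∀ m, σ m ∈ Mw D ph J ↔ m ∈ Mw D ph J)
    (hσ : ∀ m ∈ Mw D ph J, One (rgZ (wp hi hW) m) (rgZ (wp hi hW) (σ m))) (hσ2 : ∀ m, σ (σ m) = m) {m : ℤ}
    (hm : m ∈ Mw D ph J)
    (g0 : c0 + 2 ≤ J + col (ph + σ m)) (g1 : J + col (ph + σ m) ≤ c0 + w + 1)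
    (g2 : c0 + 2 ≤ J + col (ph + σ m + 1)) (g3 : J + col (ph + σ m + 1) ≤ c0 + w + 1) :
    WC Dd (3 * (8 * e * C)) (3 * (8 * e * ℓ)) (rgZ (wp hi hW) m) (rgZ (wp hi hW) m) := by
  have main : ∀ y z : Sd c D s0 κ0 κ1, rgZ (wp hi hW) (σ m) = s(y, z) → c0 + 3 ≤ y.1.1 → y.1.1 ≤ c0 + w →
      (z.1.1 = y.1.1 + 1 ∨ z.1.1 = y.1.1 - 1) →
      WC Dd (3 * (8 * e * C)) (3 * (8 * e * ℓ)) (rgZ (wp hi hW) m) (rgZ (wp hi hW) m) := by
    intro y z h2 h3 h4 h5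
    obtain ⟨ε, hε, hz⟩ : ∃ ε : ℤ, (ε = 1 ∨ ε = -1) ∧ z.1.1 ≠ y.1.1 + ε := by
      rcases h5 with h | h
      · exact ⟨-1, Or.inr rfl, by omega⟩
      · exact ⟨1, Or.inl rfl, by omega⟩
    obtain ⟨r, r', k1, k2, ht⟩ := X.turn h3 h4 hε
    have hlab : ∀ (q : ℤ) (r : Sd c D s0 κ0 κ1), r.1.1 = y.1.1 + ε → (θ ^ q) z ≠ r := by
      intro q r hr h
      apply hz
      rw [← hr, ← h, X.kapz]
    have h6 := loop_at (X.hp hW) X.cl X.id (C := C) (ℓ := ℓ) (X.gad hW) σ hσP hσM hσ hσ2 hm h2 (X.fix y h3 h4) ht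
      (fun q => hlab q r k1) (fun q => hlab q r' k2)
    have e1 : 8 * e * C + 8 * e * C + 8 * e * C = 3 * (8 * e * C) := by ring
    have e2 : 8 * e * ℓ + 8 * e * ℓ + 8 * e * ℓ = 3 * (8 * e * ℓ) := by ring
    rwa [e1, e2] at h6
  have l0 := X.lab hW (σ m)
  have l1 := X.lab hW (σ m + 1)
  rw [← add_assoc] at l1
  have w3 := X.run.w3
  have hst : col (ph + σ m + 1) = col (ph + σ m) + 1 ∨ col (ph + σ m + 1) = col (ph + σ m) - 1 := by
    rw [col_succ]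
    split_ifs
    · exact Or.inl rfl
    · exact Or.inr (by ring)
  by_cases h : c0 + 3 ≤ J + col (ph + σ m) ∧ J + col (ph + σ m) ≤ c0 + w
  · refine main _ _ rfl (by omega) (by omega) ?_
    rw [l0, l1]
    omega
  · refine main _ _ Sym2.eq_swap (by omega) (by omega) ?_
    rw [l0, l1]
    omega

/-- THE LOOP of a rung between the labels `c0 + 2 .. c0 + w + 1`. -/
theorem loopR {m : ℤ} (f0 : c0 + 2 ≤ J + col (ph + m)) (f1 : J + col (ph + m) ≤ c0 + w + 1)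
    (f2 : c0 + 2 ≤ J + col (ph + m + 1)) (f3 : J + col (ph + m + 1) ≤ c0 + w + 1) :
    WC Dd (3 * (8 * e * C)) (3 * (8 * e * ℓ)) (rgZ (wp hi hW) m) (rgZ (wp hi hW) m) := by
  have w3 := X.run.w3
  have hcl : ∀ x : ℤ, (x % 8 = 1 ∨ x % 8 = 2 ∨ x % 8 = 3 ∨ x % 8 = 4) →
      1 ≤ col x ∧ col x ≤ 2 ∧ 1 ≤ col (x + 1) ∧ col (x + 1) ≤ 2 ∧ col x + col (x + 1) = 3 := by
    intro x hx
    rcases phases x with h | h | h | h | h | h | h | h <;> omega
  have hcr : ∀ x : ℤ, (x % 8 = 5 ∨ x % 8 = 6 ∨ x % 8 = 7 ∨ x % 8 = 0) →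
      0 ≤ col x ∧ col x ≤ 1 ∧ 0 ≤ col (x + 1) ∧ col (x + 1) ≤ 1 ∧ col x + col (x + 1) = 1 := by
    intro x hx
    rcases phases x with h | h | h | h | h | h | h | h <;> omega
  have hca : ∀ x : ℤ, 0 ≤ col x ∧ col x ≤ 2 := fun x => ⟨col_nonneg x, col_le x⟩
  by_cases hmid : c0 + 2 ≤ J ∧ J ≤ c0 + w - 1
  · obtain ⟨e0, e1, hM⟩ := X.mid hmid.1 hmid.2
    have n0 : ¬ Commute (qq B l .a * qq B l .t) ((qq B l .a * qq B l .b) ^ D.hw (J - 1)) := by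
      rw [e0]; exact X.n2
    have n1 : ¬ Commute (qq B l .a * qq B l .t) ((qq B l .a * qq B l .b) ^ D.hw J) := by
      rw [e1]; exact X.n2
    have a1 := hca (ph + sg tabA ph m)
    have a2 := hca (ph + sg tabA ph m + 1)
    exact X.loopS hW (fun m => sg_add tabA ph m e) (fun m => ⟨fun _ => hM m, fun _ => hM _⟩)
      (fun m _ => X.oneA hW n0 n1 m) (sg_sg tabA ph) (hM m) (by omega) (by omega) (by omega) (by omega)
  · have hx : ((ph + m) % 8 = 1 ∨ (ph + m) % 8 = 2 ∨ (ph + m) % 8 = 3 ∨ (ph + m) % 8 = 4) ∨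
        ((ph + m) % 8 = 5 ∨ (ph + m) % 8 = 6 ∨ (ph + m) % 8 = 7 ∨ (ph + m) % 8 = 0) := by omega
    have eB : ph + sg tabB ph m = ph + m + dB ((ph + m) % 8) := by rw [sg_apply]; ring
    have eC : ph + sg tabC ph m = ph + m + dC ((ph + m) % 8) := by rw [sg_apply]; ring
    rcases hx with hx | hx
    · -- the first wall
      have b1 := hcl _ hx
      have hJ : J = c0 + 1 := by omega
      have e1 : D.hw J = 2 := X.run.hM _ (by omega) (by omega)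
      have n1 : ¬ Commute (qq B l .a * qq B l .t) ((qq B l .a * qq B l .b) ^ D.hw J) := by
        rw [e1]; exact X.n2
      have hwd : wd J (ph + m) = J := if_pos hx
      have hm : m ∈ Mw D ph J := by
        show D.hw (wd J (ph + m)) = 2
        rw [hwd, e1]
      by_cases n0 : Commute (qq B l .a * qq B l .t) ((qq B l .a * qq B l .b) ^ D.hw (J - 1))
      · have b2 := hcl _ ((cls (J := J) (ph + m)).2.1 hx).2
        rw [← eC] at b2
        refine X.loopS hW (fun m => sg_add tabC ph m e) memC (fun m' hm' => X.oneC hW n0 n1 ?_) (sg_sg tabC ph) hm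
          (by omega) (by omega) (by omega) (by omega)
        by_contra hne
        have h2 : wd J (ph + m') = J - 1 := if_neg hne
        have h3 : D.hw (wd J (ph + m')) = 2 := hm'
        rw [h2] at h3
        rw [h3] at n0
        exact X.n2 n0
      · have b2 := hcl _ ((cls (J := J) (ph + m)).2.1 hx).1
        rw [← eB] at b2
        exact X.loopS hW (fun m => sg_add tabB ph m e) memB (fun m' _ => X.oneB hW n0 n1 m') (sg_sg tabB ph) hm
          (by omega) (by omega) (by omega) (by omega)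
    · -- the last wall
      have b1 := hcr _ hx
      have hJ : J = c0 + w := by omega
      have e0 : D.hw (J - 1) = 2 := X.run.hM _ (by omega) (by omega)
      have n0 : ¬ Commute (qq B l .a * qq B l .t) ((qq B l .a * qq B l .b) ^ D.hw (J - 1)) := by
        rw [e0]; exact X.n2
      have hwd : wd J (ph + m) = J - 1 := if_neg (by omega)
      have hm : m ∈ Mw D ph J := by
        show D.hw (wd J (ph + m)) = 2
        rw [hwd, e0]
      by_cases n1 : Commute (qq B l .a * qq B l .t) ((qq B l .a * qq B l .b) ^ D.hw J)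
      · have b2 := hcr _ ((cls (J := J) (ph + m)).2.2 hx).2
        rw [← eC] at b2
        refine X.loopS hW (fun m => sg_add tabC ph m e) memC (fun m' hm' => X.oneC' hW n0 n1 ?_) (sg_sg tabC ph) hm
          (by omega) (by omega) (by omega) (by omega)
        by_contra hne
        have h2 : wd J (ph + m') = J := if_pos (by omega)
        have h3 : D.hw (wd J (ph + m')) = 2 := hm'
        rw [h2] at h3
        rw [h3] at n1
        exact X.n2 n1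
      · have b2 := hcr _ ((cls (J := J) (ph + m)).2.2 hx).1
        rw [← eB] at b2
        exact X.loopS hW (fun m => sg_add tabB ph m e) memB (fun m' _ => X.oneB hW n0 n1 m') (sg_sg tabB ph) hm
          (by omega) (by omega) (by omega) (by omega)

/-- THE LOOPS of all edges of the rung graph. -/
theorem loop {s s' : Sd c D s0 κ0 κ1} (h : (Lam c D s0 κ0 κ1 (c0 + 2) (c0 + w + 1)).Adj s s') :
    WC Dd (3 * (8 * e * C)) (3 * (8 * e * ℓ)) s(s, s') s(s, s') := by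
  have key : ∀ (m : ℤ) (s s' : Sd c D s0 κ0 κ1), c0 + 2 ≤ s.1.1 → s.1.1 ≤ c0 + w + 1 → c0 + 2 ≤ s'.1.1 →
      s'.1.1 ≤ c0 + w + 1 → Rung m s s' → WC Dd (3 * (8 * e * C)) (3 * (8 * e * ℓ)) s(s, s') s(s, s') := by
    intro m s s' a0 a1 a2 a3 hr
    have w3 := X.run.w3
    have hcs : col (ph + m + 1) = col (ph + m) + df (D.b (s0 + m)) := by
      have h1 := cs_succ D (s0 + m)
      rw [add_assoc, X.run.cs, X.run.cs, ← add_assoc] at h1
      exact h1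
    have hs' : s'.1.1 = s.1.1 - col (ph + m) + col (ph + m + 1) := by rw [hr.1, hcs]; ring
    have hJ : c0 + 1 ≤ s.1.1 - col (ph + m) ∧ s.1.1 - col (ph + m) ≤ c0 + w := by
      rcases phases (ph + m) with h | h | h | h | h | h | h | h <;> omega
    obtain ⟨y, hW, hy⟩ := X.wall s m (J := s.1.1 - col (ph + m)) (by ring) hJ.1 hJ.2
    have hy' : wp hi hW (m + 1) = s' := by
      have h1 := wp_rung hi hW m
      rw [hy] at h1
      exact h1.inj_right hr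
    have h2 := X.loopR hW (m := m) (by omega) (by omega) (by omega) (by omega)
    unfold rgZ at h2
    rwa [hy, hy'] at h2
  obtain ⟨⟨a0, a1⟩, ⟨a2, a3⟩, m, hr | hr⟩ := h
  · exact key m s s' a0 a1 a2 a3 hr
  · rw [Sym2.eq_swap]
    exact key m s' s a2 a3 a0 a1 hr

end Sit

/-- P4: LOOPS FOR ALL EDGES OF THE RUNG GRAPH OF A RUN. -/
theorem loops {c : Cov B l L} {D : Bd} {s0 κ0 κ1 ph c0 : ℤ} {w : ℕ} [Finite Q] (N : Subgroup Q) [N.Normal]
    (hN : IsCyclic N) (hco : (Nat.card N).Coprime N.index) {e : ℕ} (he : N.index ∣ e) (he0 : 0 < e)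
    (hi : ∀ i, B.inv (l i) = l i) (H : RunD D s0 ph c0 w) (k0 : κ0 ≤ c0 + 1) (k1 : c0 + w + 2 ≤ κ1)
    (n2 : ¬ Commute (qq B l .a * qq B l .t) ((qq B l .a * qq B l .b) ^ 2)) [DecidableEq (Sd c D s0 κ0 κ1)]
    {Dd : ℕ → Set (Sd c D s0 κ0 κ1 × Bool → Sd c D s0 κ0 κ1 × Bool)} (hD : Closed Dd) (hI : ∀ n, idd ∈ Dd n) {C ℓ : ℕ}
    (gad : ∀ {J : ℤ} {y : Q} (hW : Wl c D s0 κ0 κ1 J y), ∀ m ∈ Mw D ph J, ∀ i,
      CloW (qq B l .a) (qq B l .b) (qq B l .t) (ph + m) i →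
      (∀ i', i' < i → ¬ CloW (qq B l .a) (qq B l .b) (qq B l .t) (ph + m) i') → i ≤ 8 * e →
        WC Dd C ℓ (rgZ (wp hi hW) m) (rgZ (wp hi hW) (m + i)))
    {s s' : Sd c D s0 κ0 κ1} (h : (Lam c D s0 κ0 κ1 (c0 + 2) (c0 + w + 1)).Adj s s') :
    WC Dd (3 * (8 * e * C)) (3 * (8 * e * ℓ)) s(s, s') s(s, s') := by
  obtain ⟨θ, h1, h2, h3⟩ := HP.exists_drift N hN hco he he0 hi c κ0 κ1 H
  have X : Sit c D s0 κ0 κ1 ph c0 w hi θ e C ℓ Dd := ⟨H, k0, k1, n2, h1, h2, h3, hD, hI, gad⟩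
  exact X.loop h

end Pool.Agent.Lib.MP_688fd0_co.SQ5.H87.P4
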