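import Pool.Agent.Lib.MP_688fd0_co.SQ5.H87.ClsT
import Pool.Agent.Lib.MP_688fd0_co.SQ5.NA.Iface

/-!
CLSA: the classes of the letters of a local world.
-/

set_option autoImplicit false

namespace Pool.Agent.Lib.MP_688fd0_co.SQ5.NA

open Pool.Agent.Lib.MP_688fd0_co.OSF Pool.Agent.Lib.MP_688fd0_co.SQ2 Pool.Agent.Lib.MP_688fd0_co.SQ3
open Pool.Agent.Lib.MP_688fd0_co.SQ4 Pool.Agent.Lib.MP_688fd0_co.SQ5.N

section

variable {Q : Type} [Group Q] {B : Lb.{0, 0} Q} {a b : B.L} {σ : Type} {t : σ → B.L} {eps : Q →* ℤˣ}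
  {D : Subgroup Q} {u : Q} {i : σ → ℕ} {e k : ℕ}

theorem HypS.eLtU (H : HypS B a b t eps D u i e k) : e < orderOf u := by
  have h7 := H.big
  have h8 : 1 ≤ 100 * k ^ 3 := Nat.mul_pos (by norm_num) (Nat.pow_pos H.kpos)
  have h9 : e ≤ e ^ 3 := Nat.le_self_pow (by norm_num) _
  have h10 := Nat.mul_le_mul h8 h9
  omega

/-- The world of one letter. -/
theorem HypS.toT (H : HypS B a b t eps D u i e k) (s : σ) : HypT B a b (t s) eps D u e (i s) k where
  fin := H.fin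
  kpos := H.kpos
  nD := H.nD
  leD := H.leD
  card := H.card
  eu := H.eu
  ea := H.ea
  eb := H.eb
  et := H.et s
  ia := H.ia
  ipos := H.ipos s
  ilt := H.ilt s
  cen := H.cen
  ker := H.ker
  dis _ h := H.dis h
  elt := H.eLtU
  mw := H.mw
  mp := H.mp s
  inv := H.turn

end

/-- CLSA. -/
theorem clsA : ClsAS := by
  intro Q _ _ B a b σ t eps D u i e k H _ _
  have h := fun s => clsT (H.toT s)
  choose X h1 h2 h3 h4 h5 h6 h7 using h
  exact ⟨X, ⟨h1, h2, h3, h5, h6, fun s {F} _ V o hV ho => h7 s V o hV ho⟩⟩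

end Pool.Agent.Lib.MP_688fd0_co.SQ5.NA
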