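import Pool.Agent.Lib.MP_688fd0_co.SQ5.H87.TGN
import Pool.Agent.Lib.MP_688fd0_co.SQ4.H98.FamB

/-!
Classes of rungs from a time: the rungs are the pairs of a time modulo `Y` and a strand which is active at that time. The
windows are the T-gadgets along the time, with straight collars; all of them start at the level `0`.
-/

set_option autoImplicit false

namespace Pool.Agent.Lib.MP_688fd0_co.SQ5.H87

open Pool.Agent.Lib.MP_688fd0_co.OSF Pool.Agent.Lib.MP_688fd0_co.SQ2 Pool.Agent.Lib.MP_688fd0_co.SQ3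
open Pool.Agent.Lib.MP_688fd0_co.SQ4

universe u v

section cut

variable {S : Type} [Fintype S] {Q : Type} [Group Q] [DecidableEq Q] {B : Lb.{0, v} Q} {U : Up B} {g : S → Q}

open Classical in
/-- A function of the strands as a function of the vertices `g s`. -/
noncomputable def atF {S Q : Type} (g : S → Q) {M : Type*} (G : S → M) (d : M) (y : Q) : M :=
  if h : ∃ s, g s = y then G h.choose else d

omit [Fintype S] [Group Q] [DecidableEq Q] in
theorem atF_eq {g : S → Q} (inj : Function.Injective g) {M : Type*} (G : S → M) (d : M) (s : S) :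
    atF g G d (g s) = G s := by
  have h : ∃ s', g s' = g s := ⟨s, rfl⟩
  unfold atF
  rw [dif_pos h, inj h.choose_spec]

/-- The cut with the level `n s` on the strand `s`. -/
def cutS (U : Up B) (g : S → Q) (n : S → ℕ) (hi : Function.Injective fun s => (U.U ^ n s) (g s)) : Finset Q :=
  Finset.univ.map ⟨fun s => (U.U ^ n s) (g s), hi⟩

omit [DecidableEq Q] in
theorem mem_cutS {n : S → ℕ} {hi : Function.Injective fun s => (U.U ^ n s) (g s)} {x : Q} :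
    x ∈ cutS U g n hi ↔ ∃ s, (U.U ^ n s) (g s) = x := by
  unfold cutS
  rw [Finset.mem_map]
  constructor
  · rintro ⟨s, _, h⟩; exact ⟨s, h⟩
  · rintro ⟨s, h⟩; exact ⟨s, Finset.mem_univ _, h⟩

omit [DecidableEq Q] in
theorem cutS_mem {n : S → ℕ} {hi : Function.Injective fun s => (U.U ^ n s) (g s)} (s : S) :
    (U.U ^ n s) (g s) ∈ cutS U g n hi := mem_cutS.2 ⟨s, rfl⟩

omit [DecidableEq Q] in
theorem sum_cutS {n : S → ℕ} {hi : Function.Injective fun s => (U.U ^ n s) (g s)} {M : Type*} [AddCommMonoid M]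
    (φ : Q → M) : ∑ x ∈ cutS U g n hi, φ x = ∑ s : S, φ ((U.U ^ n s) (g s)) := by
  unfold cutS
  rw [Finset.sum_map]
  rfl

variable {n n' : S → ℕ} {hi : Function.Injective fun s => (U.U ^ n s) (g s)}
  {hi' : Function.Injective fun s => (U.U ^ n' s) (g s)}

omit [DecidableEq Q] in
/-- The straight block between two cuts. -/
theorem blk_cut (h : ∀ s, n s ≤ n' s) : Blk B (cutS U g n hi) (cutS U g n' hi')
    (atF (fun s => (U.U ^ n s) (g s)) (fun s => (U.U ^ n' s) (g s)) 1)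
    (atF (fun s => (U.U ^ n s) (g s)) (fun s => U.str (n' s - n s) ((U.U ^ n s) (g s))) []) where
  fin y hy := by
    obtain ⟨s, rfl⟩ := mem_cutS.1 hy
    rw [atF_eq hi (fun s => U.str (n' s - n s) ((U.U ^ n s) (g s))), atF_eq hi (fun s => (U.U ^ n' s) (g s)),
      U.fin_str, ← U.U_pow_add, Nat.add_sub_cancel' (h s)]
  mem y hy := by
    obtain ⟨s, rfl⟩ := mem_cutS.1 hy
    rw [atF_eq hi (fun s => (U.U ^ n' s) (g s))]
    exact cutS_mem s
  inj y hy y' hy' e := by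
    obtain ⟨s, rfl⟩ := mem_cutS.1 hy
    obtain ⟨s', rfl⟩ := mem_cutS.1 hy'
    rw [atF_eq hi (fun s => (U.U ^ n' s) (g s)), atF_eq hi (fun s => (U.U ^ n' s) (g s))] at e
    rw [hi' e]
  surj x hx := by
    obtain ⟨s, rfl⟩ := mem_cutS.1 hx
    exact ⟨_, cutS_mem s, atF_eq hi (fun s => (U.U ^ n' s) (g s)) 1 s⟩

omit [DecidableEq Q] in
theorem bR_cut : bR B (cutS U g n hi)
    (atF (fun s => (U.U ^ n s) (g s)) (fun s => U.str (n' s - n s) ((U.U ^ n s) (g s))) []) =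
      ∑ s : S, ∑ j ∈ Finset.range (n' s - n s), {(U.U ^ (n s + j)) (g s)} := by
  unfold bR
  rw [sum_cutS]
  refine Finset.sum_congr rfl fun s _ => ?_
  rw [atF_eq hi (fun s => U.str (n' s - n s) ((U.U ^ n s) (g s))), U.src_str]
  exact Finset.sum_congr rfl fun j _ => by rw [U.U_pow_add]

/-- A window between two cuts with straight collars. -/
theorem exists_cut (inj : Function.Injective g) (X : TW B) {n₀ n₁ : S → ℕ}
    {hi₀ : Function.Injective fun s => (U.U ^ n₀ s) (g s)} {hi₁ : Function.Injective fun s => (U.U ^ n₁ s) (g s)}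
    (hle : ∀ s, n₀ s ≤ n₁ s) {Λ : ℕ} (hΛ : ∀ s, n₁ s ≤ Λ) {x y x' y' : S} (L₀ : X.L₀ = cutS U g n₀ hi₀)
    (L₁ : X.L₁ = cutS U g n₁ hi₁) (u₀ : X.u₀ = (U.U ^ n₀ x) (g x)) (u₁ : X.u₁ = (U.U ^ n₀ y) (g y))
    (w₀ : X.w₀ = (U.U ^ n₁ x') (g x')) (w₁ : X.w₁ = (U.U ^ n₁ y') (g y'))
    (reg : X.R = ∑ s : S, ∑ j ∈ Finset.range (n₁ s - n₀ s), {(U.U ^ (n₀ s + j)) (g s)}) :
    ∃ Y : TW B, Y.L₀ = frS U g inj 0 ∧ Y.L₁ = frS U g inj (0 + Λ) ∧ Y.u₀ = (U.U ^ 0) (g x) ∧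
      Y.u₁ = (U.U ^ 0) (g y) ∧ Y.w₀ = (U.U ^ (0 + Λ)) (g x') ∧ Y.w₁ = (U.U ^ (0 + Λ)) (g y') ∧
      Y.R = ∑ i ∈ Finset.Ico 0 (0 + Λ), (frS U g inj i).val ∧
      Y.cup = U.str (n₀ x) (g x) ++ (X.cup ++ U.dn (n₀ y) (g y)) ∧
      Y.cap = U.dn (Λ - n₁ x') ((U.U ^ n₁ x') (g x')) ++ (X.cap ++ U.str (Λ - n₁ y') ((U.U ^ n₁ y') (g y'))) ∧
      ∀ s s', s ≠ x → s ≠ y → X.f ((U.U ^ n₀ s) (g s)) = (U.U ^ n₁ s') (g s') →
        Y.f ((U.U ^ 0) (g s)) = (U.U ^ (0 + Λ)) (g s') ∧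
        Y.path ((U.U ^ 0) (g s)) = U.str (n₀ s) (g s) ++ (X.path ((U.U ^ n₀ s) (g s)) ++
          U.str (Λ - n₁ s') ((U.U ^ n₁ s') (g s'))) := by
  have hi0 : Function.Injective fun s => (U.U ^ 0) (g s) := fun _ _ h => inj ((U.U ^ 0).injective h)
  have hiΛ : Function.Injective fun s => (U.U ^ (0 + Λ)) (g s) := fun _ _ h => inj ((U.U ^ (0 + Λ)).injective h)
  have hl : ∀ s, n₁ s ≤ 0 + Λ := fun s => by rw [zero_add]; exact hΛ s
  have B₁ := blk_cut (B := B) (hi := hi₁) (hi' := hiΛ) hl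
  rw [← L₁] at B₁
  set Z := postB X B₁ with hZ
  have B₀ := blk_cut (B := B) (n := fun _ => 0) (hi := hi0) (hi' := hi₀) fun s => Nat.zero_le _
  have hB₀ : Blk B (cutS U g (fun _ => 0) hi0) Z.L₀
      (atF (fun s => (U.U ^ 0) (g s)) (fun s => (U.U ^ n₀ s) (g s)) 1)
      (atF (fun s => (U.U ^ 0) (g s)) (fun s => U.str (n₀ s - 0) ((U.U ^ 0) (g s))) []) := by
    have : Z.L₀ = cutS U g n₀ hi₀ := L₀
    rw [this]; exact B₀
  have e₀ : ∀ s, atF (fun s => (U.U ^ 0) (g s)) (fun s => (U.U ^ n₀ s) (g s)) 1 ((U.U ^ 0) (g s)) =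
      (U.U ^ n₀ s) (g s) := fun s => atF_eq hi0 (fun s => (U.U ^ n₀ s) (g s)) 1 s
  have e₀' : ∀ s, atF (fun s => (U.U ^ 0) (g s)) (fun s => U.str (n₀ s - 0) ((U.U ^ 0) (g s))) ([] : List B.L)
      ((U.U ^ 0) (g s)) = U.str (n₀ s) (g s) := fun s => by
    rw [atF_eq hi0 (fun s => U.str (n₀ s - 0) ((U.U ^ 0) (g s))), Nat.sub_zero]; rfl
  have e₁ : ∀ s, atF (fun s => (U.U ^ n₁ s) (g s)) (fun s => (U.U ^ (0 + Λ)) (g s)) 1 ((U.U ^ n₁ s) (g s)) =
      (U.U ^ (0 + Λ)) (g s) := fun s => atF_eq hi₁ (fun s => (U.U ^ (0 + Λ)) (g s)) 1 s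
  have e₁' : ∀ s, atF (fun s => (U.U ^ n₁ s) (g s)) (fun s => U.str (0 + Λ - n₁ s) ((U.U ^ n₁ s) (g s)))
      ([] : List B.L) ((U.U ^ n₁ s) (g s)) = U.str (Λ - n₁ s) ((U.U ^ n₁ s) (g s)) := fun s => by
    rw [atF_eq hi₁ (fun s => U.str (0 + Λ - n₁ s) ((U.U ^ n₁ s) (g s))), zero_add]
  refine ⟨preB Z hB₀ ((U.U ^ 0) (g x)) ((U.U ^ 0) (g y)) (cutS_mem (n := fun _ => 0) (hi := hi0) x)
    (cutS_mem (n := fun _ => 0) (hi := hi0) y) ((e₀ x).trans u₀.symm) ((e₀ y).trans u₁.symm), rfl, rfl, rfl, rfl, ?_, ?_,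
    ?_, ?_, ?_, ?_⟩
  · show atF (fun s => (U.U ^ n₁ s) (g s)) (fun s => (U.U ^ (0 + Λ)) (g s)) 1 X.w₀ = _
    rw [w₀]; exact e₁ x'
  · show atF (fun s => (U.U ^ n₁ s) (g s)) (fun s => (U.U ^ (0 + Λ)) (g s)) 1 X.w₁ = _
    rw [w₁]; exact e₁ y'
  · rw [preB_R, hZ, postB_R, reg, L₁, bR_cut, bR_cut, Finset.sum_congr rfl fun i _ => frS_val (inj := inj) i,
      Finset.sum_comm, ← Finset.sum_add_distrib, ← Finset.sum_add_distrib]
    refine Finset.sum_congr rfl fun s _ => ?_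
    have h1 := hle s
    have h2 := hl s
    rw [Finset.sum_Ico_eq_sum_range, show 0 + Λ - 0 = (n₀ s - 0) + ((n₁ s - n₀ s) + (0 + Λ - n₁ s)) by omega,
      sum_range_add, sum_range_add]
    refine congrArg₂ _ rfl (congrArg₂ _ (Finset.sum_congr rfl fun j _ => ?_) (Finset.sum_congr rfl fun j _ => ?_))
    · rw [show 0 + (n₀ s - 0 + j) = n₀ s + j by omega]
    · rw [show 0 + (n₀ s - 0 + (n₁ s - n₀ s + j)) = n₁ s + j by omega]
  · show atF _ _ _ ((U.U ^ 0) (g x)) ++ (X.cup ++ B.rev (atF _ _ _ ((U.U ^ 0) (g y)))) = _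
    rw [e₀' x, e₀' y]
    rfl
  · show B.rev (atF _ _ _ X.w₀) ++ (X.cap ++ atF _ _ _ X.w₁) = _
    rw [w₀, w₁, e₁' x', e₁' y']
    rfl
  · intro s s' _ _ hf
    constructor
    · show atF (fun s => (U.U ^ n₁ s) (g s)) (fun s => (U.U ^ (0 + Λ)) (g s)) 1
        (X.f (atF (fun s => (U.U ^ 0) (g s)) (fun s => (U.U ^ n₀ s) (g s)) 1 ((U.U ^ 0) (g s)))) = _
      rw [e₀ s, hf]
      exact e₁ s'
    · show atF _ _ _ ((U.U ^ 0) (g s)) ++ (X.path (atF _ _ _ ((U.U ^ 0) (g s))) ++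
        atF _ _ _ (X.f (atF _ _ _ ((U.U ^ 0) (g s))))) = _
      rw [e₀ s, hf, e₀' s, e₁' s']

end cut

section tme

variable {S : Type}

theorem prN_RP (P : ℕ → Equiv.Perm S) (i : ℕ) (s : S) : prN P i ((P 0)⁻¹ s) = RP P i s := by
  induction i with
  | zero => rfl
  | succ i ih =>
    show P i (prN P i ((P 0)⁻¹ s)) = P i (RP P i s)
    rw [ih]

theorem prN_RP' (P : ℕ → Equiv.Perm S) (i : ℕ) (s : S) : prN P i s = RP P i (P 0 s) := by
  rw [← prN_RP]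
  simp

theorem Tme.tel (T : Tme S) (y₀ m : ℕ) (s : S) {M : Type*} [AddCommMonoid M] (φ : ℕ → M)
    (hd : ∀ i, Decidable (T.act (y₀ + i) s)) :
    ∑ i ∈ Finset.range m, (if T.act (y₀ + i) s then φ (T.n (y₀ + i) s) else 0) =
      ∑ j ∈ Finset.range (T.n (y₀ + m) s - T.n y₀ s), φ (T.n y₀ s + j) := by
  induction m with
  | zero => simp
  | succ m ih =>
    rw [Finset.sum_range_succ, ih]
    have hle := T.mono (Nat.le_add_right y₀ m) s
    by_cases h : T.act (y₀ + m) s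
    · rw [if_pos h, show y₀ + (m + 1) = y₀ + m + 1 by ring, T.step _ s h,
        show T.n (y₀ + m) s + 1 - T.n y₀ s = T.n (y₀ + m) s - T.n y₀ s + 1 by omega, Finset.sum_range_succ,
        show T.n y₀ s + (T.n (y₀ + m) s - T.n y₀ s) = T.n (y₀ + m) s by omega]
    · rw [if_neg h, show y₀ + (m + 1) = y₀ + m + 1 by ring, T.stay _ s h, add_zero]

theorem Tme.n_mul {T : Tme S} {Y e : ℕ} (hn : ∀ y s, T.n (y + Y) s = T.n y s + e) (y c : ℕ) (s : S) :
    T.n (y + Y * c) s = T.n y s + e * c := by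
  induction c with
  | zero => rfl
  | succ c ih => rw [show y + Y * (c + 1) = y + Y * c + Y by ring, hn, ih]; ring

end tme

section cls

variable {S : Type} [Fintype S] {Q : Type} [Group Q] [DecidableEq Q] {B : Lb.{0, v} Q} {U : Up B} {g : S → Q}
  {T : Tme S} {Y e O : ℕ}

/-- Up `a` levels on the strand `s`, the label `l`, down `b` levels on the strand `s'`. -/
def cupN (U : Up B) (g : S → Q) (a b : ℕ) (l : B.L) (s s' : S) : List B.L :=
  U.str a (g s) ++ ([l] ++ U.dn b (g s'))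

/-- Down from the level `Λ` to the level `a` on the strand `s`, the label `l`, up from the level `b` to the level `Λ` on
the strand `s'`. -/
def capN (U : Up B) (g : S → Q) (Λ a b : ℕ) (l : B.L) (s s' : S) : List B.L :=
  U.dn (Λ - a) ((U.U ^ a) (g s)) ++ ([l] ++ U.str (Λ - b) ((U.U ^ b) (g s')))

/-- The class of the T-gadgets along a time. -/
theorem exists_clsN (hY : 0 < Y) (he : 0 < e) (hi : ∀ y, Function.Injective (vN U g T y)) (inj : Function.Injective g)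
    {P : ZMod Y → Equiv.Perm S} {ρ : ZMod Y → S → B.L} {act : ZMod Y → S → Prop} {D : S → Prop}
    (hact : ∀ (y : ℕ) (s : S), T.act y s ↔ act y s) (hn : ∀ y s, T.n (y + Y) s = T.n y s + e)
    (hO : ∀ s, T.n 0 s ≤ e * O)
    (hP : ∀ (y : ℕ) (s : S), D s → act y s → vN U g T y s * B.q (ρ y s) = vN U g T y (P y s))
    (hA : ∀ (k : ZMod Y) (s : S), D s → act k s → act k (P k s))
    (hN : ∀ (k : ZMod Y) (s : S), D s → ¬ act k s → P k s = s) (hDP : ∀ (k : ZMod Y) (s : S), D s → D (P k s)) :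
    ∃ X : ClsW U g inj e {r : ZMod Y × S // D r.2 ∧ act r.1 r.2},
      (∀ r, X.lev r = 0) ∧ (∀ r, X.x r = r.1.2) ∧ (∀ r, X.y r = P r.1.1 r.1.2) ∧
      (∀ r, e ∣ X.H r) ∧ (∀ r, X.H r ≤ e * ((Fintype.card S) ^ 2 + 1 + O)) ∧
      (∃ m : {r : ZMod Y × S // D r.2 ∧ act r.1 r.2} → ℕ, ∀ r, 1 ≤ m r ∧ (X.tau r).1.1 = r.1.1 + m r ∧
        (X.tau r).1.2 = RP (fun i => P (r.1.1 + i)) (m r) r.1.2 ∧
        P (X.tau r).1.1 (X.tau r).1.2 = RP (fun i => P (r.1.1 + i)) (m r) (P r.1.1 r.1.2) ∧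
        ∀ i : ℕ, 1 ≤ i → i < m r → P (r.1.1 + i) (RP (fun j => P (r.1.1 + j)) i r.1.2) ≠
          RP (fun j => P (r.1.1 + j)) i (P r.1.1 r.1.2)) ∧
      (∀ r, (X.W r).cup = cupN U g (T.n r.1.1.val (X.x r)) (T.n r.1.1.val (X.y r)) (ρ r.1.1 (X.x r)) (X.x r) (X.y r)) ∧
      (∀ r, ∃ c, (∀ s, T.n (X.tau r).1.1.val s + e * c ≤ X.H r) ∧ (X.W r).cap =
        capN U g (X.H r) (T.n (X.tau r).1.1.val (X.x (X.tau r)) + e * c) (T.n (X.tau r).1.1.val (X.y (X.tau r)) + e * c)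
          (ρ (X.tau r).1.1 (X.x (X.tau r))) (X.x (X.tau r)) (X.y (X.tau r))) ∧
      ∀ A : S → Prop, (∀ r, A (X.x r) ↔ A (X.y r)) → X.Clo A ∧ ∀ r, A (X.x r) → ∀ s, ¬ A s →
        (X.W r).path ((U.U ^ X.lev r) (g s)) = U.str (X.H r) ((U.U ^ X.lev r) (g s)) := by
  classical
  have : NeZero Y := ⟨hY.ne'⟩
  obtain ⟨m, hm1, hm2⟩ := first_return (ThT P) (fun a : ZMod Y × S × S => P a.1 a.2.1 = a.2.2 ∧ a.2.1 ≠ a.2.2)
  have hval : ∀ k : ZMod Y, ((k.val : ℕ) : ZMod Y) = k := fun k => ZMod.natCast_zmod_val k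
  -- active strands move
  have hne : ∀ r : {r : ZMod Y × S // D r.2 ∧ act r.1 r.2}, P r.1.1 r.1.2 ≠ r.1.2 := by
    rintro ⟨⟨k, s⟩, h1, h2⟩ h
    have h3 := hP k.val s h1 (by rw [hval]; exact h2)
    rw [hval] at h3
    have h : P k s = s := h
    rw [h] at h3
    exact B.ne_one _ (mul_eq_left.1 h3)
  -- the start state of a rung
  let st : {r : ZMod Y × S // D r.2 ∧ act r.1 r.2} → ZMod Y × S × S := fun r => (r.1.1, (P r.1.1)⁻¹ r.1.2, r.1.2)
  have hst : ∀ r, P (st r).1 (st r).2.1 = (st r).2.2 ∧ (st r).2.1 ≠ (st r).2.2 := by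
    intro r
    constructor
    · show P r.1.1 ((P r.1.1)⁻¹ r.1.2) = r.1.2
      simp
    · show (P r.1.1)⁻¹ r.1.2 ≠ r.1.2
      intro h
      exact hne r (by rw [Equiv.Perm.inv_eq_iff_eq] at h; exact h.symm)
  let M : {r : ZMod Y × S // D r.2 ∧ act r.1 r.2} → ℕ := fun r => m (st r)
  have hpow : ∀ (r : {r : ZMod Y × S // D r.2 ∧ act r.1 r.2}) (i : ℕ), (ThT P ^ i) (st r) =
      (r.1.1 + i, RP (fun j => P (r.1.1 + j)) i r.1.2, RP (fun j => P (r.1.1 + j)) i (P r.1.1 r.1.2)) :=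
    fun r i => ThT_pow P r.1.1 r.1.2 i
  have hD : ∀ (r : {r : ZMod Y × S // D r.2 ∧ act r.1 r.2}) (i : ℕ), 1 ≤ i →
      D (RP (fun j => P (r.1.1 + (j : ZMod Y))) i r.1.2) := by
    intro r i h
    obtain ⟨j, rfl⟩ : ∃ j, i = j + 1 := ⟨i - 1, by omega⟩
    clear h
    induction j with
    | zero => rw [RP_one]; exact r.2.1
    | succ j ih => rw [RP_succ _ (j + 1)]; exact hDP _ _ ih
  have hM1 : ∀ r, 1 ≤ M r := fun r => (hm1 (st r) (hst r)).1
  have hM2 : ∀ r, M r ≤ Y * (Fintype.card S) ^ 2 := by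
    intro r
    have h1 := (hm1 (st r) (hst r)).2.1
    rw [Nat.card_prod, Nat.card_prod, Nat.card_eq_fintype_card, Nat.card_eq_fintype_card, ZMod.card] at h1
    rw [sq]
    exact h1
  have hcl : ∀ r : {r : ZMod Y × S // D r.2 ∧ act r.1 r.2}, P (r.1.1 + M r) (RP (fun j => P (r.1.1 + j)) (M r) r.1.2) =
      RP (fun j => P (r.1.1 + j)) (M r) (P r.1.1 r.1.2) ∧
      RP (fun j => P (r.1.1 + j)) (M r) r.1.2 ≠ RP (fun j => P (r.1.1 + j)) (M r) (P r.1.1 r.1.2) := by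
    intro r
    have := (hm1 (st r) (hst r)).2.2.1
    rw [hpow] at this
    exact this
  have hmin : ∀ (r : {r : ZMod Y × S // D r.2 ∧ act r.1 r.2}) (i : ℕ), 1 ≤ i → i < M r →
      P (r.1.1 + i) (RP (fun j => P (r.1.1 + j)) i r.1.2) ≠ RP (fun j => P (r.1.1 + j)) i (P r.1.1 r.1.2) := by
    intro r i h1 h2 h3
    apply (hm1 (st r) (hst r)).2.2.2 i h1 h2
    rw [hpow]
    exact ⟨h3, fun h => hne r ((RP (fun j : ℕ => P (r.1.1 + (j : ZMod Y))) i).injective h).symm⟩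
  have hac : ∀ r, act (r.1.1 + M r) (RP (fun j => P (r.1.1 + j)) (M r) r.1.2) := by
    intro r
    by_contra h
    have h1 := hN _ _ (hD r (M r) (hM1 r)) h
    have h2 := hcl r
    rw [h1] at h2
    exact h2.2 h2.1
  -- the first return map
  let tm : {r : ZMod Y × S // D r.2 ∧ act r.1 r.2} → {r : ZMod Y × S // D r.2 ∧ act r.1 r.2} := fun r =>
    ⟨(r.1.1 + M r, RP (fun j => P (r.1.1 + j)) (M r) r.1.2), hD r (M r) (hM1 r), hac r⟩
  have htm : Function.Injective tm := by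
    intro r r' h
    have h1 : r.1.1 + (M r : ZMod Y) = r'.1.1 + (M r' : ZMod Y) := congrArg (fun a => a.1.1) h
    have h2 : RP (fun j => P (r.1.1 + j)) (M r) r.1.2 = RP (fun j => P (r'.1.1 + j)) (M r') r'.1.2 :=
      congrArg (fun a => a.1.2) h
    have h3 : (ThT P ^ M r) (st r) = (ThT P ^ M r') (st r') := by
      rw [hpow, hpow, ← (hcl r).1, ← (hcl r').1, h1, h2]
    have h4 := hm2 _ _ (hst r) (hst r') h3
    have h5 : r.1.1 = r'.1.1 := congrArg (fun a : ZMod Y × S × S => a.1) h4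
    have h6 : r.1.2 = r'.1.2 := congrArg (fun a : ZMod Y × S × S => a.2.2) h4
    exact Subtype.ext (Prod.ext h5 h6)
  -- the component
  let Ah : {r : ZMod Y × S // D r.2 ∧ act r.1 r.2} → S → Prop := fun r s => D s ∧
    ∀ A : S → Prop, (∀ k s, D s → A s → A (P k s)) → A r.1.2 → A s
  have hAh : ∀ r k s, Ah r s → Ah r (P k s) := fun r k s h => ⟨hDP k s h.1, fun A h1 h2 => h1 k s h.1 (h.2 A h1 h2)⟩
  have hAx : ∀ r, Ah r r.1.2 := fun r => ⟨r.2.1, fun A h1 h2 => h2⟩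
  -- the heights
  let H : {r : ZMod Y × S // D r.2 ∧ act r.1 r.2} → ℕ := fun r => e * ((r.1.1.val + M r) / Y + 1 + O)
  have hYb : ∀ (y : ℕ), y < Y → ∀ s, T.n y s ≤ e * (1 + O) := by
    intro y hy s
    have h1 := T.mono hy.le s
    have h2 := hn 0 s
    rw [zero_add] at h2
    have h3 := hO s
    rw [h2] at h1
    have h4 : e * (1 + O) = e + e * O := by ring
    omega
  have hdm : ∀ r : {r : ZMod Y × S // D r.2 ∧ act r.1 r.2}, (tm r).1.1.val + Y * ((r.1.1.val + M r) / Y) = r.1.1.val + M r := by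
    intro r
    have h1 : (tm r).1.1 = ((r.1.1.val + M r : ℕ) : ZMod Y) := by
      rw [Nat.cast_add, hval]
    rw [h1, ZMod.val_natCast]
    exact Nat.mod_add_div _ _
  have hnt : ∀ r s, T.n (r.1.1.val + M r) s = T.n (tm r).1.1.val s + e * ((r.1.1.val + M r) / Y) := by
    intro r s
    rw [← Tme.n_mul hn, hdm]
  have hHb : ∀ r s, T.n (r.1.1.val + M r) s ≤ H r := by
    intro r s
    rw [hnt]
    have h1 := hYb _ (ZMod.val_lt (tm r).1.1) s
    have h2 : H r = e * ((r.1.1.val + M r) / Y) + e * (1 + O) := by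
      show e * _ = _
      ring
    omega
  -- the windows
  have hW : ∀ r : {r : ZMod Y × S // D r.2 ∧ act r.1 r.2}, ∃ X : TW B, X.L₀ = frS U g inj 0 ∧
      X.L₁ = frS U g inj (0 + H r) ∧ X.u₀ = (U.U ^ 0) (g r.1.2) ∧ X.u₁ = (U.U ^ 0) (g (P r.1.1 r.1.2)) ∧
      X.w₀ = (U.U ^ (0 + H r)) (g (tm r).1.2) ∧ X.w₁ = (U.U ^ (0 + H r)) (g (P (tm r).1.1 (tm r).1.2)) ∧
      X.R = ∑ i ∈ Finset.Ico 0 (0 + H r), (frS U g inj i).val ∧
      X.cup = U.str (T.n r.1.1.val r.1.2) (g r.1.2) ++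
        ([ρ r.1.1 r.1.2] ++ U.dn (T.n r.1.1.val (P r.1.1 r.1.2)) (g (P r.1.1 r.1.2))) ∧
      X.cap = U.dn (H r - T.n (r.1.1.val + M r) (tm r).1.2) ((U.U ^ T.n (r.1.1.val + M r) (tm r).1.2) (g (tm r).1.2)) ++
        ([ρ (tm r).1.1 (tm r).1.2] ++ U.str (H r - T.n (r.1.1.val + M r) (P (tm r).1.1 (tm r).1.2))
          ((U.U ^ T.n (r.1.1.val + M r) (P (tm r).1.1 (tm r).1.2)) (g (P (tm r).1.1 (tm r).1.2)))) ∧
      ∀ s : S, ¬ Ah r s → X.f ((U.U ^ 0) (g s)) = (U.U ^ (0 + H r)) (g s) ∧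
          X.path ((U.U ^ 0) (g s)) = U.str (H r) ((U.U ^ 0) (g s)) := by
    intro r
    have hc : ∀ i : ℕ, ((r.1.1.val + i : ℕ) : ZMod Y) = r.1.1 + i := by
      intro i
      rw [Nat.cast_add, hval]
    set P' : ℕ → Equiv.Perm S := fun y => P (y : ZMod Y) with hP'
    have hRP : (fun i : ℕ => P' (r.1.1.val + i)) = fun i : ℕ => P (r.1.1 + i) := by
      funext i
      rw [hP']
      show P ((r.1.1.val + i : ℕ) : ZMod Y) = _
      rw [hc]
    have hq0 : P' r.1.1.val = P r.1.1 := by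
      rw [hP']
      show P ((r.1.1.val : ℕ) : ZMod Y) = _
      rw [hval]
    have hqm : ∀ i : ℕ, P' (r.1.1.val + i) = P (r.1.1 + i) := fun i => congrFun hRP i
    have hr1 : ∀ i : ℕ, prN (fun j => P' (r.1.1.val + j)) i ((P' r.1.1.val)⁻¹ r.1.2) =
        RP (fun j => P (r.1.1 + j)) i r.1.2 := by
      intro i
      rw [← hRP]
      exact prN_RP (fun j => P' (r.1.1.val + j)) i r.1.2
    have hr2 : ∀ i : ℕ, prN (fun j => P' (r.1.1.val + j)) i r.1.2 =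
        RP (fun j => P (r.1.1 + j)) i (P r.1.1 r.1.2) := by
      intro i
      rw [← hRP, ← hq0]
      exact prN_RP' (fun j => P' (r.1.1.val + j)) i r.1.2
    obtain ⟨X, a1, a2, a3, a4, a5, a6, a7, a8, a9, a10, a11, a12⟩ := TGN (U := U) (g := g) (T := T) hi (P := P')
      (ρ := fun y => ρ (y : ZMod Y)) (D := Ah r)
      (fun y s hs ha => hP y s hs.1 ((hact y s).1 ha)) (fun y s hs ha => (hact y _).2 (hA _ s hs.1 ((hact y s).1 ha)))
      (fun y s hs ha => hN _ s hs.1 fun h => ha ((hact y s).2 h)) (fun y s hs => hAh r _ s hs)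
      r.1.1.val r.1.2 (hAx r) ((hact _ _).2 (by rw [hval]; exact r.2.2)) (M r) (hM1 r)
      (by rw [hr1, hr2, hqm]; exact (hcl r).1)
      (fun i h1 h2 => by rw [hr1, hr2, hqm]; exact hmin r i h1 h2)
    rw [hr1] at a6
    rw [hr1, hqm] at a7
    rw [hr1] at a8
    rw [hq0] at a4
    have hle : ∀ s, T.n r.1.1.val s ≤ T.n (r.1.1.val + M r) s := fun s => T.mono (Nat.le_add_right _ _) s
    obtain ⟨Z, b1, b2, b3, b4, b5, b6, b7, b8, b9, b10⟩ := exists_cut (U := U) (g := g) inj X (n₀ := T.n r.1.1.val)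
      (n₁ := T.n (r.1.1.val + M r)) (hi₀ := hi _) (hi₁ := hi _) hle (hHb r) (x := r.1.2) (y := P r.1.1 r.1.2)
      (x' := (tm r).1.2) (y' := P (tm r).1.1 (tm r).1.2) a1 a2 a3 a4 a6 a7 (by
        rw [a11, Finset.sum_comm]
        refine Finset.sum_congr rfl fun s _ => ?_
        exact T.tel r.1.1.val (M r) s (fun j => ({(U.U ^ j) (g s)} : Multiset Q)) fun _ => Classical.propDecidable _)
    refine ⟨Z, b1, b2, b3, b4, b5, b6, b7, ?_, ?_, ?_⟩
    · rw [b8, a5]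
      show _ ++ ([ρ ((r.1.1.val : ℕ) : ZMod Y) r.1.2] ++ _) = _
      rw [hval]
    · rw [b9, a8]
      show _ ++ ([ρ ((r.1.1.val + M r : ℕ) : ZMod Y) _] ++ _) = _
      rw [hc]
    · intro s hs
      have hsx : s ≠ r.1.2 := fun h => hs (h ▸ hAx r)
      have hsy : s ≠ P r.1.1 r.1.2 := fun h => hs (h ▸ hAh r _ _ (hAx r))
      obtain ⟨-, c1⟩ := a12 s (by rw [a3]; exact fun h => hsx (hi _ h)) (by rw [a4]; exact fun h => hsy (hi _ h))
      obtain ⟨c1, c2⟩ := c1 hs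
      obtain ⟨d1, d2⟩ := b10 s s hsx hsy c1
      refine ⟨d1, d2.trans ?_⟩
      have c3 : X.path ((U.U ^ T.n r.1.1.val s) (g s)) = U.str (T.n (r.1.1.val + M r) s - T.n r.1.1.val s)
        ((U.U ^ T.n r.1.1.val s) (g s)) := c2
      have h1 := hle s
      have h2 := hHb r s
      rw [c3]
      have h3 := U.str_add (T.n r.1.1.val s) (T.n (r.1.1.val + M r) s - T.n r.1.1.val s) (g s)
      have h4 := U.str_add (T.n (r.1.1.val + M r) s) (H r - T.n (r.1.1.val + M r) s) (g s)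
      rw [show T.n r.1.1.val s + (T.n (r.1.1.val + M r) s - T.n r.1.1.val s) = T.n (r.1.1.val + M r) s by omega] at h3
      rw [show T.n (r.1.1.val + M r) s + (H r - T.n (r.1.1.val + M r) s) = H r by omega, h3, List.append_assoc] at h4
      exact h4.symm
  choose W w1 w2 w3 w4 w5 w6 w7 w8 w9 w10 using hW
  have hAA : ∀ A : S → Prop, (∀ r : {r : ZMod Y × S // D r.2 ∧ act r.1 r.2}, A r.1.2 ↔ A (P r.1.1 r.1.2)) →
      ∀ k s, D s → A s → A (P k s) := by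
    intro A hA k s hs h
    by_cases ha : act k s
    · exact (hA ⟨(k, s), hs, ha⟩).1 h
    · rw [hN k s hs ha]; exact h
  refine ⟨{ lev := fun r => 0
            lev_lt := fun r => he
            H := H
            x := fun r => r.1.2
            y := fun r => P r.1.1 r.1.2
            tau := Equiv.ofBijective tm (Finite.injective_iff_bijective.1 htm)
            W := W
            L₀ := w1
            L₁ := w2
            u₀ := w3
            u₁ := w4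
            w₀ := w5
            w₁ := w6
            reg := w7 }, fun r => rfl, fun r => rfl, fun r => rfl, fun r => ⟨_, rfl⟩, fun r => ?_,
            ⟨M, fun r => ⟨hM1 r, rfl, rfl, (hcl r).1, hmin r⟩⟩, w8, fun r => ⟨(r.1.1.val + M r) / Y, fun s => ?_, ?_⟩,
            fun A hA => ⟨⟨fun r h => (hA r).1 h, fun r h => ?_, fun r h s hs => ?_⟩, fun r h s hs => ?_⟩⟩
  · refine Nat.mul_le_mul_left e ?_
    have h1 : (r.1.1.val + M r) / Y ≤ (Fintype.card S) ^ 2 := by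
      have h2 := ZMod.val_lt r.1.1
      have h3 := hM2 r
      rw [← Nat.lt_succ_iff, Nat.div_lt_iff_lt_mul hY, Nat.succ_mul, mul_comm (Fintype.card S ^ 2) Y]
      omega
    omega
  · show T.n (tm r).1.1.val s + e * ((r.1.1.val + M r) / Y) ≤ H r
    rw [← hnt]
    exact hHb r s
  · refine (w9 r).trans ?_
    show _ = U.dn (H r - (T.n (tm r).1.1.val (tm r).1.2 + e * ((r.1.1.val + M r) / Y)))
      ((U.U ^ (T.n (tm r).1.1.val (tm r).1.2 + e * ((r.1.1.val + M r) / Y))) (g (tm r).1.2)) ++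
        ([ρ (tm r).1.1 (tm r).1.2] ++
          U.str (H r - (T.n (tm r).1.1.val (P (tm r).1.1 (tm r).1.2) + e * ((r.1.1.val + M r) / Y)))
          ((U.U ^ (T.n (tm r).1.1.val (P (tm r).1.1 (tm r).1.2) + e * ((r.1.1.val + M r) / Y)))
            (g (P (tm r).1.1 (tm r).1.2))))
    rw [hnt, hnt]
  · have key : ∀ i, 1 ≤ i → A (RP (fun j => P (r.1.1 + (j : ZMod Y))) i r.1.2) := by
      intro i hi1
      obtain ⟨j, rfl⟩ : ∃ j, i = j + 1 := ⟨i - 1, by omega⟩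
      clear hi1
      induction j with
      | zero => rw [RP_one]; exact h
      | succ j ih => rw [RP_succ _ (j + 1)]; exact hAA A hA _ _ (hD r (j + 1) (by omega)) ih
    exact key (M r) (hM1 r)
  · exact (w10 r s fun h' => hs (h'.2 A (hAA A hA) h)).1
  · exact (w10 r s fun h' => hs (h'.2 A (hAA A hA) h)).2

/-- The volumes of the cups and caps. -/
theorem clsN_cu {inj : Function.Injective g} {R : Type} {X : ClsW U g inj e R} {n₀ n₁ : R → ℕ} {l : R → B.L}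
    (hlev : ∀ r, X.lev r = 0) (hcup : ∀ r, (X.W r).cup = cupN U g (n₀ r) (n₁ r) (l r) (X.x r) (X.y r))
    (hfin : ∀ r, (U.U ^ n₀ r) (g (X.x r)) * B.q (l r) = (U.U ^ n₁ r) (g (X.y r)))
    (hcap : ∀ r, ∃ c, n₀ (X.tau r) + e * c ≤ X.H r ∧ n₁ (X.tau r) + e * c ≤ X.H r ∧ (X.W r).cap =
      capN U g (X.H r) (n₀ (X.tau r) + e * c) (n₁ (X.tau r) + e * c) (l (X.tau r)) (X.x (X.tau r)) (X.y (X.tau r)))
    {ζ : Q} (hper : Per U e ζ) {F : Type} [CommRing F] (V : Ev B F) {c₀ : F} (hc : ∀ x, V.e x (U.up x) = c₀)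
    (hV : V.Inv ζ) : X.Cu V fun r => (n₀ r : F) * c₀ + V.e ((U.U ^ n₀ r) (g (X.x r))) (l r) - (n₁ r : F) * c₀ := by
  refine ⟨fun r => ?_, fun r => ?_⟩
  · rw [hlev, hcup]
    show V.vol (g (X.x r)) (U.str (n₀ r) (g (X.x r)) ++ ([l r] ++ U.dn (n₁ r) (g (X.y r)))) = _
    rw [V.vol_append, V.vol_append, vol_strC hc, U.fin_str]
    have h1 : B.fin ((U.U ^ n₀ r) (g (X.x r))) [l r] = (U.U ^ n₁ r) (g (X.y r)) := hfin r
    have h2 : V.vol ((U.U ^ n₀ r) (g (X.x r))) [l r] = V.e ((U.U ^ n₀ r) (g (X.x r))) (l r) := add_zero _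
    rw [h1, h2, vol_dn V hc]
    ring
  · obtain ⟨c, h1, h2, h3⟩ := hcap r
    have e1 : (X.W r).w₀ = (U.U ^ (X.H r - (n₀ (X.tau r) + e * c))) ((U.U ^ (n₀ (X.tau r) + e * c)) (g (X.x (X.tau r)))) := by
      rw [X.w₀, hlev, ← U.U_pow_add, show 0 + X.H r = n₀ (X.tau r) + e * c + (X.H r - (n₀ (X.tau r) + e * c)) by omega]
    have e2 : ∀ m s, (U.U ^ (m + e * c)) (g s) = ζ ^ c * (U.U ^ m) (g s) := by
      intro m s
      rw [U.U_pow_add, per_mul hper]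
    have e3 : B.fin (ζ ^ c * (U.U ^ n₀ (X.tau r)) (g (X.x (X.tau r)))) [l (X.tau r)] =
        ζ ^ c * (U.U ^ n₁ (X.tau r)) (g (X.y (X.tau r))) := by
      show ζ ^ c * (U.U ^ n₀ (X.tau r)) (g (X.x (X.tau r))) * B.q (l (X.tau r)) = _
      rw [mul_assoc, hfin]
    have e4 : V.vol ((U.U ^ n₀ (X.tau r)) (g (X.x (X.tau r)))) [l (X.tau r)] =
        V.e ((U.U ^ n₀ (X.tau r)) (g (X.x (X.tau r)))) (l (X.tau r)) := add_zero _
    rw [e1, h3]
    show V.vol _ (U.dn _ _ ++ ([l (X.tau r)] ++ U.str _ _)) = _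
    rw [V.vol_append, V.vol_append, vol_dn V hc, U.fin_dn, e2, e2, e3, (FamW.Inv_pow hV c).vol, e4, vol_strC hc,
      Nat.cast_sub h1, Nat.cast_sub h2]
    push_cast
    ring

end cls

end Pool.Agent.Lib.MP_688fd0_co.SQ5.H87
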