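import Pool.Agent.Lib.MP_688fd0_co.SQ5.H87.ClsR
import Pool.Agent.Lib.MP_688fd0_co.SQ5.N.Iface

/-!
CLSN: the class of the rungs of the middle letter of a near triple.
-/

set_option autoImplicit false

namespace Pool.Agent.Lib.MP_688fd0_co.SQ5.N

open Pool.Agent.Lib.MP_688fd0_co.OSF Pool.Agent.Lib.MP_688fd0_co.SQ2 Pool.Agent.Lib.MP_688fd0_co.SQ3
open Pool.Agent.Lib.MP_688fd0_co.SQ4

section

variable {Q : Type} [Group Q] {B : Lb.{0, 0} Q} {a t b : B.L} {eps : Q →* ℤˣ} {D : Subgroup Q} {u : Q} {i j k : ℕ}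

/-! ### The quotient by `D` -/

theorem HypN.qp (H : HypN B a t b eps D u i j k) {G : Type} [Group G] (f : Q →* G) (hf : ∀ d ∈ D, f d = 1) :
    f (B.q a) * (f (B.q t))⁻¹ = f u ^ i := by
  have h1 := hf _ H.mp
  rw [map_mul, map_inv, map_pow, map_mul, map_inv] at h1
  exact (inv_mul_eq_one.1 h1).symm

theorem HypN.qq (H : HypN B a t b eps D u i j k) {G : Type} [Group G] (f : Q →* G) (hf : ∀ d ∈ D, f d = 1) :
    f (B.q t) * (f (B.q b))⁻¹ = f u ^ j := by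
  have h1 := hf _ H.mq
  rw [map_mul, map_inv, map_pow, map_mul, map_inv] at h1
  exact (inv_mul_eq_one.1 h1).symm

/-- `a` inverts `u` modulo `D`. -/
theorem HypN.qinv (H : HypN B a t b eps D u i j k) {G : Type} [Group G] (f : Q →* G) (hf : ∀ d ∈ D, f d = 1) :
    f (B.q a) * f u * (f (B.q a))⁻¹ = (f u)⁻¹ := by
  have hp := H.qp f hf
  have hq := H.qq f hf
  have ia : (f (B.q a))⁻¹ = f (B.q a) := inv_eq_of_mul_eq_one_right (by rw [← map_mul, H.ia, map_one])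
  have it : (f (B.q t))⁻¹ = f (B.q t) := inv_eq_of_mul_eq_one_right (by rw [← map_mul, H.it, map_one])
  have ib : (f (B.q b))⁻¹ = f (B.q b) := inv_eq_of_mul_eq_one_right (by rw [← map_mul, H.ib, map_one])
  -- conjugation by `a` as a homomorphism
  set c : G →* G := (MulAut.conj (f (B.q a))).toMonoidHom with hc
  have hcx : ∀ x, c x = f (B.q a) * x * (f (B.q a))⁻¹ := fun x => rfl
  have h1 : c (f u) ^ i = (f u ^ i)⁻¹ := by
    rw [← map_pow, hcx, ← hp, mul_inv_rev, inv_inv, it]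
    have : f (B.q a) * (f (B.q a) * f (B.q t)) * (f (B.q a))⁻¹ = f (B.q a) * f (B.q a) * f (B.q t) * (f (B.q a))⁻¹ := by
      group
    rw [this, ← map_mul f (B.q a), H.ia, map_one, one_mul]
  have h2 : c (f u) ^ j = (f u ^ j)⁻¹ := by
    have h3 : f (B.q t) * f u ^ j * (f (B.q t))⁻¹ = (f u ^ j)⁻¹ := by
      rw [← hq, mul_inv_rev, inv_inv, ← mul_assoc, ← map_mul f (B.q t), H.it, map_one, one_mul, ib]
    have h4 : f (B.q a) = f u ^ i * f (B.q t) := by rw [← hp, inv_mul_cancel_right]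
    rw [← map_pow, hcx]
    conv_lhs => rw [h4]
    have h5 : f u ^ i * f (B.q t) * f u ^ j * (f u ^ i * f (B.q t))⁻¹ =
        f u ^ i * (f (B.q t) * f u ^ j * (f (B.q t))⁻¹) * (f u ^ i)⁻¹ := by group
    rw [h5, h3, ← zpow_natCast, ← zpow_natCast, ← zpow_neg, ← zpow_add, ← zpow_neg, ← zpow_add]
    congr 1
    ring
  have h3 : c (f u) ^ (1 : ℤ) = (f u ^ (1 : ℤ))⁻¹ := by
    have h4 := Nat.gcd_eq_gcd_ab i j
    rw [H.cop] at h4
    have h5 : (1 : ℤ) = (i : ℤ) * i.gcdA j + (j : ℤ) * i.gcdB j := by rw [← h4]; rfl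
    rw [h5, zpow_add, zpow_mul, zpow_mul, zpow_natCast, zpow_natCast, h1, h2, zpow_add, zpow_mul, zpow_mul, zpow_natCast,
      zpow_natCast, mul_inv_rev, inv_zpow, inv_zpow]
    rw [← zpow_natCast, ← zpow_natCast, ← zpow_mul, ← zpow_mul, ← zpow_neg, ← zpow_neg, ← zpow_add, ← zpow_add]
    congr 1
    ring
  rw [zpow_one, zpow_one, hcx] at h3
  exact h3

/-! ### The positions -/

section pos

variable [D.Normal]

/-- The projection. -/
abbrev fD (D : Subgroup Q) [D.Normal] : Q →* Q ⧸ D := QuotientGroup.mk' D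

omit [D.Normal] in
theorem fD_iff (D : Subgroup Q) [D.Normal] (x : Q) : fD D x = 1 ↔ x ∈ D := QuotientGroup.eq_one_iff x

/-- `n` is a position of `x`. -/
def Ps (B : Lb.{0, 0} Q) (a : B.L) (eps : Q →* ℤˣ) (D : Subgroup Q) [D.Normal] (u : Q) (e : ℤ) (x : Q) (n : ℤ) : Prop :=
  (eps x = 1 ∧ fD D x = fD D u ^ n) ∨ (eps x = -1 ∧ fD D x = fD D u ^ (n - e) * fD D (B.q a))

theorem HypN.ps_pos (H : HypN B a t b eps D u i j k) {x : Q} (hx : eps x = 1) : ∃ n : ℤ, fD D x = fD D u ^ n := by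
  obtain ⟨n, d, hd, rfl⟩ := H.ker x hx
  exact ⟨n, by rw [map_mul, map_zpow, (fD_iff D d).2 hd, mul_one]⟩

theorem HypN.ps_ex (H : HypN B a t b eps D u i j k) (x : Q) : ∃ n, Ps B a eps D u ((i + j : ℕ) : ℤ) x n := by
  rcases Int.units_eq_one_or (eps x) with hx | hx
  · obtain ⟨n, hn⟩ := H.ps_pos hx
    exact ⟨n, Or.inl ⟨hx, hn⟩⟩
  · have h1 : eps (x * (B.q a)⁻¹) = 1 := by rw [map_mul, map_inv, hx, H.ea]; decide
    obtain ⟨n, hn⟩ := H.ps_pos h1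
    refine ⟨n + ((i + j : ℕ) : ℤ), Or.inr ⟨hx, ?_⟩⟩
    rw [add_sub_cancel_right, ← hn, map_mul, map_inv, inv_mul_cancel_right]

theorem HypN.u_dvd (H : HypN B a t b eps D u i j k) {n : ℤ} (h : fD D u ^ n = 1) : (orderOf u : ℤ) ∣ n := by
  rw [← map_zpow, fD_iff] at h
  exact orderOf_dvd_iff_zpow_eq_one.2 (H.dis h)

theorem HypN.ps_uniq (H : HypN B a t b eps D u i j k) {x : Q} {n n' : ℤ} (h : Ps B a eps D u ((i + j : ℕ) : ℤ) x n)
    (h' : Ps B a eps D u ((i + j : ℕ) : ℤ) x n') : (n : ZMod (orderOf u)) = (n' : ZMod (orderOf u)) := by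
  have key : ∀ m m' : ℤ, fD D u ^ m = fD D u ^ m' → (orderOf u : ℤ) ∣ m' - m := by
    intro m m' hm
    apply H.u_dvd
    rw [zpow_sub, hm, mul_inv_cancel]
  rw [ZMod.intCast_eq_intCast_iff_dvd_sub]
  rcases h with ⟨h1, h2⟩ | ⟨h1, h2⟩ <;> rcases h' with ⟨h1', h2'⟩ | ⟨h1', h2'⟩
  · exact key _ _ (h2.symm.trans h2')
  · rw [h1] at h1'; exact absurd h1' (by decide)
  · rw [h1] at h1'; exact absurd h1' (by decide)
  · have h3 := key _ _ (mul_right_cancel (h2.symm.trans h2'))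
    rwa [sub_sub_sub_cancel_right] at h3

/-- The position. -/
noncomputable def HypN.pos (H : HypN B a t b eps D u i j k) (x : Q) : ZMod (orderOf u) :=
  ((H.ps_ex x).choose : ZMod (orderOf u))

theorem HypN.pos_eq (H : HypN B a t b eps D u i j k) {x : Q} {n : ℤ} (h : Ps B a eps D u ((i + j : ℕ) : ℤ) x n) :
    H.pos x = (n : ZMod (orderOf u)) := H.ps_uniq (H.ps_ex x).choose_spec h

theorem HypN.qu (H : HypN B a t b eps D u i j k) (n : ℤ) :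
    fD D (B.q a) * fD D u ^ n = fD D u ^ (-n) * fD D (B.q a) := by
  have h1 := H.qinv (fD D) fun d hd => (fD_iff D d).2 hd
  have h2 : fD D (B.q a) * fD D u ^ n * (fD D (B.q a))⁻¹ = ((fD D u)⁻¹) ^ n := by
    rw [← h1, conj_zpow]
  rw [zpow_neg, ← inv_zpow, ← h2, inv_mul_cancel_right]

theorem HypN.ps_mul (H : HypN B a t b eps D u i j k) {x y : Q} {n m : ℤ} (h : Ps B a eps D u ((i + j : ℕ) : ℤ) x n)
    (h' : Ps B a eps D u ((i + j : ℕ) : ℤ) y m) : Ps B a eps D u ((i + j : ℕ) : ℤ) (x * y) (n + ((eps x : ℤˣ) : ℤ) * m) := by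
  have haa : fD D (B.q a) * fD D (B.q a) = 1 := by rw [← map_mul, H.ia, map_one]
  rcases h with ⟨h1, h2⟩ | ⟨h1, h2⟩ <;> rcases h' with ⟨h1', h2'⟩ | ⟨h1', h2'⟩
  · refine Or.inl ⟨by rw [map_mul, h1, h1', one_mul], ?_⟩
    rw [map_mul, h2, h2', h1, ← zpow_add]
    congr 1
    simp
  · refine Or.inr ⟨by rw [map_mul, h1, h1', one_mul], ?_⟩
    rw [map_mul, h2, h2', h1, ← mul_assoc, ← zpow_add]
    congr 2
    simp only [Units.val_one]
    ring
  · refine Or.inr ⟨by rw [map_mul, h1, h1', mul_one], ?_⟩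
    rw [map_mul, h2, h2', h1, mul_assoc, H.qu, ← mul_assoc, ← zpow_add]
    congr 2
    simp only [Units.val_neg, Units.val_one]
    ring
  · refine Or.inl ⟨by rw [map_mul, h1, h1']; decide, ?_⟩
    rw [map_mul, h2, h2', h1, mul_assoc, ← mul_assoc (fD D (B.q a)), H.qu, mul_assoc, haa, mul_one, ← zpow_add]
    congr 1
    simp only [Units.val_neg, Units.val_one]
    ring

theorem HypN.ps_a (H : HypN B a t b eps D u i j k) : Ps B a eps D u ((i + j : ℕ) : ℤ) (B.q a) ((i + j : ℕ) : ℤ) :=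
  Or.inr ⟨H.ea, by rw [sub_self, zpow_zero, one_mul]⟩

theorem HypN.ps_t (H : HypN B a t b eps D u i j k) : Ps B a eps D u ((i + j : ℕ) : ℤ) (B.q t) (j : ℤ) := by
  refine Or.inr ⟨H.et, ?_⟩
  have h1 := H.qp (fD D) fun d hd => (fD_iff D d).2 hd
  have h2 : fD D (B.q a) = fD D u ^ i * fD D (B.q t) := by rw [← h1, inv_mul_cancel_right]
  rw [h2, ← mul_assoc, ← zpow_natCast, ← zpow_add, show (j : ℤ) - ((i + j : ℕ) : ℤ) + (i : ℤ) = 0 by push_cast; ring,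
    zpow_zero, one_mul]

theorem HypN.ps_b (H : HypN B a t b eps D u i j k) : Ps B a eps D u ((i + j : ℕ) : ℤ) (B.q b) 0 := by
  refine Or.inr ⟨H.eb, ?_⟩
  have h1 := H.qp (fD D) fun d hd => (fD_iff D d).2 hd
  have h3 := H.qq (fD D) fun d hd => (fD_iff D d).2 hd
  have h2 : fD D (B.q a) = fD D u ^ (i + j) * fD D (B.q b) := by
    rw [pow_add, ← h1, ← h3]
    group
  rw [h2, ← mul_assoc, ← zpow_natCast, ← zpow_add, show (0 : ℤ) - ((i + j : ℕ) : ℤ) + ((i + j : ℕ) : ℤ) = 0 by ring,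
    zpow_zero, one_mul]

omit [D.Normal] in
theorem HypN.e_lt (H : HypN B a t b eps D u i j k) : i + j < orderOf u := by
  have h7 := H.big
  have h8 : 1 ≤ 100 * k ^ 3 := Nat.mul_pos (by norm_num) (Nat.pow_pos H.kpos)
  have h9 : i + j ≤ (i + j) ^ 3 := Nat.le_self_pow (by norm_num) _
  have h10 := Nat.mul_le_mul h8 h9
  omega

omit [D.Normal] in
theorem HypN.u_ne (H : HypN B a t b eps D u i j k) {n : ℕ} (h0 : 0 < n) (h1 : n ≤ i + j) : u ^ n ∉ D := by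
  intro h
  have h2 := H.dis (n := (n : ℤ)) (by rw [zpow_natCast]; exact h)
  rw [zpow_natCast] at h2
  have h3 := Nat.le_of_dvd h0 (orderOf_dvd_of_pow_eq_one h2)
  have h4 := H.e_lt
  omega

omit [D.Normal] in
theorem HypN.wk (H : HypN B a t b eps D u i j k) : (B.q a * (B.q b)⁻¹) ^ k = (u ^ (i + j)) ^ k := by
  have h1 : ((u ^ (i + j))⁻¹ * (B.q a * (B.q b)⁻¹)) ^ k = 1 := by
    have := H.fin
    have h2 : orderOf ((u ^ (i + j))⁻¹ * (B.q a * (B.q b)⁻¹)) ∣ Nat.card D := by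
      have := orderOf_dvd_natCard (⟨_, H.mw⟩ : D)
      rwa [Subgroup.orderOf_mk] at this
    exact orderOf_dvd_iff_pow_eq_one.1 (h2.trans H.card)
  have hw1 : eps (B.q a * (B.q b)⁻¹) = 1 := by rw [map_mul, map_inv, H.ea, H.eb]; decide
  have h2 : Commute (u ^ (i + j)) ((u ^ (i + j))⁻¹ * (B.q a * (B.q b)⁻¹)) := by
    refine (Commute.pow_left (H.cen _ ?_).symm _)
    rw [map_mul, map_inv, map_pow, H.eu, one_pow, hw1]; decide
  have h3 : B.q a * (B.q b)⁻¹ = u ^ (i + j) * ((u ^ (i + j))⁻¹ * (B.q a * (B.q b)⁻¹)) := by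
    rw [mul_inv_cancel_left]
  rw [h3, h2.mul_pow, h1, mul_one]

open Classical in
/-- The formal heights. -/
noncomputable def hgN {B : Lb.{0, 0} Q} (a t : B.L) (i j : ℕ) (s : B.L) : ℤ :=
  if s = a then ((i + j : ℕ) : ℤ) else if s = t then (j : ℤ) else 0

omit [D.Normal] in
theorem HypN.hg (H : HypN B a t b eps D u i j k) :
    hgN a t i j a = ((i + j : ℕ) : ℤ) ∧ hgN a t i j t = (j : ℤ) ∧ hgN a t i j b = 0 := by
  have hta : t ≠ a := by
    rintro rfl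
    have h1 := H.mp
    rw [mul_inv_cancel, mul_one] at h1
    exact H.u_ne H.ipos (by omega) (inv_mem_iff.1 h1)
  have hba : b ≠ a := by
    rintro rfl
    have h1 := H.mw
    rw [mul_inv_cancel, mul_one] at h1
    exact H.u_ne (by have := H.ipos; omega) le_rfl (inv_mem_iff.1 h1)
  have hbt : b ≠ t := by
    rintro rfl
    have h1 := H.mq
    rw [mul_inv_cancel, mul_one] at h1
    exact H.u_ne H.jpos (by omega) (inv_mem_iff.1 h1)
  unfold hgN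
  exact ⟨if_pos rfl, by rw [if_neg hta, if_pos rfl], by rw [if_neg hba, if_neg hbt]⟩

/-- The ring of a near triple. -/
theorem HypN.rg (H : HypN B a t b eps D u i j k) :
    H87.RgN B a b eps (orderOf u) H.pos (hgN a t i j) (i + j) k where
  ea := H.ea
  eb := H.eb
  kpos := H.kpos
  Lpos := by have := H.ipos; omega
  hL := by rw [H.hg.1, H.hg.2.2, zero_add]
  LM := H.e_lt.le
  mul x y := by
    have h1 := (H.ps_ex x).choose_spec
    have h2 := (H.ps_ex y).choose_spec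
    rw [H.pos_eq (H.ps_mul h1 h2), H.pos_eq h1, H.pos_eq h2]
    push_cast
    ring
  hp s := by
    rcases H.all s with rfl | rfl | rfl
    · rw [H.hg.1, H.pos_eq H.ps_a]
    · rw [H.hg.2.1, H.pos_eq H.ps_t]
    · rw [H.hg.2.2, H.pos_eq H.ps_b]
  per x hx := by
    rw [H.wk]
    exact ((Commute.pow_right (H.cen x hx) _).pow_right k).eq

omit [D.Normal] in
theorem HypN.eps_gN (H : HypN B a t b eps D u i j k) (s : Fin (i + j) × D) : eps (gN D u (i + j) s) = 1 := by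
  have h1 : eps (s.2 : Q) = 1 := H.leD s.2.2
  show eps (u ^ (s.1 : ℕ) * s.2) = 1
  rw [map_mul, map_pow, H.eu, one_pow, one_mul, h1]

theorem HypN.pos_gN (H : HypN B a t b eps D u i j k) (s : Fin (i + j) × D) :
    (H.pos (gN D u (i + j) s)).val = s.1 := by
  have h1 : Ps B a eps D u ((i + j : ℕ) : ℤ) (gN D u (i + j) s) ((s.1 : ℕ) : ℤ) := by
    refine Or.inl ⟨H.eps_gN s, ?_⟩
    show fD D (u ^ (s.1 : ℕ) * s.2) = _
    rw [map_mul, map_pow, (fD_iff D _).2 s.2.2, mul_one, zpow_natCast]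
  rw [H.pos_eq h1, Int.cast_natCast, ZMod.val_natCast, Nat.mod_eq_of_lt]
  have := s.1.2
  have := H.e_lt
  omega

theorem HypN.stn (H : HypN B a t b eps D u i j k) : H87.StN eps H.pos (i + j) (gN D u (i + j)) where
  inj := H.inj
  eps_g := H.eps_gN
  lt s := by rw [H.pos_gN]; exact s.1.2
  surj x hx hlt := by
    obtain ⟨n, hn⟩ := H.ps_pos hx
    have h1 := H.pos_eq (Or.inl ⟨hx, hn⟩)
    have : NeZero (orderOf u) := ⟨by have := H.e_lt; omega⟩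
    have h2 : (((H.pos x).val : ℕ) : ZMod (orderOf u)) = (n : ZMod (orderOf u)) := by
      rw [ZMod.natCast_zmod_val, h1]
    have h3 : ((((H.pos x).val : ℕ) : ℤ) : ZMod (orderOf u)) = (n : ZMod (orderOf u)) := by
      rw [Int.cast_natCast]; exact h2
    rw [ZMod.intCast_eq_intCast_iff_dvd_sub] at h3
    have h4 : fD D u ^ n = fD D u ^ (((H.pos x).val : ℕ) : ℤ) := by
      have h5 : u ^ (n - (((H.pos x).val : ℕ) : ℤ)) = 1 := orderOf_dvd_iff_zpow_eq_one.1 h3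
      have h6 : fD D u ^ (n - (((H.pos x).val : ℕ) : ℤ)) = 1 := by rw [← map_zpow, h5, map_one]
      rw [zpow_sub, mul_inv_eq_one] at h6
      exact h6
    have h7 : (u ^ (H.pos x).val)⁻¹ * x ∈ D := by
      rw [← fD_iff, map_mul, map_inv, map_pow, hn, h4, zpow_natCast, inv_mul_cancel]
    refine ⟨(⟨(H.pos x).val, hlt⟩, ⟨_, h7⟩), ?_⟩
    show u ^ (H.pos x).val * ((u ^ (H.pos x).val)⁻¹ * x) = x
    rw [mul_inv_cancel_left]

omit [D.Normal] in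
/-- The strand of `u ^ n δ`. -/
theorem HypN.g_stN (H : HypN B a t b eps D u i j k) [NeZero (i + j)] (n : ℤ) (δ : D) :
    gN D u (i + j) (stN (i + j) H.wD n δ) * (B.q a * (B.q b)⁻¹) ^ (n / ((i + j : ℕ) : ℤ)) = u ^ n * δ := by
  have he : ((i + j : ℕ) : ℤ) ≠ 0 := by exact_mod_cast NeZero.ne (i + j)
  have hc : ∀ (x : Q) (m : ℤ), eps x = 1 → x * u ^ m = u ^ m * x := fun x m hx =>
    (Commute.zpow_right (show Commute x u from H.cen x hx) m).eq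
  have hD : ∀ d : D, eps (d : Q) = 1 := fun d => H.leD d.2
  have hw : B.q a * (B.q b)⁻¹ = u ^ ((i + j : ℕ) : ℤ) * (H.wD : Q) := by
    show _ = _ * ((u ^ (i + j))⁻¹ * (B.q a * (B.q b)⁻¹))
    rw [zpow_natCast, mul_inv_cancel_left]
  have hwz : ∀ m : ℤ, (B.q a * (B.q b)⁻¹) ^ m = u ^ (((i + j : ℕ) : ℤ) * m) * ((H.wD ^ m : D) : Q) := by
    intro m
    have h1 : Commute (u ^ ((i + j : ℕ) : ℤ)) (H.wD : Q) := (hc _ _ (hD _)).symm
    rw [hw, h1.mul_zpow, ← zpow_mul, Subgroup.coe_zpow]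
  have h1 : gN D u (i + j) (stN (i + j) H.wD n δ) = u ^ (n % ((i + j : ℕ) : ℤ)) *
      ((δ : Q) * ((H.wD ^ (-(n / ((i + j : ℕ) : ℤ))) : D) : Q)) := by
    show u ^ ((n % ((i + j : ℕ) : ℤ)).toNat) * ((δ * H.wD ^ (-(n / ((i + j : ℕ) : ℤ))) : D) : Q) = _
    rw [← zpow_natCast, Int.toNat_of_nonneg (Int.emod_nonneg _ he), Subgroup.coe_mul]
  rw [h1, hwz]
  have h2 := hc ((δ : Q) * ((H.wD ^ (-(n / ((i + j : ℕ) : ℤ))) : D) : Q)) (((i + j : ℕ) : ℤ) * (n / ((i + j : ℕ) : ℤ)))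
    (by rw [map_mul, hD, hD, one_mul])
  calc u ^ (n % ((i + j : ℕ) : ℤ)) * ((δ : Q) * ((H.wD ^ (-(n / ((i + j : ℕ) : ℤ))) : D) : Q)) *
        (u ^ (((i + j : ℕ) : ℤ) * (n / ((i + j : ℕ) : ℤ))) * ((H.wD ^ (n / ((i + j : ℕ) : ℤ)) : D) : Q))
      = u ^ (n % ((i + j : ℕ) : ℤ)) * (((δ : Q) * ((H.wD ^ (-(n / ((i + j : ℕ) : ℤ))) : D) : Q)) *
        u ^ (((i + j : ℕ) : ℤ) * (n / ((i + j : ℕ) : ℤ)))) * ((H.wD ^ (n / ((i + j : ℕ) : ℤ)) : D) : Q) := by group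
    _ = (u ^ (n % ((i + j : ℕ) : ℤ)) * u ^ (((i + j : ℕ) : ℤ) * (n / ((i + j : ℕ) : ℤ)))) *
        ((δ * H.wD ^ (-(n / ((i + j : ℕ) : ℤ))) * H.wD ^ (n / ((i + j : ℕ) : ℤ)) : D) : Q) := by
        rw [h2, Subgroup.coe_mul, Subgroup.coe_mul]; group
    _ = u ^ n * δ := by
        rw [← zpow_add, Int.emod_add_mul_ediv, mul_assoc, ← zpow_add, neg_add_cancel, zpow_zero, mul_one]

omit [D.Normal] in
theorem HypN.w_zpow (H : HypN B a t b eps D u i j k) (m : ℤ) :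
    (B.q a * (B.q b)⁻¹) ^ m = u ^ (((i + j : ℕ) : ℤ) * m) * ((H.wD ^ m : D) : Q) := by
  have hw : B.q a * (B.q b)⁻¹ = u ^ ((i + j : ℕ) : ℤ) * (H.wD : Q) := by
    show _ = _ * ((u ^ (i + j))⁻¹ * (B.q a * (B.q b)⁻¹))
    rw [zpow_natCast, mul_inv_cancel_left]
  have h1 : Commute (u ^ ((i + j : ℕ) : ℤ)) (H.wD : Q) :=
    (Commute.zpow_right (show Commute (H.wD : Q) u from H.cen _ (H.leD H.wD.2)) _).symm
  rw [hw, h1.mul_zpow, ← zpow_mul, Subgroup.coe_zpow]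

end pos

end

/-- CLSN. -/
theorem clsN : ClsNS := by
  intro Q _ _ B a t b eps D u i j k H _ _
  have := H.nD
  have hi := H.ipos
  have hj := H.jpos
  have hk := H.kpos
  have hlt : i < i + j := by omega
  obtain ⟨X, x1, x2, x3, x4, x5, x6, x7⟩ := H87.exists_clsR H.rg H.stn H.et H.ipos hlt
    (by rw [H.hg.1, H.hg.2.1]; push_cast; ring)
  have hmR : ∀ r : RgN (i + j) k D, H87.mR (i + j) (H.pos (gN D u (i + j) r.1)).val i r.2 =
      (((r.1.1 : ℕ) : ℤ) + ((i + j : ℕ) : ℤ) * ((r.2 : ℕ) : ℤ) - i) / ((i + j : ℕ) : ℤ) := by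
    intro r
    unfold H87.mR
    rw [H.pos_gN]
  have hc : ∀ (x : Q) (m : ℤ), eps x = 1 → x * u ^ m = u ^ m * x := fun x m hx =>
    (Commute.zpow_right (show Commute x u from H.cen x hx) m).eq
  have hD : ∀ d : D, eps (d : Q) = 1 := fun d => H.leD d.2
  have hp : B.q t * (B.q a)⁻¹ = ((H.pD⁻¹ : D) : Q) * u ^ (-(i : ℤ)) := by
    have h1 : B.q a * (B.q t)⁻¹ = u ^ (i : ℤ) * (H.pD : Q) := by
      show _ = _ * ((u ^ i)⁻¹ * (B.q a * (B.q t)⁻¹))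
      rw [zpow_natCast, mul_inv_cancel_left]
    have h2 : B.q t * (B.q a)⁻¹ = (B.q a * (B.q t)⁻¹)⁻¹ := by group
    rw [h2, h1, mul_inv_rev, zpow_neg, Subgroup.coe_inv]
  refine ⟨X, ⟨x2, fun r => ?_, fun r => ?_, fun A hA => (x6 A hA).1, ?_⟩⟩
  · apply H.inj
    have h1 := x3 r
    rw [hmR] at h1
    have h2 := H.g_stN (((r.1.1 : ℕ) : ℤ) + ((i + j : ℕ) : ℤ) * ((r.2 : ℕ) : ℤ) - i)
      (r.1.2 * H.wD ^ (r.2 : ℕ) * H.pD⁻¹)
    apply mul_right_cancel (b := (B.q a * (B.q b)⁻¹) ^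
      ((((r.1.1 : ℕ) : ℤ) + ((i + j : ℕ) : ℤ) * ((r.2 : ℕ) : ℤ) - i) / ((i + j : ℕ) : ℤ)))
    refine h1.trans ((?_ : _ = _).trans h2.symm)
    have h3 := H.w_zpow ((r.2 : ℕ) : ℤ)
    rw [zpow_natCast] at h3
    have h4 := hc (r.1.2 : Q) (((i + j : ℕ) : ℤ) * ((r.2 : ℕ) : ℤ)) (hD _)
    have h5 := hc (((r.1.2 * H.wD ^ (r.2 : ℕ) * H.pD⁻¹ : D) : Q)) (-(i : ℤ)) (hD _)
    rw [mul_assoc _ (B.q t), hp, h3]
    show u ^ ((r.1.1 : ℕ)) * (r.1.2 : Q) * (u ^ (((i + j : ℕ) : ℤ) * ((r.2 : ℕ) : ℤ)) *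
      ((H.wD ^ ((r.2 : ℕ) : ℤ) : D) : Q)) * (((H.pD⁻¹ : D) : Q) * u ^ (-(i : ℤ))) = _
    calc u ^ ((r.1.1 : ℕ)) * (r.1.2 : Q) * (u ^ (((i + j : ℕ) : ℤ) * ((r.2 : ℕ) : ℤ)) *
          ((H.wD ^ ((r.2 : ℕ) : ℤ) : D) : Q)) * (((H.pD⁻¹ : D) : Q) * u ^ (-(i : ℤ)))
        = u ^ ((r.1.1 : ℕ)) * ((r.1.2 : Q) * u ^ (((i + j : ℕ) : ℤ) * ((r.2 : ℕ) : ℤ))) *
          ((H.wD ^ ((r.2 : ℕ) : ℤ) : D) : Q) * ((H.pD⁻¹ : D) : Q) * u ^ (-(i : ℤ)) := by group
      _ = u ^ ((r.1.1 : ℕ)) * u ^ (((i + j : ℕ) : ℤ) * ((r.2 : ℕ) : ℤ)) *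
          (((r.1.2 * H.wD ^ (r.2 : ℕ) * H.pD⁻¹ : D) : Q) * u ^ (-(i : ℤ))) := by
          rw [h4, zpow_natCast, Subgroup.coe_mul, Subgroup.coe_mul]; group
      _ = _ := by
          rw [h5, ← zpow_natCast, ← mul_assoc, ← zpow_add, ← zpow_add, sub_eq_add_neg]
  · refine (x5 r).trans ?_
    rw [Fintype.card_prod, Fintype.card_fin, ← Nat.card_eq_fintype_card]
    have h1 : Nat.card D ≤ k := Nat.le_of_dvd hk H.card
    unfold hN
    set e := i + j with he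
    have h2 : e * Nat.card D ≤ e * k := Nat.mul_le_mul_left e h1
    calc 2 * k * ((e * Nat.card D) ^ 2 + 3) ≤ 2 * k * ((e * k) ^ 2 + 3) := by gcongr
      _ ≤ 20 * (e + 1) ^ 4 * (k + 1) ^ 4 := by
        have a0 : (e * k) ^ 2 ≤ (e + 1) ^ 2 * (k + 1) ^ 2 := by
          rw [← mul_pow]
          exact Nat.pow_le_pow_left (Nat.mul_le_mul (by omega) (by omega)) 2
        have a0' : 1 ≤ (e + 1) ^ 2 * (k + 1) ^ 2 := Nat.mul_pos (Nat.pow_pos (by omega)) (Nat.pow_pos (by omega))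
        have a1 : (e * k) ^ 2 + 3 ≤ 4 * ((e + 1) ^ 2 * (k + 1) ^ 2) := by omega
        have a2 : 2 * k ≤ 2 * (k + 1) ^ 2 := by nlinarith
        calc 2 * k * ((e * k) ^ 2 + 3) ≤ 2 * (k + 1) ^ 2 * (4 * ((e + 1) ^ 2 * (k + 1) ^ 2)) := Nat.mul_le_mul a2 a1
          _ = 8 * (e + 1) ^ 2 * (k + 1) ^ 4 := by ring
          _ ≤ 20 * (e + 1) ^ 4 * (k + 1) ^ 4 := by
            gcongr
            · norm_num
            · omega
            · norm_num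
  · intro F _ V o hV ho
    have hwk := H.wk
    refine ⟨?_, fun A hA r hr s hs => ?_⟩
    · have h1 := x7 V o ho (by rw [hwk]; exact hV)
      have h2 : (fun r : RgN (i + j) k D => V.e (gN D u (i + j) r.1 * (B.q a * (B.q b)⁻¹) ^ (r.2 : ℕ)) t + drN i r.1 o) =
          fun r => V.e (gN D u (i + j) r.1 * (B.q a * (B.q b)⁻¹) ^ (r.2 : ℕ)) t + ((2 * ((r.2 : ℕ) : ℤ) -
            2 * H87.mR (i + j) (H.pos (gN D u (i + j) r.1)).val i r.2 - 1 : ℤ) : F) * o := by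
        funext r
        congr 1
        rw [hmR]
        have he : ((i + j : ℕ) : ℤ) ≠ 0 := by exact_mod_cast NeZero.ne (i + j)
        have hr1 := r.1.1.2
        unfold drN
        split_ifs with hci
        · have h3 : (((r.1.1 : ℕ) : ℤ) + ((i + j : ℕ) : ℤ) * ((r.2 : ℕ) : ℤ) - i) / ((i + j : ℕ) : ℤ) =
              ((r.2 : ℕ) : ℤ) - 1 := by
            rw [show ((r.1.1 : ℕ) : ℤ) + ((i + j : ℕ) : ℤ) * ((r.2 : ℕ) : ℤ) - i =
              (((r.1.1 : ℕ) : ℤ) + j) + ((i + j : ℕ) : ℤ) * (((r.2 : ℕ) : ℤ) - 1) by push_cast; ring,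
              Int.add_mul_ediv_left _ _ he, Int.ediv_eq_zero_of_lt (by positivity) (by push_cast; omega), zero_add]
          rw [h3]
          push_cast
          ring
        · have h3 : (((r.1.1 : ℕ) : ℤ) + ((i + j : ℕ) : ℤ) * ((r.2 : ℕ) : ℤ) - i) / ((i + j : ℕ) : ℤ) =
              ((r.2 : ℕ) : ℤ) := by
            rw [show ((r.1.1 : ℕ) : ℤ) + ((i + j : ℕ) : ℤ) * ((r.2 : ℕ) : ℤ) - i =
              (((r.1.1 : ℕ) : ℤ) - i) + ((i + j : ℕ) : ℤ) * ((r.2 : ℕ) : ℤ) by ring,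
              Int.add_mul_ediv_left _ _ he, Int.ediv_eq_zero_of_lt (by omega) (by push_cast; omega), zero_add]
          rw [h3]
          push_cast
          ring
      rw [h2]
      exact h1
    · exact (congrArg (V.vol ((H.up.U ^ X.lev r) (gN D u (i + j) s))) ((x6 A hA).2 r hr s hs)).trans (vol_strC ho _ _)

end Pool.Agent.Lib.MP_688fd0_co.SQ5.N
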