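import Pool.Agent.Lib.MP_688fd0_co.SQ5.H87.Ring

/-!
The class of the T-gadgets of one letter in a ring, with one rung for each vertex of `ker eps` in one period.
-/

set_option autoImplicit false

namespace Pool.Agent.Lib.MP_688fd0_co.SQ5.H87

open Pool.Agent.Lib.MP_688fd0_co.OSF Pool.Agent.Lib.MP_688fd0_co.SQ2 Pool.Agent.Lib.MP_688fd0_co.SQ3
open Pool.Agent.Lib.MP_688fd0_co.SQ4

universe v

section orient

variable {S : Type} [Fintype S] {Q : Type} [Group Q] [DecidableEq Q] {B : Lb.{0, v} Q} {U : Up B} {g : S → Q}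
  {inj : Function.Injective g} {e : ℕ}

/-- One rung from each pair `r`, `ι r`. -/
theorem exists_orient {R R' : Type} [Finite R'] (X : ClsW U g inj e R) (ι : R → R) (hx : ∀ r, X.x (ι r) = X.y r)
    (hy : ∀ r, X.y (ι r) = X.x r) (hτ : ∀ r, X.tau (ι r) = ι (X.tau r)) (hι : ∀ r, ι (ι r) = r)
    (o : R' → R) (ho : Function.Injective o) (h1 : ∀ r, (∃ r', o r' = r) ∨ ∃ r', o r' = ι r)
    (h2 : ∀ r r', o r' ≠ ι (o r)) :
    ∃ Y : ClsW U g inj e R', (∀ r, Y.lev r = X.lev (o r)) ∧ (∀ r, Y.H r = X.H (o r)) ∧ (∀ r, Y.x r = X.x (o r)) ∧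
      (∀ r, Y.y r = X.y (o r)) ∧ (∀ r, o (Y.tau r) = X.tau (o r) ∨ o (Y.tau r) = ι (X.tau (o r))) ∧
      (∀ r, (Y.W r).f = (X.W (o r)).f ∧ (Y.W r).path = (X.W (o r)).path ∧ (Y.W r).cup = (X.W (o r)).cup) ∧
      ∀ {F : Type} [CommRing F] (V : Ev B F) (cu : R → F), X.Cu V cu → (∀ r, cu (ι r) = - cu r) →
        Y.Cu V fun r => cu (o r) := by
  classical
  have hιi : Function.Injective ι := fun r r' h => by rw [← hι r, h, hι]
  -- the rung after `r`
  have h3 : ∀ r : R', ∃ r' : R', o r' = X.tau (o r) ∨ o r' = ι (X.tau (o r)) := by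
    intro r
    rcases h1 (X.tau (o r)) with ⟨r', h⟩ | ⟨r', h⟩
    · exact ⟨r', Or.inl h⟩
    · exact ⟨r', Or.inr h⟩
  choose tm htm using h3
  have hti : Function.Injective tm := by
    intro r r' h
    have a1 := htm r
    have a2 := htm r'
    rw [← h] at a2
    have key : ∀ r r' : R', X.tau (o r) = ι (X.tau (o r')) → False := by
      intro r r' h
      rw [← hτ] at h
      exact h2 _ _ (X.tau.injective h)
    rcases a1 with a1 | a1 <;> rcases a2 with a2 | a2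
    · exact ho (X.tau.injective (a1.symm.trans a2))
    · exact (key _ _ (a1.symm.trans a2)).elim
    · exact (key _ _ (a2.symm.trans a1)).elim
    · exact ho (X.tau.injective (hιi (a1.symm.trans a2)))
  -- the windows
  have h4 : ∀ r : R', ∃ W : TW B, W.L₀ = (X.W (o r)).L₀ ∧ W.L₁ = (X.W (o r)).L₁ ∧ W.u₀ = (X.W (o r)).u₀ ∧
      W.u₁ = (X.W (o r)).u₁ ∧ W.w₀ = (U.U ^ (X.lev (o r) + X.H (o r))) (g (X.x (o (tm r)))) ∧
      W.w₁ = (U.U ^ (X.lev (o r) + X.H (o r))) (g (X.y (o (tm r)))) ∧ W.R = (X.W (o r)).R ∧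
      W.f = (X.W (o r)).f ∧ W.path = (X.W (o r)).path ∧ W.cup = (X.W (o r)).cup ∧
      ∀ {F : Type} [CommRing F] (V : Ev B F) (cu : R → F), V.vol (X.W (o r)).w₀ (X.W (o r)).cap = cu (X.tau (o r)) →
        (∀ r, cu (ι r) = - cu r) → V.vol W.w₀ W.cap = cu (o (tm r)) := by
    intro r
    rcases htm r with h | h
    · refine ⟨X.W (o r), rfl, rfl, rfl, rfl, ?_, ?_, rfl, rfl, rfl, rfl, fun V cu h5 _ => ?_⟩
      · rw [X.w₀, h]
      · rw [X.w₁, h]
      · rw [h5, h]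
    · refine ⟨(X.W (o r)).flipCap, rfl, rfl, rfl, rfl, ?_, ?_, TW.flipCap_R _, rfl, rfl, rfl, fun V cu h5 h6 => ?_⟩
      · show (X.W (o r)).w₁ = _
        rw [X.w₁, h, hx]
      · show (X.W (o r)).w₀ = _
        rw [X.w₀, h, hy]
      · show V.vol (X.W (o r)).w₁ (B.rev (X.W (o r)).cap) = _
        rw [h, h6, ← h5, ← (X.W (o r)).cap_fin, V.vol_rev]
  choose W a1 a2 a3 a4 a5 a6 a7 a8 a9 a10 a11 using h4
  refine ⟨{ lev := fun r => X.lev (o r)
            lev_lt := fun r => X.lev_lt _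
            H := fun r => X.H (o r)
            x := fun r => X.x (o r)
            y := fun r => X.y (o r)
            tau := Equiv.ofBijective tm (Finite.injective_iff_bijective.1 hti)
            W := W
            L₀ := fun r => by rw [a1, X.L₀]
            L₁ := fun r => by rw [a2, X.L₁]
            u₀ := fun r => by rw [a3, X.u₀]
            u₁ := fun r => by rw [a4, X.u₁]
            w₀ := fun r => a5 r
            w₁ := fun r => a6 r
            reg := fun r => by rw [a7, X.reg] }, fun r => rfl, fun r => rfl, fun r => rfl, fun r => rfl, htm,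
            fun r => ⟨a8 r, a9 r, a10 r⟩, fun V cu hcu hio => ⟨fun r => ?_, fun r => a11 r V cu (hcu.cap _) hio⟩⟩
  show V.vol ((U.U ^ X.lev (o r)) (g (X.x (o r)))) (W r).cup = cu (o r)
  rw [a10, hcu.cup]

end orient

section cls

variable {S : Type} [Fintype S] {Q : Type} [Group Q] [DecidableEq Q] {B : Lb.{0, v} Q} {a b : B.L} {eps : Q →* ℤˣ}
  {M : ℕ} {pos : Q → ZMod M} {h : B.L → ℤ} {L k : ℕ} {g : S → Q} (H : RgN B a b eps M pos h L k)
  (G : StN eps pos L g) {t : B.L} (et : eps (B.q t) = -1) {i : ℕ} (hi : 0 < i) (hiL : i < L) (ht : h t + i = h a)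

include H in
omit [Fintype S] [DecidableEq Q] in
theorem wk_comm (m : ℕ) {x : Q} (hx : eps x = 1) :
    x * (B.q a * (B.q b)⁻¹) ^ (k * m) = (B.q a * (B.q b)⁻¹) ^ (k * m) * x := by
  rw [pow_mul]
  exact (Commute.pow_right (H.per x hx) m).eq

omit [Fintype S] [DecidableEq Q] in
theorem eps_vt_mod (y : ℕ) (s : S) : eps (vtN H G hi hiL (y % (L * k)) s) = eps (vtN H G hi hiL y s) := by
  conv_rhs => rw [← Nat.mod_add_div y (L * k)]
  induction y / (L * k) with
  | zero => rw [Nat.mul_zero, add_zero]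
  | succ c ih => rw [Nat.mul_succ, ← add_assoc, vtN_per, map_mul, H.eps_wp, one_mul, ih]

omit [Fintype S] [DecidableEq Q] in
theorem eps_vt_e {y c : ℕ} {s : S} (hc : nmN L i (pos (g s)).val y = 2 * c) : eps (vtN H G hi hiL y s) = 1 := by
  rw [vtN_e H G hi hiL hc, map_mul, G.eps_g, H.eps_wp, one_mul]

omit [Fintype S] [DecidableEq Q] in
theorem eps_vt_o {y c : ℕ} {s : S} (hc : nmN L i (pos (g s)).val y = 2 * c + 1) : eps (vtN H G hi hiL y s) = -1 := by
  rw [vtN_o H G hi hiL hc, map_mul, map_mul, G.eps_g, H.eps_wp, H.ea, one_mul, one_mul]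

/-- The index of the rung at the level `2 l` (modulo `2 k`). -/
def l2 (k l : ℕ) : ℕ := (l + 2 * k - 2) % k

theorem l2_lt {k l : ℕ} (hk : 0 < k) : l2 k l < k := Nat.mod_lt _ hk

theorem l2_add {k l : ℕ} (hl : l < k) : ∃ m : ℕ, l2 k l + 2 = l + k * m := by
  unfold l2
  by_cases h2 : 2 ≤ l
  · refine ⟨0, ?_⟩
    rw [show l + 2 * k - 2 = (l - 2) + k * 2 by omega, Nat.add_mul_mod_self_left, Nat.mod_eq_of_lt (by omega)]
    omega
  · by_cases hk : k = 1
    · refine ⟨2, ?_⟩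
      subst hk
      rw [Nat.mod_one]
      omega
    · refine ⟨1, ?_⟩
      rw [show l + 2 * k - 2 = (l + k - 2) + k * 1 by omega, Nat.add_mul_mod_self_left, Nat.mod_eq_of_lt (by omega)]
      omega

theorem l2_surj {k c : ℕ} (hc : c < k) : ∃ l < k, l2 k l = c := by
  have hk : 0 < k := by omega
  refine ⟨(c + 2) % k, Nat.mod_lt _ hk, ?_⟩
  unfold l2
  have h1 : (c + 2) % k + 2 * k - 2 + k * ((c + 2) / k) = c + k * 2 := by
    have := Nat.mod_add_div (c + 2) k
    omega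
  have h2 := congrArg (· % k) h1
  simp only [Nat.add_mul_mod_self_left] at h2
  rw [h2, Nat.mod_eq_of_lt hc]

theorem l2_inj {k l l' : ℕ} (hl : l < k) (hl' : l' < k) (h : l2 k l = l2 k l') : l = l' := by
  obtain ⟨m, hm⟩ := l2_add hl
  obtain ⟨m', hm'⟩ := l2_add hl'
  rw [h, hm'] at hm
  have h2 := congrArg (· % k) hm
  simp only [Nat.add_mul_mod_self_left, Nat.mod_eq_of_lt hl, Nat.mod_eq_of_lt hl'] at h2
  exact h2.symm

/-- The level of the other end of the rung: `(p + L l - i) / L`. -/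
def mR (L p i l : ℕ) : ℤ := ((p : ℤ) + L * l - i) / L

include H G et hi hiL ht in
/-- The class of the rungs of the letter `t`. -/
theorem exists_clsR : ∃ X : ClsW H.up g G.inj (2 * k) (S × Fin k),
    (∀ r, X.lev r = 0) ∧ (∀ r, X.x r = r.1) ∧
    (∀ r, g (X.y r) * (B.q a * (B.q b)⁻¹) ^ mR L (pos (g r.1)).val i r.2 =
      g r.1 * (B.q a * (B.q b)⁻¹) ^ (r.2 : ℕ) * B.q t * (B.q a)⁻¹) ∧
    (∀ r, 2 * k ∣ X.H r) ∧ (∀ r, X.H r ≤ 2 * k * ((Fintype.card S) ^ 2 + 3)) ∧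
    (∀ A : S → Prop, (∀ r, A (X.x r) ↔ A (X.y r)) → X.Clo A ∧ ∀ r, A (X.x r) → ∀ s, ¬ A s →
      (X.W r).path ((H.up.U ^ X.lev r) (g s)) = H.up.str (X.H r) ((H.up.U ^ X.lev r) (g s))) ∧
    ∀ {F : Type} [CommRing F] (V : Ev B F) (c₀ : F), (∀ x, V.e x (H.up.up x) = c₀) →
      V.Inv ((B.q a * (B.q b)⁻¹) ^ k) → X.Cu V fun r => V.e (g r.1 * (B.q a * (B.q b)⁻¹) ^ (r.2 : ℕ)) t +
        ((2 * ((r.2 : ℕ) : ℤ) - 2 * mR L (pos (g r.1)).val i r.2 - 1 : ℤ) : F) * c₀ := by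
  classical
  have hk := H.kpos
  have hL := H.Lpos
  have hY : 0 < L * k := Nat.mul_pos hL hk
  have : NeZero (L * k) := ⟨hY.ne'⟩
  set w : Q := B.q a * (B.q b)⁻¹ with hw
  let T : Tme S := tmN G hi hiL
  let P : ZMod (L * k) → Equiv.Perm S := fun κ => pmN H G et hi hiL ht κ.val
  let act : ZMod (L * k) → S → Prop := fun κ s => acS L i (pos (g s)).val κ.val
  let ρ : ZMod (L * k) → S → B.L := fun κ s => if eps (vtN H G hi hiL κ.val s) = 1 then t else B.inv t
  have hvc : ∀ y : ℕ, ((y : ℕ) : ZMod (L * k)).val = y % (L * k) := fun y => ZMod.val_natCast _ _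
  have hPc : ∀ y : ℕ, P (y : ZMod (L * k)) = pmN H G et hi hiL ht y := fun y => by
    show pmN H G et hi hiL ht ((y : ℕ) : ZMod (L * k)).val = _
    rw [hvc, pmN_mod]
  have hinv : ∀ κ s, P κ (P κ s) = s := fun κ s => pfN_inv H G et hi hiL ht _ s
  have hρ : ∀ (κ : ZMod (L * k)) (s : S), B.q (ρ κ s) = if eps (vtN H G hi hiL κ.val s) = 1 then B.q t else (B.q t)⁻¹ := by
    intro κ s
    show B.q (if _ then _ else _) = _
    split_ifs
    · rfl
    · rw [B.q_inv]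
  have hprt : ∀ (κ : ZMod (L * k)) (s : S) (x : Q), eps x = eps (vtN H G hi hiL κ.val s) →
      x * B.q (ρ κ s) = prtN B eps t x := by
    intro κ s x hx
    rw [hρ]
    unfold prtN
    rw [hx]
    split_ifs <;> rfl
  obtain ⟨X, x1, x2, x3, x4, x5, ⟨m, x6⟩, x7, x8, x9⟩ := exists_clsN (U := H.up) (g := g) (T := T) (Y := L * k)
    (e := 2 * k) (O := 2) hY (Nat.mul_pos Nat.two_pos hk) (vtN_inj H G hi hiL) G.inj (P := P) (ρ := ρ) (act := act)
    (D := fun _ => True)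
    (fun y s => by
      show acS L i (pos (g s)).val y ↔ acS L i (pos (g s)).val ((y : ℕ) : ZMod (L * k)).val
      rw [hvc]
      exact (acS_mod hiL (G.lt s) y).symm)
    (fun y s => nmN_per hiL (G.lt s))
    (fun s => by
      have h1 := nmN_zero (i := i) (G.lt s)
      show nmN L i (pos (g s)).val 0 ≤ _
      have : 4 ≤ 2 * k * 2 := by omega
      omega)
    (fun y s _ ha => by
      have ha' : acS L i (pos (g s)).val y := by
        rw [← acS_mod (k := k) hiL (G.lt s), ← hvc]; exact ha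
      have h1 := (pfN_act H G et hi hiL ht ha').2.1
      rw [hPc]
      refine (hprt _ _ _ ?_).trans h1.symm
      rw [hvc, eps_vt_mod]
      rfl)
    (fun κ s _ ha => (pfN_act H G et hi hiL ht ha).1)
    (fun κ s _ ha => pfN_not H G et hi hiL ht ha)
    (fun _ _ _ => trivial)
  -- the reversed rungs
  let ι : {r : ZMod (L * k) × S // True ∧ act r.1 r.2} → {r : ZMod (L * k) × S // True ∧ act r.1 r.2} := fun r =>
    ⟨(r.1.1, P r.1.1 r.1.2), trivial, (pfN_act H G et hi hiL ht r.2.2).1⟩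
  have hι : ∀ r, ι (ι r) = r := fun r => Subtype.ext (Prod.ext rfl (hinv _ _))
  have hιx : ∀ r, X.x (ι r) = X.y r := fun r => by rw [x2, x3]
  have hιy : ∀ r, X.y (ι r) = X.x r := fun r => by rw [x3, x2]; exact hinv _ _
  have hιt : ∀ r, X.tau (ι r) = ι (X.tau r) := by
    intro r
    obtain ⟨a1, a2, a3, a4, a5⟩ := x6 r
    obtain ⟨b1, b2, b3, b4, b5⟩ := x6 (ι r)
    have e1 : (ι r).1.1 = r.1.1 := rfl
    have e2 : (ι r).1.2 = P r.1.1 r.1.2 := rfl
    rw [e1, e2] at b3 b4 b5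
    rw [e1] at b2
    rw [hinv] at b4 b5
    have c1 : P (r.1.1 + m r) (RP (fun i => P (r.1.1 + i)) (m r) r.1.2) = RP (fun i => P (r.1.1 + i)) (m r) (P r.1.1 r.1.2) := by
      rw [← a4, ← a3, ← a2]
    have c2 : P (r.1.1 + m (ι r)) (RP (fun i => P (r.1.1 + i)) (m (ι r)) (P r.1.1 r.1.2)) =
        RP (fun i => P (r.1.1 + i)) (m (ι r)) r.1.2 := by
      rw [← b4, ← b3, ← b2]
    have hm : m (ι r) = m r := by
      rcases lt_trichotomy (m (ι r)) (m r) with hlt | heq | hgt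
      · exact (a5 _ b1 hlt (by rw [← c2, hinv])).elim
      · exact heq
      · exact (b5 _ a1 hgt (by rw [← c1, hinv])).elim
    refine Subtype.ext (Prod.ext ?_ ?_)
    · rw [b2, hm, ← a2]
    · show (X.tau (ι r)).1.2 = P (X.tau r).1.1 (X.tau r).1.2
      rw [b3, hm, a4]
  -- the rungs at the vertices of `ker eps`
  have hlt : ∀ r : S × Fin k, (pos (g r.1)).val + L * l2 k r.2 < L * k := by
    intro r
    have h1 := l2_lt (l := r.2) hk
    have h2 := G.lt r.1
    have h3 : L * (l2 k r.2 + 1) ≤ L * k := Nat.mul_le_mul_left L h1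
    rw [Nat.mul_add] at h3
    omega
  have hyv : ∀ r : S × Fin k, (((pos (g r.1)).val + L * l2 k r.2 : ℕ) : ZMod (L * k)).val =
      (pos (g r.1)).val + L * l2 k r.2 := fun r => by rw [hvc, Nat.mod_eq_of_lt (hlt r)]
  have hev : ∀ r : S × Fin k, nmN L i (pos (g r.1)).val ((pos (g r.1)).val + L * l2 k r.2) = 2 * (l2 k r.2 + 2) ∧
      acS L i (pos (g r.1)).val ((pos (g r.1)).val + L * l2 k r.2) := fun r =>
    nmN_even hi hiL (G.lt _) (by rw [Nat.mul_add]; ring)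
  let o : S × Fin k → {r : ZMod (L * k) × S // True ∧ act r.1 r.2} := fun r =>
    ⟨((((pos (g r.1)).val + L * l2 k r.2 : ℕ) : ZMod (L * k)), r.1), trivial, by
      show acS L i (pos (g r.1)).val (((pos (g r.1)).val + L * l2 k r.2 : ℕ) : ZMod (L * k)).val
      rw [hyv]; exact (hev r).2⟩
  have ho : Function.Injective o := by
    intro r r' h
    have h1 : r.1 = r'.1 := congrArg (fun a => a.1.2) h
    have h2 : (((pos (g r.1)).val + L * l2 k r.2 : ℕ) : ZMod (L * k)).val =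
      (((pos (g r'.1)).val + L * l2 k r'.2 : ℕ) : ZMod (L * k)).val := congrArg (fun a => ZMod.val a.1.1) h
    rw [hyv, hyv, h1] at h2
    have h3 := Nat.eq_of_mul_eq_mul_left hL (Nat.add_left_cancel h2)
    exact Prod.ext h1 (Fin.ext (l2_inj r.2.2 r'.2.2 h3))
  have hoe : ∀ r, eps (vtN H G hi hiL (o r).1.1.val (o r).1.2) = 1 := by
    intro r
    show eps (vtN H G hi hiL (((pos (g r.1)).val + L * l2 k r.2 : ℕ) : ZMod (L * k)).val r.1) = 1
    rw [hyv]
    exact eps_vt_e H G hi hiL (hev r).1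
  have hιe : ∀ r, eps (vtN H G hi hiL (ι r).1.1.val (ι r).1.2) = - eps (vtN H G hi hiL r.1.1.val r.1.2) := by
    intro r
    have h1 : vtN H G hi hiL (ι r).1.1.val (ι r).1.2 = prtN B eps t (vtN H G hi hiL r.1.1.val r.1.2) :=
      (pfN_act H G et hi hiL ht r.2.2).2.1
    rw [h1, eps_prt et]
  have ho2 : ∀ r r', o r' ≠ ι (o r) := by
    intro r r' h
    have h1 := hιe (o r)
    rw [← h, hoe, hoe] at h1
    exact absurd h1 (by decide)
  have ho0 : ∀ r : {r : ZMod (L * k) × S // True ∧ act r.1 r.2}, eps (vtN H G hi hiL r.1.1.val r.1.2) = 1 → ∃ r', o r' = r := by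
    intro r he
    rcases acS_cases hi hiL (G.lt r.1.2) r.2.2 with ⟨c, h1, h2⟩ | ⟨c, h1, h2⟩
    · have hlt' := ZMod.val_lt r.1.1
      have hc2 : 2 ≤ c := by
        by_contra h3
        have h4 : L * c ≤ L * 1 := Nat.mul_le_mul_left L (by omega)
        have := G.lt r.1.2
        omega
      have hck : c - 2 < k := by
        by_contra h3
        have h4 : L * (k + 2) ≤ L * c := Nat.mul_le_mul_left L (by omega)
        rw [Nat.mul_add] at h4
        omega
      obtain ⟨l, hl, hl2⟩ := l2_surj hck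
      refine ⟨(r.1.2, ⟨l, hl⟩), Subtype.ext (Prod.ext ?_ rfl)⟩
      show (((pos (g r.1.2)).val + L * l2 k l : ℕ) : ZMod (L * k)) = r.1.1
      rw [hl2, ← ZMod.natCast_zmod_val r.1.1]
      congr 1
      have h5 : L * c = L * (c - 2) + 2 * L := by
        conv_lhs => rw [show c = (c - 2) + 2 by omega]
        rw [Nat.mul_add]; ring
      omega
    · rw [eps_vt_o H G hi hiL h1] at he
      exact absurd he (by decide)
  obtain ⟨Y, y1, y2, y3, y4, y5, y6, y7⟩ := exists_orient X ι hιx hιy hιt hι o ho (fun r => by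
    rcases Int.units_eq_one_or (eps (vtN H G hi hiL r.1.1.val r.1.2)) with he | he
    · exact Or.inl (ho0 r he)
    · exact Or.inr (ho0 (ι r) (by rw [hιe, he]; decide))) ho2
  -- the other end of the rung `r`
  have hyr : ∀ r, X.y (o r) = pfN H G et hi hiL ht ((pos (g r.1)).val + L * l2 k r.2) r.1 := by
    intro r
    rw [x3]
    show pfN H G et hi hiL ht (((pos (g r.1)).val + L * l2 k r.2 : ℕ) : ZMod (L * k)).val r.1 = _
    rw [hyv]
  have hc' : ∀ r : S × Fin k, ∃ m : ℕ, l2 k r.2 + 2 = r.2 + k * m ∧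
      ((((pos (g r.1)).val + L * l2 k r.2 + 2 * L - i) / L : ℕ) : ℤ) = mR L (pos (g r.1)).val i r.2 + k * m := by
    intro r
    obtain ⟨m, hm⟩ := l2_add r.2.2
    refine ⟨m, hm, ?_⟩
    unfold mR
    have h1 : (((pos (g r.1)).val + L * l2 k r.2 + 2 * L - i : ℕ) : ℤ) =
        ((pos (g r.1)).val : ℤ) + L * ((r.2 : ℕ) : ℤ) - i + L * (k * m : ℤ) := by
      have h2 : (pos (g r.1)).val + L * l2 k r.2 + 2 * L = (pos (g r.1)).val + L * (l2 k r.2 + 2) := by ring
      rw [h2, hm, Nat.cast_sub (by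
        have h3 : L * 1 ≤ L * (r.2 + k * m) := Nat.mul_le_mul_left L (by rw [← hm]; omega)
        omega)]
      push_cast
      ring
    rw [Int.natCast_div, h1, Int.add_mul_ediv_left _ _ (by exact_mod_cast hL.ne')]
  have hvr : ∀ r : S × Fin k, vtN H G hi hiL ((pos (g r.1)).val + L * l2 k r.2) r.1 = g r.1 * w ^ (l2 k r.2 + 2) :=
    fun r => vtN_e H G hi hiL (hev r).1
  have hpr : ∀ r : S × Fin k, prtN B eps t (g r.1 * w ^ (l2 k r.2 + 2)) = g r.1 * w ^ (l2 k r.2 + 2) * B.q t :=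
    fun r => if_pos (by rw [map_mul, G.eps_g, H.eps_wp, one_mul])
  have hgy : ∀ r, g (X.y (o r)) = g r.1 * w ^ (l2 k r.2 + 2) * B.q t * (B.q a)⁻¹ *
      (w ^ (((pos (g r.1)).val + L * l2 k r.2 + 2 * L - i) / L))⁻¹ := by
    intro r
    have h1 := (pfN_act H G et hi hiL ht (hev r).2).2.2
    rw [hyr, h1, hvr, hpr]
    exact if_neg (by rw [map_mul, map_mul, G.eps_g, H.eps_wp, et]; decide)
  have hn1 : ∀ r, T.n ((pos (g r.1)).val + L * l2 k r.2) (X.y (o r)) =
      2 * (((pos (g r.1)).val + L * l2 k r.2 + 2 * L - i) / L) + 1 := by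
    intro r
    obtain ⟨h1, h2, -⟩ := pfN_act H G et hi hiL ht (hev r).2
    rw [hyr]
    rcases acS_cases hi hiL (G.lt _) h1 with ⟨c, h3, h4⟩ | ⟨c, h3, h4⟩
    · exfalso
      have h5 := eps_vt_e H G hi hiL h3
      rw [h2, eps_prt et, hvr, map_mul, G.eps_g, H.eps_wp] at h5
      exact absurd h5 (by decide)
    · refine h3.trans ?_
      have h6 := G.lt (pfN H G et hi hiL ht ((pos (g r.1)).val + L * l2 k r.2) r.1)
      have h5 : (pos (g r.1)).val + L * l2 k r.2 + 2 * L - i =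
          (pos (g (pfN H G et hi hiL ht ((pos (g r.1)).val + L * l2 k r.2) r.1))).val + L * c := by omega
      rw [h5, Nat.add_mul_div_left _ _ hL, Nat.div_eq_of_lt h6, zero_add]
  -- closed sets
  have hcA : ∀ A : S → Prop, (∀ r, A (Y.x r) ↔ A (Y.y r)) → ∀ r, A (X.x r) ↔ A (X.y r) := by
    intro A hA r
    rcases Int.units_eq_one_or (eps (vtN H G hi hiL r.1.1.val r.1.2)) with he | he
    · obtain ⟨r', rfl⟩ := ho0 r he
      rw [← y3, ← y4]
      exact hA r'
    · obtain ⟨r', h1⟩ := ho0 (ι r) (by rw [hιe, he]; decide)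
      rw [← hιx, ← hιy, ← h1, ← y3, ← y4]
      exact (hA r').symm
  refine ⟨Y, fun r => by rw [y1, x1], fun r => by rw [y3, x2], fun r => ?_, fun r => by rw [y2]; exact x4 _,
    fun r => by rw [y2]; exact x5 _, fun A hA => ?_, ?_⟩
  · obtain ⟨m, hm1, hm2⟩ := hc' r
    have h0 : eps (B.q t * (B.q a)⁻¹) = 1 := by rw [map_mul, map_inv, et, H.ea]; decide
    have h1 : B.q t * (B.q a)⁻¹ * w ^ (k * m) = w ^ (k * m) * (B.q t * (B.q a)⁻¹) := wk_comm H m h0
    have h2 : (w ^ (((pos (g r.1)).val + L * l2 k r.2 + 2 * L - i) / L))⁻¹ * w ^ mR L (pos (g r.1)).val i r.2 =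
        (w ^ (k * m))⁻¹ := by
      rw [← zpow_natCast, hm2, ← zpow_neg, ← zpow_add, ← zpow_natCast, ← zpow_neg]
      congr 1
      push_cast
      ring
    rw [y4, hgy, mul_assoc _ _ (w ^ mR L (pos (g r.1)).val i r.2), h2, hm1, pow_add]
    rw [show g r.1 * (w ^ (r.2 : ℕ) * w ^ (k * m)) * B.q t * (B.q a)⁻¹ * (w ^ (k * m))⁻¹ =
      g r.1 * w ^ (r.2 : ℕ) * (w ^ (k * m) * (B.q t * (B.q a)⁻¹)) * (w ^ (k * m))⁻¹ by group, ← h1,
      ← mul_assoc, ← mul_assoc, mul_inv_cancel_right]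
  · obtain ⟨c1, c2⟩ := x9 A (hcA A hA)
    refine ⟨⟨fun r hr => (hA r).1 hr, fun r hr => ?_, fun r hr s hs => ?_⟩, fun r hr s hs => ?_⟩
    · rw [y3] at hr ⊢
      have h1 := c1.tau (o r) hr
      rcases y5 r with h2 | h2
      · rw [h2]; exact h1
      · rw [h2, hιx]; exact (hcA A hA _).1 h1
    · rw [y3] at hr
      rw [(y6 r).1, y1, y2]
      exact c1.tok (o r) hr s hs
    · rw [y3] at hr
      rw [(y6 r).2.1, y1, y2]
      exact c2 (o r) hr s hs
  · intro F _ V c₀ hc hV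
    let n₀ : {r : ZMod (L * k) × S // True ∧ act r.1 r.2} → ℕ := fun r => T.n r.1.1.val (X.x r)
    let n₁ : {r : ZMod (L * k) × S // True ∧ act r.1 r.2} → ℕ := fun r => T.n r.1.1.val (X.y r)
    let lb : {r : ZMod (L * k) × S // True ∧ act r.1 r.2} → B.L := fun r => ρ r.1.1 (X.x r)
    have hX : ∀ r, X.x r = r.1.2 ∧ X.y r = P r.1.1 r.1.2 := fun r => ⟨x2 r, x3 r⟩
    have hvx : ∀ r, (H.up.U ^ n₀ r) (g (X.x r)) = vtN H G hi hiL r.1.1.val r.1.2 := fun r => by
      show (H.up.U ^ T.n r.1.1.val (X.x r)) (g (X.x r)) = _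
      rw [x2]; rfl
    have hvy : ∀ r, (H.up.U ^ n₁ r) (g (X.y r)) = prtN B eps t (vtN H G hi hiL r.1.1.val r.1.2) := fun r => by
      show (H.up.U ^ T.n r.1.1.val (X.y r)) (g (X.y r)) = _
      rw [x3]
      exact (pfN_act H G et hi hiL ht r.2.2).2.1
    have hl : ∀ r, lb r = if eps (vtN H G hi hiL r.1.1.val r.1.2) = 1 then t else B.inv t := fun r => by
      show ρ r.1.1 (X.x r) = _
      rw [x2]
    have hfin : ∀ r, (H.up.U ^ n₀ r) (g (X.x r)) * B.q (lb r) = (H.up.U ^ n₁ r) (g (X.y r)) := fun r => by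
      rw [hvx, hvy]
      show _ * B.q (ρ r.1.1 (X.x r)) = _
      rw [x2]
      exact hprt _ _ _ rfl
    have hcu := clsN_cu (X := X) (n₀ := n₀) (n₁ := n₁) (l := lb) x1 x7 hfin (fun r => by
      obtain ⟨c, h1, h2⟩ := x8 r
      exact ⟨c, h1 _, h1 _, h2⟩) H.Per_up V hc hV
    have hneg : ∀ r, ((n₀ (ι r) : F) * c₀ + V.e ((H.up.U ^ n₀ (ι r)) (g (X.x (ι r)))) (lb (ι r)) - (n₁ (ι r) : F) * c₀) =
        - ((n₀ r : F) * c₀ + V.e ((H.up.U ^ n₀ r) (g (X.x r))) (lb r) - (n₁ r : F) * c₀) := by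
      intro r
      have e1 : n₀ (ι r) = n₁ r := by
        show T.n r.1.1.val (X.x (ι r)) = T.n r.1.1.val (X.y r)
        rw [hιx]
      have e2 : n₁ (ι r) = n₀ r := by
        show T.n r.1.1.val (X.y (ι r)) = T.n r.1.1.val (X.x r)
        rw [hιy]
      have e3 : V.e ((H.up.U ^ n₀ (ι r)) (g (X.x (ι r)))) (lb (ι r)) = - V.e ((H.up.U ^ n₀ r) (g (X.x r))) (lb r) := by
        have h1 := hιe r
        rw [hl, hl, h1, e1, hιx, hvy, hvx]
        rcases Int.units_eq_one_or (eps (vtN H G hi hiL r.1.1.val r.1.2)) with he | he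
        · have h2 : prtN B eps t (vtN H G hi hiL r.1.1.val r.1.2) = vtN H G hi hiL r.1.1.val r.1.2 * B.q t := if_pos he
          rw [he, if_pos rfl, if_neg (by decide), h2, V.e_inv]
        · have h2 : prtN B eps t (vtN H G hi hiL r.1.1.val r.1.2) = vtN H G hi hiL r.1.1.val r.1.2 * (B.q t)⁻¹ :=
            if_neg (by rw [he]; decide)
          rw [he, neg_neg, if_pos rfl, if_neg (by decide), h2]
          have h3 := V.e_inv (vtN H G hi hiL r.1.1.val r.1.2 * (B.q t)⁻¹) t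
          rw [inv_mul_cancel_right] at h3
          rw [h3, neg_neg]
      rw [e3, e1, e2]
      ring
    have h5 := y7 V _ hcu hneg
    have h6 : (fun r : S × Fin k => V.e (g r.1 * w ^ (r.2 : ℕ)) t +
        ((2 * ((r.2 : ℕ) : ℤ) - 2 * mR L (pos (g r.1)).val i r.2 - 1 : ℤ) : F) * c₀) =
        fun r => ((n₀ (o r) : F) * c₀ + V.e ((H.up.U ^ n₀ (o r)) (g (X.x (o r)))) (lb (o r)) - (n₁ (o r) : F) * c₀) := by
      funext r
      obtain ⟨m, hm1, hm2⟩ := hc' r
      have e1 : n₀ (o r) = 2 * (l2 k r.2 + 2) := by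
        show T.n (((pos (g r.1)).val + L * l2 k r.2 : ℕ) : ZMod (L * k)).val (X.x (o r)) = _
        rw [hyv, x2]
        exact (hev r).1
      have e2 : n₁ (o r) = 2 * (((pos (g r.1)).val + L * l2 k r.2 + 2 * L - i) / L) + 1 := by
        show T.n (((pos (g r.1)).val + L * l2 k r.2 : ℕ) : ZMod (L * k)).val (X.y (o r)) = _
        rw [hyv]
        exact hn1 r
      have e3 : lb (o r) = t := by
        rw [hl]
        exact if_pos (hoe r)
      have e4 : (H.up.U ^ n₀ (o r)) (g (X.x (o r))) = w ^ (k * m) * (g r.1 * w ^ (r.2 : ℕ)) := by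
        rw [e1, x2]
        show (H.up.U ^ (2 * (l2 k r.2 + 2))) (g r.1) = _
        rw [H.U_even (G.eps_g _), hm1, pow_add, ← mul_assoc]
        exact wk_comm H m (by rw [map_mul, G.eps_g, H.eps_wp, one_mul])
      have e5 : V.e (w ^ (k * m) * (g r.1 * w ^ (r.2 : ℕ))) t = V.e (g r.1 * w ^ (r.2 : ℕ)) t := by
        rw [pow_mul]
        exact FamW.Inv_pow hV m _ _
      obtain ⟨c', hce⟩ : ∃ c', c' = ((pos (g r.1)).val + L * l2 k r.2 + 2 * L - i) / L := ⟨_, rfl⟩
      rw [← hce] at e2 hm2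
      have e6 : (n₀ (o r) : F) - (n₁ (o r) : F) =
          ((2 * ((r.2 : ℕ) : ℤ) - 2 * mR L (pos (g r.1)).val i r.2 - 1 : ℤ) : F) := by
        have h7 : ((n₀ (o r) : ℕ) : ℤ) - ((n₁ (o r) : ℕ) : ℤ) =
            2 * ((r.2 : ℕ) : ℤ) - 2 * mR L (pos (g r.1)).val i r.2 - 1 := by
          rw [e1, e2, hm1]
          push_cast
          rw [hm2]
          ring
        rw [← h7]
        push_cast
        ring
      rw [← e6, e3, e4, e5]
      ring
    rw [h6]
    exact h5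

end cls

end Pool.Agent.Lib.MP_688fd0_co.SQ5.H87
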