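import Pool.Agent.Lib.MP_688fd0_co.SQ5.H87.ClsR
import Pool.Agent.Lib.MP_688fd0_co.SQ5.N.Iface

/-!
The class of the rungs of one letter `t` between `a` and `b` in a local world: `a t⁻¹` in `u ^ i D`, `a b⁻¹` in `u ^ e D`,
`0 < i < e`; the other letters are arbitrary.
-/

set_option autoImplicit false

namespace Pool.Agent.Lib.MP_688fd0_co.SQ5.N

open Pool.Agent.Lib.MP_688fd0_co.OSF Pool.Agent.Lib.MP_688fd0_co.SQ2 Pool.Agent.Lib.MP_688fd0_co.SQ3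
open Pool.Agent.Lib.MP_688fd0_co.SQ4

/-- One letter `t` between `a` and `b`. -/
structure HypT {Q : Type} [Group Q] (B : Lb.{0, 0} Q) (a b t : B.L) (eps : Q →* ℤˣ) (D : Subgroup Q) (u : Q)
    (e i k : ℕ) : Prop where
  fin : Finite Q
  kpos : 0 < k
  nD : D.Normal
  leD : D ≤ eps.ker
  card : Nat.card D ∣ k
  eu : eps u = 1
  ea : eps (B.q a) = -1
  eb : eps (B.q b) = -1
  et : eps (B.q t) = -1
  ia : B.q a * B.q a = 1
  ipos : 0 < i
  ilt : i < e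
  cen : ∀ x : Q, eps x = 1 → x * u = u * x
  ker : ∀ x, eps x = 1 → ∃ n : ℤ, ∃ d ∈ D, x = u ^ n * d
  dis : ∀ n : ℤ, u ^ n ∈ D → u ^ n = 1
  elt : e < orderOf u
  mw : (u ^ e)⁻¹ * (B.q a * (B.q b)⁻¹) ∈ D
  mp : (u ^ i)⁻¹ * (B.q a * (B.q t)⁻¹) ∈ D
  inv : B.q a * u * (B.q a)⁻¹ = u⁻¹

section

variable {Q : Type} [Group Q] {B : Lb.{0, 0} Q} {a b t : B.L} {eps : Q →* ℤˣ} {D : Subgroup Q} {u : Q} {e i k : ℕ}

namespace HypT

/-- The `D`-part of `a b⁻¹`. -/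
def wD (H : HypT B a b t eps D u e i k) : D := ⟨_, H.mw⟩

/-- The `D`-part of `a t⁻¹`. -/
def pD (H : HypT B a b t eps D u e i k) : D := ⟨_, H.mp⟩

/-- The lines. -/
def up (H : HypT B a b t eps D u e i k) : Up B := upC B a b eps H.ea H.eb

theorem inj (H : HypT B a b t eps D u e i k) : Function.Injective (gN D u e) := by
  rintro ⟨c, d⟩ ⟨c', d'⟩ h
  have h0 : u ^ (c : ℕ) * (d : Q) = u ^ (c' : ℕ) * (d' : Q) := h
  have h1 : u ^ ((c : ℤ) - (c' : ℤ)) = (d' : Q) * (d : Q)⁻¹ := by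
    have h2 : Commute u (d : Q) := (H.cen _ (H.leD d.2)).symm
    have h3 : u ^ ((c : ℤ) - (c' : ℤ)) = (u ^ (c' : ℕ))⁻¹ * u ^ (c : ℕ) := by
      rw [sub_eq_neg_add, zpow_add, zpow_neg, zpow_natCast, zpow_natCast]
    rw [h3, eq_mul_inv_iff_mul_eq, mul_assoc, h0, inv_mul_cancel_left]
  have h4 := H.dis ((c : ℤ) - c') (by rw [h1]; exact D.mul_mem d'.2 (D.inv_mem d.2))
  have h5 : (orderOf u : ℤ) ∣ (c : ℤ) - c' := orderOf_dvd_iff_zpow_eq_one.2 h4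
  have h6 := H.elt
  have hc := c.2
  have hc' := c'.2
  have h7 : (c : ℤ) - c' = 0 := by
    apply Int.eq_zero_of_abs_lt_dvd h5
    rw [abs_lt]
    constructor <;> omega
  have h8 : c = c' := Fin.ext (by omega)
  subst h8
  have h9 : d = d' := Subtype.ext (mul_left_cancel h0)
  rw [h9]

theorem qp (H : HypT B a b t eps D u e i k) {G : Type} [Group G] (f : Q →* G) (hf : ∀ d ∈ D, f d = 1) :
    f (B.q a) * (f (B.q t))⁻¹ = f u ^ i := by
  have h1 := hf _ H.mp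
  rw [map_mul, map_inv, map_pow, map_mul, map_inv] at h1
  exact (inv_mul_eq_one.1 h1).symm

theorem qw (H : HypT B a b t eps D u e i k) {G : Type} [Group G] (f : Q →* G) (hf : ∀ d ∈ D, f d = 1) :
    f (B.q a) * (f (B.q b))⁻¹ = f u ^ e := by
  have h1 := hf _ H.mw
  rw [map_mul, map_inv, map_pow, map_mul, map_inv] at h1
  exact (inv_mul_eq_one.1 h1).symm

/-! ### The positions -/

section pos

variable [D.Normal]

/-- The projection. -/
abbrev fE (D : Subgroup Q) [D.Normal] : Q →* Q ⧸ D := QuotientGroup.mk' D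

omit [D.Normal] in
theorem fE_iff (D : Subgroup Q) [D.Normal] (x : Q) : fE D x = 1 ↔ x ∈ D := QuotientGroup.eq_one_iff x

/-- `n` is a position of `x`. -/
def Pt (B : Lb.{0, 0} Q) (a : B.L) (eps : Q →* ℤˣ) (D : Subgroup Q) [D.Normal] (u : Q) (e : ℤ) (x : Q) (n : ℤ) : Prop :=
  (eps x = 1 ∧ fE D x = fE D u ^ n) ∨ (eps x = -1 ∧ fE D x = fE D u ^ (n - e) * fE D (B.q a))

theorem ps_pos (H : HypT B a b t eps D u e i k) {x : Q} (hx : eps x = 1) : ∃ n : ℤ, fE D x = fE D u ^ n := by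
  obtain ⟨n, d, hd, rfl⟩ := H.ker x hx
  exact ⟨n, by rw [map_mul, map_zpow, (fE_iff D d).2 hd, mul_one]⟩

theorem ps_ex (H : HypT B a b t eps D u e i k) (x : Q) : ∃ n, Pt B a eps D u (e : ℤ) x n := by
  rcases Int.units_eq_one_or (eps x) with hx | hx
  · obtain ⟨n, hn⟩ := H.ps_pos hx
    exact ⟨n, Or.inl ⟨hx, hn⟩⟩
  · have h1 : eps (x * (B.q a)⁻¹) = 1 := by rw [map_mul, map_inv, hx, H.ea]; decide
    obtain ⟨n, hn⟩ := H.ps_pos h1
    refine ⟨n + (e : ℤ), Or.inr ⟨hx, ?_⟩⟩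
    rw [add_sub_cancel_right, ← hn, map_mul, map_inv, inv_mul_cancel_right]

theorem u_dvd (H : HypT B a b t eps D u e i k) {n : ℤ} (h : fE D u ^ n = 1) : (orderOf u : ℤ) ∣ n := by
  rw [← map_zpow, fE_iff] at h
  exact orderOf_dvd_iff_zpow_eq_one.2 (H.dis n h)

theorem ps_uniq (H : HypT B a b t eps D u e i k) {x : Q} {n n' : ℤ} (h : Pt B a eps D u (e : ℤ) x n)
    (h' : Pt B a eps D u (e : ℤ) x n') : (n : ZMod (orderOf u)) = (n' : ZMod (orderOf u)) := by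
  have key : ∀ m m' : ℤ, fE D u ^ m = fE D u ^ m' → (orderOf u : ℤ) ∣ m' - m := by
    intro m m' hm
    apply H.u_dvd
    rw [zpow_sub, hm, mul_inv_cancel]
  rw [ZMod.intCast_eq_intCast_iff_dvd_sub]
  rcases h with ⟨h1, h2⟩ | ⟨h1, h2⟩ <;> rcases h' with ⟨h1', h2'⟩ | ⟨h1', h2'⟩
  · exact key _ _ (h2.symm.trans h2')
  · rw [h1] at h1'; exact absurd h1' (by decide)
  · rw [h1] at h1'; exact absurd h1' (by decide)
  · have h3 := key _ _ (mul_right_cancel (h2.symm.trans h2'))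
    rwa [sub_sub_sub_cancel_right] at h3

/-- The position. -/
noncomputable def pos (H : HypT B a b t eps D u e i k) (x : Q) : ZMod (orderOf u) :=
  ((H.ps_ex x).choose : ZMod (orderOf u))

theorem pos_eq (H : HypT B a b t eps D u e i k) {x : Q} {n : ℤ} (h : Pt B a eps D u (e : ℤ) x n) :
    H.pos x = (n : ZMod (orderOf u)) := H.ps_uniq (H.ps_ex x).choose_spec h

theorem qu (H : HypT B a b t eps D u e i k) (n : ℤ) :
    fE D (B.q a) * fE D u ^ n = fE D u ^ (-n) * fE D (B.q a) := by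
  have h1 : fE D (B.q a) * fE D u * (fE D (B.q a))⁻¹ = (fE D u)⁻¹ := by
    rw [← map_inv, ← map_mul, ← map_mul, H.inv, map_inv]
  have h2 : fE D (B.q a) * fE D u ^ n * (fE D (B.q a))⁻¹ = ((fE D u)⁻¹) ^ n := by
    rw [← h1, conj_zpow]
  rw [zpow_neg, ← inv_zpow, ← h2, inv_mul_cancel_right]

theorem ps_mul (H : HypT B a b t eps D u e i k) {x y : Q} {n m : ℤ} (h : Pt B a eps D u (e : ℤ) x n)
    (h' : Pt B a eps D u (e : ℤ) y m) : Pt B a eps D u (e : ℤ) (x * y) (n + ((eps x : ℤˣ) : ℤ) * m) := by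
  have haa : fE D (B.q a) * fE D (B.q a) = 1 := by rw [← map_mul, H.ia, map_one]
  rcases h with ⟨h1, h2⟩ | ⟨h1, h2⟩ <;> rcases h' with ⟨h1', h2'⟩ | ⟨h1', h2'⟩
  · refine Or.inl ⟨by rw [map_mul, h1, h1', one_mul], ?_⟩
    rw [map_mul, h2, h2', h1, ← zpow_add]
    congr 1
    simp
  · refine Or.inr ⟨by rw [map_mul, h1, h1', one_mul], ?_⟩
    rw [map_mul, h2, h2', h1, ← mul_assoc, ← zpow_add]
    congr 2
    simp only [Units.val_one]
    ring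
  · refine Or.inr ⟨by rw [map_mul, h1, h1', mul_one], ?_⟩
    rw [map_mul, h2, h2', h1, mul_assoc, H.qu, ← mul_assoc, ← zpow_add]
    congr 2
    simp only [Units.val_neg, Units.val_one]
    ring
  · refine Or.inl ⟨by rw [map_mul, h1, h1']; decide, ?_⟩
    rw [map_mul, h2, h2', h1, mul_assoc, ← mul_assoc (fE D (B.q a)), H.qu, mul_assoc, haa, mul_one, ← zpow_add]
    congr 1
    simp only [Units.val_neg, Units.val_one]
    ring

theorem ps_a (H : HypT B a b t eps D u e i k) : Pt B a eps D u (e : ℤ) (B.q a) (e : ℤ) :=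
  Or.inr ⟨H.ea, by rw [sub_self, zpow_zero, one_mul]⟩

theorem ps_t (H : HypT B a b t eps D u e i k) : Pt B a eps D u (e : ℤ) (B.q t) ((e : ℤ) - i) := by
  refine Or.inr ⟨H.et, ?_⟩
  have h1 := H.qp (fE D) fun d hd => (fE_iff D d).2 hd
  have h2 : fE D (B.q a) = fE D u ^ i * fE D (B.q t) := by rw [← h1, inv_mul_cancel_right]
  rw [h2, ← mul_assoc, ← zpow_natCast, ← zpow_add, show (e : ℤ) - i - (e : ℤ) + (i : ℤ) = 0 by ring,
    zpow_zero, one_mul]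

theorem ps_b (H : HypT B a b t eps D u e i k) : Pt B a eps D u (e : ℤ) (B.q b) 0 := by
  refine Or.inr ⟨H.eb, ?_⟩
  have h1 := H.qw (fE D) fun d hd => (fE_iff D d).2 hd
  have h2 : fE D (B.q a) = fE D u ^ e * fE D (B.q b) := by rw [← h1, inv_mul_cancel_right]
  rw [h2, ← mul_assoc, ← zpow_natCast, ← zpow_add, show (0 : ℤ) - (e : ℤ) + (e : ℤ) = 0 by ring,
    zpow_zero, one_mul]

omit [D.Normal] in
theorem u_ne (H : HypT B a b t eps D u e i k) {n : ℕ} (h0 : 0 < n) (h1 : n ≤ e) : u ^ n ∉ D := by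
  intro h
  have h2 := H.dis (n : ℤ) (by rw [zpow_natCast]; exact h)
  rw [zpow_natCast] at h2
  have h3 := Nat.le_of_dvd h0 (orderOf_dvd_of_pow_eq_one h2)
  have h4 := H.elt
  omega

omit [D.Normal] in
theorem wk (H : HypT B a b t eps D u e i k) : (B.q a * (B.q b)⁻¹) ^ k = (u ^ e) ^ k := by
  have h1 : ((u ^ e)⁻¹ * (B.q a * (B.q b)⁻¹)) ^ k = 1 := by
    have := H.fin
    have h2 : orderOf ((u ^ e)⁻¹ * (B.q a * (B.q b)⁻¹)) ∣ Nat.card D := by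
      have := orderOf_dvd_natCard (⟨_, H.mw⟩ : D)
      rwa [Subgroup.orderOf_mk] at this
    exact orderOf_dvd_iff_pow_eq_one.1 (h2.trans H.card)
  have hw1 : eps (B.q a * (B.q b)⁻¹) = 1 := by rw [map_mul, map_inv, H.ea, H.eb]; decide
  have h2 : Commute (u ^ e) ((u ^ e)⁻¹ * (B.q a * (B.q b)⁻¹)) := by
    refine (Commute.pow_left (H.cen _ ?_).symm _)
    rw [map_mul, map_inv, map_pow, H.eu, one_pow, hw1]; decide
  have h3 : B.q a * (B.q b)⁻¹ = u ^ e * ((u ^ e)⁻¹ * (B.q a * (B.q b)⁻¹)) := by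
    rw [mul_inv_cancel_left]
  rw [h3, h2.mul_pow, h1, mul_one]

open Classical in
/-- The formal heights. -/
noncomputable def hgT (H : HypT B a b t eps D u e i k) (s : B.L) : ℤ :=
  if s = a then (e : ℤ) else if s = t then (e : ℤ) - i else if s = b then 0 else (H.ps_ex (B.q s)).choose

omit [D.Normal] in
theorem ne_ta (H : HypT B a b t eps D u e i k) : t ≠ a := by
  rintro rfl
  have h1 := H.mp
  rw [mul_inv_cancel, mul_one] at h1
  exact H.u_ne H.ipos H.ilt.le (inv_mem_iff.1 h1)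

omit [D.Normal] in
theorem ne_ba (H : HypT B a b t eps D u e i k) : b ≠ a := by
  rintro rfl
  have h1 := H.mw
  rw [mul_inv_cancel, mul_one] at h1
  exact H.u_ne (H.ipos.trans H.ilt) le_rfl (inv_mem_iff.1 h1)

omit [D.Normal] in
theorem ne_bt (H : HypT B a b t eps D u e i k) : b ≠ t := by
  rintro rfl
  have h1 := D.mul_mem (D.inv_mem H.mw) H.mp
  have h2 : ((u ^ e)⁻¹ * (B.q a * (B.q b)⁻¹))⁻¹ * ((u ^ i)⁻¹ * (B.q a * (B.q b)⁻¹)) =
      (B.q a * (B.q b)⁻¹)⁻¹ * (u ^ e * (u ^ i)⁻¹) * (B.q a * (B.q b)⁻¹) := by group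
  have h3 : u ^ e * (u ^ i)⁻¹ = u ^ (e - i) := by
    rw [mul_inv_eq_iff_eq_mul, ← pow_add, Nat.sub_add_cancel H.ilt.le]
  have h4 : (B.q a * (B.q b)⁻¹) * u ^ (e - i) = u ^ (e - i) * (B.q a * (B.q b)⁻¹) := by
    have h5 : eps (B.q a * (B.q b)⁻¹) = 1 := by rw [map_mul, map_inv, H.ea, H.eb]; decide
    exact (Commute.pow_right (show Commute (B.q a * (B.q b)⁻¹) u from H.cen _ h5) _).eq
  rw [h2, h3, mul_assoc, ← h4, inv_mul_cancel_left] at h1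
  exact H.u_ne (by have := H.ilt; omega) (Nat.sub_le _ _) h1

theorem hg (H : HypT B a b t eps D u e i k) :
    H.hgT a = (e : ℤ) ∧ H.hgT t = (e : ℤ) - i ∧ H.hgT b = 0 := by
  unfold hgT
  exact ⟨if_pos rfl, by rw [if_neg H.ne_ta, if_pos rfl], by rw [if_neg H.ne_ba, if_neg H.ne_bt, if_pos rfl]⟩

/-- The ring. -/
theorem rg (H : HypT B a b t eps D u e i k) : H87.RgN B a b eps (orderOf u) H.pos H.hgT e k where
  ea := H.ea
  eb := H.eb
  kpos := H.kpos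
  Lpos := H.ipos.trans H.ilt
  hL := by rw [H.hg.1, H.hg.2.2, zero_add]
  LM := H.elt.le
  mul x y := by
    have h1 := (H.ps_ex x).choose_spec
    have h2 := (H.ps_ex y).choose_spec
    rw [H.pos_eq (H.ps_mul h1 h2), H.pos_eq h1, H.pos_eq h2]
    push_cast
    ring
  hp s := by
    unfold hgT
    split_ifs with h1 h2 h3
    · rw [h1, H.pos_eq H.ps_a]
    · rw [h2, H.pos_eq H.ps_t]
    · rw [h3, H.pos_eq H.ps_b]
    · exact H.pos_eq (H.ps_ex _).choose_spec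
  per x hx := by
    rw [H.wk]
    exact ((Commute.pow_right (H.cen x hx) _).pow_right k).eq

omit [D.Normal] in
theorem eps_gN (H : HypT B a b t eps D u e i k) (s : Fin e × D) : eps (gN D u e s) = 1 := by
  have h1 : eps (s.2 : Q) = 1 := H.leD s.2.2
  show eps (u ^ (s.1 : ℕ) * s.2) = 1
  rw [map_mul, map_pow, H.eu, one_pow, one_mul, h1]

theorem pos_gN (H : HypT B a b t eps D u e i k) (s : Fin e × D) :
    (H.pos (gN D u e s)).val = s.1 := by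
  have h1 : Pt B a eps D u (e : ℤ) (gN D u e s) ((s.1 : ℕ) : ℤ) := by
    refine Or.inl ⟨H.eps_gN s, ?_⟩
    show fE D (u ^ (s.1 : ℕ) * s.2) = _
    rw [map_mul, map_pow, (fE_iff D _).2 s.2.2, mul_one, zpow_natCast]
  rw [H.pos_eq h1, Int.cast_natCast, ZMod.val_natCast, Nat.mod_eq_of_lt]
  have := s.1.2
  have := H.elt
  omega

theorem stn (H : HypT B a b t eps D u e i k) : H87.StN eps H.pos e (gN D u e) where
  inj := H.inj
  eps_g := H.eps_gN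
  lt s := by rw [H.pos_gN]; exact s.1.2
  surj x hx hlt := by
    obtain ⟨n, hn⟩ := H.ps_pos hx
    have h1 := H.pos_eq (Or.inl ⟨hx, hn⟩)
    have : NeZero (orderOf u) := ⟨by have := H.elt; omega⟩
    have h2 : (((H.pos x).val : ℕ) : ZMod (orderOf u)) = (n : ZMod (orderOf u)) := by
      rw [ZMod.natCast_zmod_val, h1]
    have h3 : ((((H.pos x).val : ℕ) : ℤ) : ZMod (orderOf u)) = (n : ZMod (orderOf u)) := by
      rw [Int.cast_natCast]; exact h2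
    rw [ZMod.intCast_eq_intCast_iff_dvd_sub] at h3
    have h4 : fE D u ^ n = fE D u ^ (((H.pos x).val : ℕ) : ℤ) := by
      have h5 : u ^ (n - (((H.pos x).val : ℕ) : ℤ)) = 1 := orderOf_dvd_iff_zpow_eq_one.1 h3
      have h6 : fE D u ^ (n - (((H.pos x).val : ℕ) : ℤ)) = 1 := by rw [← map_zpow, h5, map_one]
      rw [zpow_sub, mul_inv_eq_one] at h6
      exact h6
    have h7 : (u ^ (H.pos x).val)⁻¹ * x ∈ D := by
      rw [← fE_iff, map_mul, map_inv, map_pow, hn, h4, zpow_natCast, inv_mul_cancel]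
    refine ⟨(⟨(H.pos x).val, hlt⟩, ⟨_, h7⟩), ?_⟩
    show u ^ (H.pos x).val * ((u ^ (H.pos x).val)⁻¹ * x) = x
    rw [mul_inv_cancel_left]

omit [D.Normal] in
/-- The strand of `u ^ n δ`. -/
theorem g_stN (H : HypT B a b t eps D u e i k) [NeZero e] (n : ℤ) (δ : D) :
    gN D u e (stN e H.wD n δ) * (B.q a * (B.q b)⁻¹) ^ (n / (e : ℤ)) = u ^ n * δ := by
  have he : (e : ℤ) ≠ 0 := by exact_mod_cast NeZero.ne e
  have hc : ∀ (x : Q) (m : ℤ), eps x = 1 → x * u ^ m = u ^ m * x := fun x m hx =>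
    (Commute.zpow_right (show Commute x u from H.cen x hx) m).eq
  have hD : ∀ d : D, eps (d : Q) = 1 := fun d => H.leD d.2
  have hw : B.q a * (B.q b)⁻¹ = u ^ (e : ℤ) * (H.wD : Q) := by
    show _ = _ * ((u ^ e)⁻¹ * (B.q a * (B.q b)⁻¹))
    rw [zpow_natCast, mul_inv_cancel_left]
  have hwz : ∀ m : ℤ, (B.q a * (B.q b)⁻¹) ^ m = u ^ ((e : ℤ) * m) * ((H.wD ^ m : D) : Q) := by
    intro m
    have h1 : Commute (u ^ (e : ℤ)) (H.wD : Q) := (hc _ _ (hD _)).symm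
    rw [hw, h1.mul_zpow, ← zpow_mul, Subgroup.coe_zpow]
  have h1 : gN D u e (stN e H.wD n δ) = u ^ (n % (e : ℤ)) *
      ((δ : Q) * ((H.wD ^ (-(n / (e : ℤ))) : D) : Q)) := by
    show u ^ ((n % (e : ℤ)).toNat) * ((δ * H.wD ^ (-(n / (e : ℤ))) : D) : Q) = _
    rw [← zpow_natCast, Int.toNat_of_nonneg (Int.emod_nonneg _ he), Subgroup.coe_mul]
  rw [h1, hwz]
  have h2 := hc ((δ : Q) * ((H.wD ^ (-(n / (e : ℤ))) : D) : Q)) ((e : ℤ) * (n / (e : ℤ)))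
    (by rw [map_mul, hD, hD, one_mul])
  calc u ^ (n % (e : ℤ)) * ((δ : Q) * ((H.wD ^ (-(n / (e : ℤ))) : D) : Q)) *
        (u ^ ((e : ℤ) * (n / (e : ℤ))) * ((H.wD ^ (n / (e : ℤ)) : D) : Q))
      = u ^ (n % (e : ℤ)) * (((δ : Q) * ((H.wD ^ (-(n / (e : ℤ))) : D) : Q)) *
        u ^ ((e : ℤ) * (n / (e : ℤ)))) * ((H.wD ^ (n / (e : ℤ)) : D) : Q) := by group
    _ = (u ^ (n % (e : ℤ)) * u ^ ((e : ℤ) * (n / (e : ℤ)))) *
        ((δ * H.wD ^ (-(n / (e : ℤ))) * H.wD ^ (n / (e : ℤ)) : D) : Q) := by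
        rw [h2, Subgroup.coe_mul, Subgroup.coe_mul]; group
    _ = u ^ n * δ := by
        rw [← zpow_add, Int.emod_add_mul_ediv, mul_assoc, ← zpow_add, neg_add_cancel, zpow_zero, mul_one]

omit [D.Normal] in
theorem w_zpow (H : HypT B a b t eps D u e i k) (m : ℤ) :
    (B.q a * (B.q b)⁻¹) ^ m = u ^ ((e : ℤ) * m) * ((H.wD ^ m : D) : Q) := by
  have hw : B.q a * (B.q b)⁻¹ = u ^ (e : ℤ) * (H.wD : Q) := by
    show _ = _ * ((u ^ e)⁻¹ * (B.q a * (B.q b)⁻¹))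
    rw [zpow_natCast, mul_inv_cancel_left]
  have h1 : Commute (u ^ (e : ℤ)) (H.wD : Q) :=
    (Commute.zpow_right (show Commute (H.wD : Q) u from H.cen _ (H.leD H.wD.2)) _).symm
  rw [hw, h1.mul_zpow, ← zpow_mul, Subgroup.coe_zpow]

end pos

end HypT

end

/-- The class of the rungs of `t`. -/
theorem clsT {Q : Type} [Group Q] [DecidableEq Q] {B : Lb.{0, 0} Q} {a b t : B.L} {eps : Q →* ℤˣ} {D : Subgroup Q}
    {u : Q} {e i k : ℕ} (H : HypT B a b t eps D u e i k) [NeZero e] [Fintype D] :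
    ∃ X : ClsW H.up (gN D u e) H.inj (2 * k) (RgN e k D), (∀ r, X.lev r = 0) ∧ (∀ r, X.x r = r.1) ∧
      (∀ r, X.y r = yN e H.wD H.pD i k r) ∧ (∀ r, 2 * k ∣ X.H r) ∧ (∀ r, X.H r ≤ hN e k) ∧
      (∀ A : Fin e × D → Prop, (∀ r, A (X.x r) ↔ A (X.y r)) → X.Clo A) ∧
      ∀ {F : Type} [Field F] (V : Ev B F) (o : F), V.Inv ((u ^ e) ^ k) → (∀ x, V.e x (H.up.up x) = o) →
        X.Cu V (fun r => V.e (gN D u e r.1 * (B.q a * (B.q b)⁻¹) ^ (r.2 : ℕ)) t + drN i r.1 o) ∧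
          ∀ A : Fin e × D → Prop, (∀ r, A (X.x r) ↔ A (X.y r)) → X.Th V A o := by
  have := H.nD
  have hi := H.ipos
  have hk := H.kpos
  have hlt := H.ilt
  obtain ⟨X, x1, x2, x3, x4, x5, x6, x7⟩ := H87.exists_clsR H.rg H.stn H.et H.ipos hlt
    (by rw [H.hg.1, H.hg.2.1]; ring)
  have hmR : ∀ r : RgN e k D, H87.mR e (H.pos (gN D u e r.1)).val i r.2 =
      (((r.1.1 : ℕ) : ℤ) + (e : ℤ) * ((r.2 : ℕ) : ℤ) - i) / (e : ℤ) := by
    intro r
    unfold H87.mR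
    rw [H.pos_gN]
  have hc : ∀ (x : Q) (m : ℤ), eps x = 1 → x * u ^ m = u ^ m * x := fun x m hx =>
    (Commute.zpow_right (show Commute x u from H.cen x hx) m).eq
  have hD : ∀ d : D, eps (d : Q) = 1 := fun d => H.leD d.2
  have hp : B.q t * (B.q a)⁻¹ = ((H.pD⁻¹ : D) : Q) * u ^ (-(i : ℤ)) := by
    have h1 : B.q a * (B.q t)⁻¹ = u ^ (i : ℤ) * (H.pD : Q) := by
      show _ = _ * ((u ^ i)⁻¹ * (B.q a * (B.q t)⁻¹))
      rw [zpow_natCast, mul_inv_cancel_left]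
    have h2 : B.q t * (B.q a)⁻¹ = (B.q a * (B.q t)⁻¹)⁻¹ := by group
    rw [h2, h1, mul_inv_rev, zpow_neg, Subgroup.coe_inv]
  refine ⟨X, x1, x2, fun r => ?_, x4, fun r => ?_, fun A hA => (x6 A hA).1, ?_⟩
  · apply H.inj
    have h1 := x3 r
    rw [hmR] at h1
    have h2 := H.g_stN (((r.1.1 : ℕ) : ℤ) + (e : ℤ) * ((r.2 : ℕ) : ℤ) - i)
      (r.1.2 * H.wD ^ (r.2 : ℕ) * H.pD⁻¹)
    apply mul_right_cancel (b := (B.q a * (B.q b)⁻¹) ^
      ((((r.1.1 : ℕ) : ℤ) + (e : ℤ) * ((r.2 : ℕ) : ℤ) - i) / (e : ℤ)))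
    refine h1.trans ((?_ : _ = _).trans h2.symm)
    have h3 := H.w_zpow ((r.2 : ℕ) : ℤ)
    rw [zpow_natCast] at h3
    have h4 := hc (r.1.2 : Q) ((e : ℤ) * ((r.2 : ℕ) : ℤ)) (hD _)
    have h5 := hc (((r.1.2 * H.wD ^ (r.2 : ℕ) * H.pD⁻¹ : D) : Q)) (-(i : ℤ)) (hD _)
    rw [mul_assoc _ (B.q t), hp, h3]
    show u ^ ((r.1.1 : ℕ)) * (r.1.2 : Q) * (u ^ ((e : ℤ) * ((r.2 : ℕ) : ℤ)) *
      ((H.wD ^ ((r.2 : ℕ) : ℤ) : D) : Q)) * (((H.pD⁻¹ : D) : Q) * u ^ (-(i : ℤ))) = _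
    calc u ^ ((r.1.1 : ℕ)) * (r.1.2 : Q) * (u ^ ((e : ℤ) * ((r.2 : ℕ) : ℤ)) *
          ((H.wD ^ ((r.2 : ℕ) : ℤ) : D) : Q)) * (((H.pD⁻¹ : D) : Q) * u ^ (-(i : ℤ)))
        = u ^ ((r.1.1 : ℕ)) * ((r.1.2 : Q) * u ^ ((e : ℤ) * ((r.2 : ℕ) : ℤ))) *
          ((H.wD ^ ((r.2 : ℕ) : ℤ) : D) : Q) * ((H.pD⁻¹ : D) : Q) * u ^ (-(i : ℤ)) := by group
      _ = u ^ ((r.1.1 : ℕ)) * u ^ ((e : ℤ) * ((r.2 : ℕ) : ℤ)) *
          (((r.1.2 * H.wD ^ (r.2 : ℕ) * H.pD⁻¹ : D) : Q) * u ^ (-(i : ℤ))) := by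
          rw [h4, zpow_natCast, Subgroup.coe_mul, Subgroup.coe_mul]; group
      _ = _ := by
          rw [h5, ← zpow_natCast, ← mul_assoc, ← zpow_add, ← zpow_add, sub_eq_add_neg]
  · refine (x5 r).trans ?_
    rw [Fintype.card_prod, Fintype.card_fin, ← Nat.card_eq_fintype_card]
    have h1 : Nat.card D ≤ k := Nat.le_of_dvd hk H.card
    unfold hN
    have h2 : e * Nat.card D ≤ e * k := Nat.mul_le_mul_left e h1
    calc 2 * k * ((e * Nat.card D) ^ 2 + 3) ≤ 2 * k * ((e * k) ^ 2 + 3) := by gcongr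
      _ ≤ 20 * (e + 1) ^ 4 * (k + 1) ^ 4 := by
        have a0 : (e * k) ^ 2 ≤ (e + 1) ^ 2 * (k + 1) ^ 2 := by
          rw [← mul_pow]
          exact Nat.pow_le_pow_left (Nat.mul_le_mul (by omega) (by omega)) 2
        have a0' : 1 ≤ (e + 1) ^ 2 * (k + 1) ^ 2 := Nat.mul_pos (Nat.pow_pos (by omega)) (Nat.pow_pos (by omega))
        have a1 : (e * k) ^ 2 + 3 ≤ 4 * ((e + 1) ^ 2 * (k + 1) ^ 2) := by omega
        have a2 : 2 * k ≤ 2 * (k + 1) ^ 2 := by nlinarith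
        calc 2 * k * ((e * k) ^ 2 + 3) ≤ 2 * (k + 1) ^ 2 * (4 * ((e + 1) ^ 2 * (k + 1) ^ 2)) := Nat.mul_le_mul a2 a1
          _ = 8 * (e + 1) ^ 2 * (k + 1) ^ 4 := by ring
          _ ≤ 20 * (e + 1) ^ 4 * (k + 1) ^ 4 := by
            gcongr
            · norm_num
            · omega
            · norm_num
  · intro F _ V o hV ho
    have hwk := H.wk
    refine ⟨?_, fun A hA r hr s hs => ?_⟩
    · have h1 := x7 V o ho (by rw [hwk]; exact hV)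
      have h2 : (fun r : RgN e k D => V.e (gN D u e r.1 * (B.q a * (B.q b)⁻¹) ^ (r.2 : ℕ)) t + drN i r.1 o) =
          fun r => V.e (gN D u e r.1 * (B.q a * (B.q b)⁻¹) ^ (r.2 : ℕ)) t + ((2 * ((r.2 : ℕ) : ℤ) -
            2 * H87.mR e (H.pos (gN D u e r.1)).val i r.2 - 1 : ℤ) : F) * o := by
        funext r
        congr 1
        rw [hmR]
        have he : (e : ℤ) ≠ 0 := by exact_mod_cast NeZero.ne e
        have hr1 := r.1.1.2
        unfold drN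
        split_ifs with hci
        · have h3 : (((r.1.1 : ℕ) : ℤ) + (e : ℤ) * ((r.2 : ℕ) : ℤ) - i) / (e : ℤ) =
              ((r.2 : ℕ) : ℤ) - 1 := by
            rw [show ((r.1.1 : ℕ) : ℤ) + (e : ℤ) * ((r.2 : ℕ) : ℤ) - i =
              (((r.1.1 : ℕ) : ℤ) + (e - i)) + (e : ℤ) * (((r.2 : ℕ) : ℤ) - 1) by ring,
              Int.add_mul_ediv_left _ _ he, Int.ediv_eq_zero_of_lt (by omega) (by omega), zero_add]
          rw [h3]
          push_cast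
          ring
        · have h3 : (((r.1.1 : ℕ) : ℤ) + (e : ℤ) * ((r.2 : ℕ) : ℤ) - i) / (e : ℤ) =
              ((r.2 : ℕ) : ℤ) := by
            rw [show ((r.1.1 : ℕ) : ℤ) + (e : ℤ) * ((r.2 : ℕ) : ℤ) - i =
              (((r.1.1 : ℕ) : ℤ) - i) + (e : ℤ) * ((r.2 : ℕ) : ℤ) by ring,
              Int.add_mul_ediv_left _ _ he, Int.ediv_eq_zero_of_lt (by omega) (by omega), zero_add]
          rw [h3]
          push_cast
          ring
      rw [h2]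
      exact h1
    · exact (congrArg (V.vol ((H.up.U ^ X.lev r) (gN D u e s))) ((x6 A hA).2 r hr s hs)).trans (vol_strC ho _ _)

end Pool.Agent.Lib.MP_688fd0_co.SQ5.N
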