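import Pool.Agent.Lib.MP_688fd0_co.SQ5.H20.PathI

/-!
MP_688fd0_co, type C2, FAR-3, design B', row HPATH, part P1 (helper87): every wall path of a run is an `HPathC`.

`drift z`: the permutation of the strands which belongs to `8 e` levels (`z` = the element of Close.closing). `exists_drift`: it
fixes the strands which stay in the strips of width 4, and it is the drift of every wall path.
-/

set_option autoImplicit false

namespace Pool.Agent.Lib.MP_688fd0_co.SQ5.H87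

open Function Equiv
open Pool.Agent.Lib.MP_688fd0_co.OSF Pool.Agent.Lib.MP_688fd0_co.SQ5.H95 Pool.Agent.Lib.MP_688fd0_co.SQ5.H76
open Pool.Agent.Lib.MP_688fd0_co.SQ5.H20
open Pool.Agent.Lib.MP_688fd0_co.SQ5.H22 (CloG)

universe u v

namespace HP

section gen

variable {Q : Type*} [Group Q]

theorem comm_gz {f : ℤ → Q} {z : Q} (h : ∀ s, Commute z (f s)) (m n : ℤ) : Commute z (gz f m n) := by
  induction n using Int.induction_on with
  | zero => rw [gz_zero]; exact Commute.one_right z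
  | succ n ih => rw [gz_succ]; exact ih.mul_right (h _)
  | pred n ih =>
    have e : gz f m (-(n : ℤ)) = gz f m (-(n : ℤ) - 1) * f (m + (-(n : ℤ) - 1)) := by
      rw [← gz_succ]
      congr 1
      ring
    rw [e] at ih
    have h1 := ih.mul_right (h (m + (-(n : ℤ) - 1))).inv_right
    rwa [mul_inv_cancel_right] at h1

theorem gz_congr {f f' : ℤ → Q} {m m' : ℤ} (h : ∀ i : ℤ, f (m + i) = f' (m' + i)) (n : ℤ) : gz f m n = gz f' m' n := by
  induction n using Int.induction_on with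
  | zero => rw [gz_zero, gz_zero]
  | succ n ih => rw [gz_succ, gz_succ, ih, h]
  | pred n ih =>
    have e : ∀ (f : ℤ → Q) (m : ℤ), gz f m (-(n : ℤ)) = gz f m (-(n : ℤ) - 1) * f (m + (-(n : ℤ) - 1)) := by
      intro f m
      rw [← gz_succ]
      congr 1
      ring
    rw [e, e, h] at ih
    exact mul_right_cancel ih

end gen

variable {Q : Type u} [Group Q] {B : Lb.{u, v} Q} {l : L3 → B.L} {L : AddSubgroup (ℤ × ℤ)}
variable {c : Cov B l L} {D : Bd} {s0 κ0 κ1 ph c0 : ℤ} {w : ℕ}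

/-- The element `z` of `P` levels: commutes with everything, is the value of the walls and of the strands in strips of width 4. -/
structure Zd (q : L3 → Q) (P : ℕ) (z : Q) : Prop where
  ca : Commute z (q .a * q .t)
  cb : Commute z (q .b * q .t)
  wal : ∀ m, H20.pr (LG (q .a) (q .b) (q .t)) m P = z
  str : ∀ m, H20.pr (SG (q .a) (q .b) (q .t)) m P = z
  hol : ∀ m, KG (q .a) (q .b) (q .t) m * H20.pr (SG (q .a) (q .b) (q .t)) (m + 1) P = z * KG (q .a) (q .b) (q .t) m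

theorem exists_zd [Finite Q] (N : Subgroup Q) [N.Normal] (hN : IsCyclic N) (hco : (Nat.card N).Coprime N.index) {e : ℕ}
    (he : N.index ∣ e) (hi : ∀ i, B.inv (l i) = l i) : ∃ z ∈ N, Zd (qq B l) (8 * e) z := by
  obtain ⟨z, h0, h1, h2, h3, h4, h5⟩ := closing N hN hco (qq_sq hi .a) (qq_sq hi .b) (qq_sq hi .t) he
  exact ⟨z, h0, h1.symm, h2.symm, h3, h4, h5⟩

section drift

variable {P : ℕ} {z : Q} (hZ : Zd (qq B l) P z) (hP : (8 : ℤ) ∣ P) (H : RunD D s0 ph c0 w) (hi : ∀ i, B.inv (l i) = l i)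

include hZ in
theorem comm_LL (b : Bool) : Commute z (Bd.LL (qq B l) b) := by
  unfold Bd.LL wl
  split_ifs
  · exact hZ.ca
  · exact hZ.cb

include hZ in
theorem comm_KK (b : Bool) : Commute z (Bd.KK (qq B l) b) := by
  unfold Bd.KK ow
  split_ifs
  · exact hZ.cb
  · exact hZ.ca

include hZ hi in
theorem comm_stp (κ s : ℤ) : Commute z (D.stp (qq B l) κ s) := by
  rw [D.stp_eq (qq_sq hi)]
  exact (comm_KK hZ _).mul_right (((comm_LL hZ _).inv_right.mul_right (comm_KK hZ _)).pow_right _)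

include hZ H in
/-- the wall -/
theorem gz_LL (m : ℤ) : gz (fun s => Bd.LL (qq B l) (D.b s)) (s0 + m) P = z := by
  rw [gz_nat, ← hZ.wal (ph + m)]
  refine H20.pr_congr P fun i _ => ?_
  have h := H.LL (B := B) (l := l) (m + i)
  rw [← add_assoc, ← add_assoc] at h
  exact h

include hP H in
theorem cs_per (m : ℤ) : D.cs (s0 + (m + P)) = D.cs (s0 + m) := by
  rw [H.cs, H.cs]
  obtain ⟨k, hk⟩ := hP
  refine col_congr ?_
  have e : ph + (m + P) = ph + m + 8 * k := by rw [hk]; ring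
  rw [e, Int.add_mul_emod_self_left]

include hP H in
theorem b_per (m : ℤ) : D.b (s0 + (m + P)) = D.b (s0 + m) := by
  rw [H.b, H.b]
  obtain ⟨k, hk⟩ := hP
  refine bw_congr ?_
  have e : ph + (m + P) = ph + m + 8 * k := by rw [hk]; ring
  rw [e, Int.add_mul_emod_self_left]

include hP H in
theorem stp_per (κ m : ℤ) : D.stp (qq B l) κ (s0 + (m + P)) = D.stp (qq B l) κ (s0 + m) := by
  unfold Bd.stp Bd.ln Bd.sp
  rw [b_per hP H, cs_per hP H]

include hZ hP H hi in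
theorem over_drift {κ : ℤ} {x : Q} (hx : c.Over x (D.st κ s0 0)) :
    c.Over (x * z * (gz (D.stp (qq B l) κ) s0 P)⁻¹) (D.st κ s0 0) := by
  set J := κ - D.cs s0 with hJ
  have hW : Wl c D s0 J (J + 2) J x := by
    refine ⟨?_, fun m => ?_, fun m => ?_⟩
    · rw [hJ, sub_add_cancel]
      exact hx
    · have := (H.cs_range m).1
      omega
    · have := (H.cs_range m).2
      omega
  have h1 := hW.over hi P
  have e1 : J + D.cs (s0 + P) = κ := by
    have h2 := cs_per hP H 0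
    rw [zero_add, add_zero] at h2
    rw [h2, hJ, sub_add_cancel]
  have e2 : wx B l D s0 x P = x * z := by
    unfold wx
    have h2 := gz_LL hZ H 0
    rw [add_zero] at h2
    rw [h2]
  rw [e1, e2] at h1
  have h3 := c.over_pos hi D s0 κ (x := x * z * (gz (D.stp (qq B l) κ) s0 P)⁻¹) P 0
  have e3 : x * z * (gz (D.stp (qq B l) κ) s0 P)⁻¹ * D.pos (qq B l) s0 κ P 0 = x * z := by
    unfold Bd.pos
    rw [Bd.lw_zero, mul_one, inv_mul_cancel_right]
  rw [e3] at h3
  exact h3.1 h1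

/-- the drift -/
def driftF (s : Sd c D s0 κ0 κ1) : Sd c D s0 κ0 κ1 :=
  ⟨(s.1.1, s.1.2 * z * (gz (D.stp (qq B l) s.1.1) s0 P)⁻¹), s.2.1, s.2.2.1, over_drift hZ hP H hi s.2.2.2⟩

theorem driftF_inj : Injective (driftF (c := c) (κ0 := κ0) (κ1 := κ1) hZ hP H hi) := by
  intro s s' h
  have h1 : s.1.1 = s'.1.1 := congrArg (fun x => x.1.1) h
  have h2 : s.1.2 * z * (gz (D.stp (qq B l) s.1.1) s0 P)⁻¹ = s'.1.2 * z * (gz (D.stp (qq B l) s'.1.1) s0 P)⁻¹ :=
    congrArg (fun x => x.1.2) h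
  rw [h1] at h2
  exact Subtype.ext (Prod.ext h1 (mul_right_cancel (mul_right_cancel h2)))

/-- the drift -/
noncomputable def drift [Finite Q] : Perm (Sd c D s0 κ0 κ1) :=
  Equiv.ofBijective (driftF hZ hP H hi) (Finite.injective_iff_bijective.1 (driftF_inj hZ hP H hi))

variable [Finite Q]

theorem drift_κ (s : Sd c D s0 κ0 κ1) : (drift hZ hP H hi s).1.1 = s.1.1 := rfl

theorem drift_x (s : Sd c D s0 κ0 κ1) :
    (drift hZ hP H hi s).1.2 = s.1.2 * z * (gz (D.stp (qq B l) s.1.1) s0 P)⁻¹ := rfl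

/-- Strands in the strips of width 4 do not drift. -/
theorem drift_fix (s : Sd c D s0 κ0 κ1) (h0 : c0 + 3 ≤ s.1.1) (h1 : s.1.1 ≤ c0 + w) : drift hZ hP H hi s = s := by
  have h2 : gz (D.stp (qq B l) s.1.1) s0 P = z := by
    rw [gz_nat, ← hZ.str ph]
    refine H20.pr_congr P fun i _ => H.stp2 hi (m := i) ?_
    rcases H.sp s.1.1 i with ⟨h, -⟩ | ⟨h, -⟩
    · rw [h]; exact H.hM _ (by omega) (by omega)
    · rw [h]; exact H.hM _ (by omega) (by omega)
  refine Subtype.ext (Prod.ext rfl ?_)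
  rw [drift_x, h2, mul_inv_cancel_right]

/-- The drift of a strand in block `m`. -/
theorem ps_drift (s : Sd c D s0 κ0 κ1) (m : ℤ) : ps (drift hZ hP H hi s) (m + P) = ps s m * z := by
  have e1 : gz (D.stp (qq B l) s.1.1) s0 (m + P) = gz (D.stp (qq B l) s.1.1) s0 P * gz (D.stp (qq B l) s.1.1) s0 m := by
    rw [add_comm m, gz_add]
    congr 1
    refine gz_congr (fun i => ?_) m
    have h := stp_per (B := B) (l := l) hP H s.1.1 i
    have e : s0 + (P : ℤ) + i = s0 + (i + P) := by ring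
    rw [e]
    exact h
  unfold ps
  rw [drift_x, drift_κ, e1]
  have h2 : Commute z (gz (D.stp (qq B l) s.1.1) s0 m) := comm_gz (fun s' => comm_stp hZ hi _ s') s0 m
  have h3 : s.1.2 * z * (gz (D.stp (qq B l) s.1.1) s0 P)⁻¹ *
      (gz (D.stp (qq B l) s.1.1) s0 P * gz (D.stp (qq B l) s.1.1) s0 m) =
      s.1.2 * (z * gz (D.stp (qq B l) s.1.1) s0 m) := by group
  rw [h3, h2.eq, mul_assoc]

/-- The drift of a wall path. -/
theorem wp_drift {J : ℤ} {y : Q} (hW : Wl c D s0 κ0 κ1 J y) (m : ℤ) :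
    wp hi hW (m + P) = drift hZ hP H hi (wp hi hW m) := by
  symm
  refine wp_eq hi hW (m := m + P) ?_ ?_
  · rw [drift_κ, wp_κ, cs_per hP H]
  · rw [ps_drift, ps_wp]
    unfold wx
    rw [gz_add, gz_LL hZ H, mul_assoc]

end drift

theorem wd_mod (J : ℤ) {x x' : ℤ} (h : x % 8 = x' % 8) : wd J x = wd J x' := by
  unfold wd
  rw [h]

theorem wd_J (J x : ℤ) : wd J x = wd 0 x + J := by
  have := wd_add 0 x J
  rwa [zero_add] at this

section clo

variable {a b t : Q}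

theorem B8_mod {x y : ℤ} (h : x % 8 = y % 8) : B8 x ↔ B8 y := by
  unfold B8
  rw [h]

theorem LG_mod (a b t : Q) {x y : ℤ} (h : x % 8 = y % 8) : LG a b t x = LG a b t y := by
  unfold LG
  simp only [B8_mod h]

theorem KG_mod (a b t : Q) {x y : ℤ} (h : x % 8 = y % 8) : KG a b t x = KG a b t y := by
  unfold KG
  simp only [B8_mod h]

theorem SG_mod (a b t : Q) {x y : ℤ} (h : x % 8 = y % 8) : SG a b t x = SG a b t y := by
  unfold SG
  rw [LG_mod a b t h, KG_mod a b t h]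

theorem CloG_mod (a b t : Q) {x y : ℤ} (h : x % 8 = y % 8) (i : ℕ) : CloG a b t x i ↔ CloG a b t y i := by
  unfold H22.CloG
  rw [KG_mod a b t h, KG_mod a b t (show (x + i) % 8 = (y + i) % 8 by omega),
    H20.pr_congr (f := SG a b t) (f' := SG a b t) (m := x + 1) (m' := y + 1) i fun j _ => SG_mod a b t (by omega),
    H20.pr_congr (f := LG a b t) (f' := LG a b t) (m := x) (m' := y) i fun j _ => LG_mod a b t (by omega)]

theorem CloW_mod {x x' : ℤ} (h : x % 8 = x' % 8) (i : ℕ) : CloW a b t x i ↔ CloW a b t x' i := by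
  unfold CloW
  rw [wd_mod 0 h, wd_mod 0 (show (x + i) % 8 = (x' + i) % 8 by omega), CloG_mod a b t h]

theorem cloG_back {x : ℤ} {d i : ℕ} (h1 : CloG a b t x (d + i)) (h2 : CloG a b t (x + d) i) : CloG a b t x d := by
  unfold H22.CloG at h1 h2 ⊢
  rw [H20.pr_add, H20.pr_add, ← mul_assoc, mul_assoc (H20.pr (LG a b t) x d)] at h1
  have e1 : x + ((d + i : ℕ) : ℤ) = x + d + i := by push_cast; ring
  have e2 : x + 1 + (d : ℤ) = x + d + 1 := by ring
  rw [e1, e2, ← h2, ← mul_assoc] at h1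
  exact mul_right_cancel h1

end clo

/-- THE DRIFT: one permutation for all wall paths. -/
theorem exists_drift [Finite Q] (N : Subgroup Q) [N.Normal] (hN : IsCyclic N) (hco : (Nat.card N).Coprime N.index) {e : ℕ}
    (he : N.index ∣ e) (he0 : 0 < e) (hi : ∀ i, B.inv (l i) = l i) (c : Cov B l L) (κ0 κ1 : ℤ) (H : RunD D s0 ph c0 w) :
    ∃ θ : Perm (Sd c D s0 κ0 κ1), (∀ s, (θ s).1.1 = s.1.1) ∧ (∀ s, c0 + 3 ≤ s.1.1 → s.1.1 ≤ c0 + w → θ s = s) ∧
      ∀ {J : ℤ} {y : Q} (hW : Wl c D s0 κ0 κ1 J y),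
        HPathC (wp hi hW) (fun m i => CloW (qq B l .a) (qq B l .b) (qq B l .t) (ph + m) i) θ (8 * e) (Mw D ph J) := by
  obtain ⟨z, -, hZ⟩ := exists_zd N hN hco he hi
  have hP : (8 : ℤ) ∣ ((8 * e : ℕ) : ℤ) := ⟨e, by push_cast; ring⟩
  have hmod : ∀ m : ℤ, (ph + (m + ((8 * e : ℕ) : ℤ))) % 8 = (ph + m) % 8 := by
    intro m
    push_cast
    omega
  refine ⟨drift hZ hP H hi, drift_κ hZ hP H hi, drift_fix hZ hP H hi, fun {J y} hW => ⟨by omega, wp_drift hZ hP H hi hW,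
    fun m => ?_, fun m i h => h.1, fun m _ => ⟨by omega, ?_, ?_⟩, fun m i => CloW_mod (hmod m) i, ?_, ?_⟩⟩
  · unfold Mw
    rw [Set.mem_ofPred_eq, Set.mem_ofPred_eq, wd_mod J (hmod m)]
  · refine wd_mod 0 ?_
    have := hmod m
    rwa [← add_assoc] at this
  · unfold H22.CloG
    rw [hZ.hol, hZ.wal]
    congr 1
    refine (KG_mod _ _ _ ?_).symm
    have := hmod m
    rwa [← add_assoc] at this
  · rintro m - d i h0 - ⟨h1, h2, h3⟩ ⟨h4, h5, h6⟩
    have e1 : ph + m + ((d + i : ℕ) : ℤ) = ph + m + d + i := by push_cast; ring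
    have e2 : ph + (m + (d : ℤ)) = ph + m + d := by ring
    rw [e2] at h5 h6
    rw [e1] at h2
    exact ⟨h0, h5.symm.trans h2, cloG_back h3 h6⟩
  · rintro m hm i ⟨-, h2, -⟩
    have hm' : D.hw (wd J (ph + m)) = 2 := hm
    show D.hw (wd J (ph + (m + i))) = 2
    have e2 : ph + (m + (i : ℤ)) = ph + m + i := by ring
    rw [e2, wd_J, h2, ← wd_J]
    exact hm'

end HP

variable {Q : Type u} [Group Q] {B : Lb.{u, v} Q} {l : L3 → B.L} {L : AddSubgroup (ℤ × ℤ)}
variable {c : Cov B l L} {D : Bd} {s0 κ0 κ1 ph c0 : ℤ} {w : ℕ} {J : ℤ} {y : Q}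

/-- P1: a wall path of a run is an `HPathC`. -/
theorem hpathC [Finite Q] (N : Subgroup Q) [N.Normal] (hN : IsCyclic N) (hco : (Nat.card N).Coprime N.index) {e : ℕ}
    (he : N.index ∣ e) (he0 : 0 < e) (hi : ∀ i, B.inv (l i) = l i) (H : RunD D s0 ph c0 w) (hW : Wl c D s0 κ0 κ1 J y) :
    ∃ θ : Perm (Sd c D s0 κ0 κ1), (∀ s, (θ s).1.1 = s.1.1) ∧ (∀ s, c0 + 3 ≤ s.1.1 → s.1.1 ≤ c0 + w → θ s = s) ∧
      HPathC (wp hi hW) (fun m i => CloW (qq B l .a) (qq B l .b) (qq B l .t) (ph + m) i) θ (8 * e) (Mw D ph J) := by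
  obtain ⟨θ, h1, h2, h3⟩ := HP.exists_drift N hN hco he he0 hi c κ0 κ1 H
  exact ⟨θ, h1, h2, h3 hW⟩

end Pool.Agent.Lib.MP_688fd0_co.SQ5.H87
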