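import Pool.Agent.Lib.MP_688fd0_co.SQ5.H87.ClsN
import Pool.Agent.Lib.MP_688fd0_co.SQ4.Iface

/-!
Positions in a ring `ZMod M`: the elements of `ker eps` are translations, the other ones reflections; the letter `s` has the
position `h s`; `w = a b⁻¹` goes up by `L`. The strands of the tube are the elements of `ker eps` with a position in `[0, L)`.
The time of `x` for the letter `s` is the position of `x` if `eps x = 1`, and `pos x - h s` otherwise; `x` and `x s` have the
same time.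
-/

set_option autoImplicit false

namespace Pool.Agent.Lib.MP_688fd0_co.SQ5.H87

open Pool.Agent.Lib.MP_688fd0_co.OSF Pool.Agent.Lib.MP_688fd0_co.SQ2 Pool.Agent.Lib.MP_688fd0_co.SQ3
open Pool.Agent.Lib.MP_688fd0_co.SQ4

universe v

/-- Positions in a ring. -/
structure RgN {Q : Type} [Group Q] (B : Lb.{0, v} Q) (a b : B.L) (eps : Q →* ℤˣ) (M : ℕ) (pos : Q → ZMod M)
    (h : B.L → ℤ) (L k : ℕ) : Prop where
  ea : eps (B.q a) = -1
  eb : eps (B.q b) = -1
  kpos : 0 < k
  Lpos : 0 < L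
  hL : h a = h b + L
  LM : L ≤ M
  mul : ∀ x y, pos (x * y) = pos x + (((eps x : ℤˣ) : ℤ) : ZMod M) * pos y
  hp : ∀ s, pos (B.q s) = (h s : ZMod M)
  per : ∀ x, eps x = 1 → x * (B.q a * (B.q b)⁻¹) ^ k = (B.q a * (B.q b)⁻¹) ^ k * x

namespace RgN

variable {Q : Type} [Group Q] {B : Lb.{0, v} Q} {a b : B.L} {eps : Q →* ℤˣ} {M : ℕ} {pos : Q → ZMod M}
    {h : B.L → ℤ} {L k : ℕ} (H : RgN B a b eps M pos h L k)

/-- The lines. -/
def up (H : RgN B a b eps M pos h L k) : Up B := upC B a b eps H.ea H.eb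

include H

theorem pos_pos {x : Q} (hx : eps x = 1) (y : Q) : pos (x * y) = pos x + pos y := by
  rw [H.mul, hx]; simp

theorem pos_neg {x : Q} (hx : eps x = -1) (y : Q) : pos (x * y) = pos x - pos y := by
  rw [H.mul, hx]; simp [sub_eq_add_neg]

theorem pos_one : pos 1 = 0 := by
  have h1 := H.pos_pos (map_one eps) 1
  rw [mul_one] at h1
  exact left_eq_add.1 h1

theorem inv_pos {x : Q} (hx : eps x = 1) : pos x⁻¹ = - pos x := by
  have h1 := H.pos_pos hx x⁻¹
  rw [mul_inv_cancel, H.pos_one] at h1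
  exact (neg_eq_of_add_eq_zero_right h1.symm).symm

theorem inv_neg {x : Q} (hx : eps x = -1) : pos x⁻¹ = pos x := by
  have h1 := H.pos_neg hx x⁻¹
  rw [mul_inv_cancel, H.pos_one] at h1
  exact (sub_eq_zero.1 h1.symm).symm

theorem eps_w : eps (B.q a * (B.q b)⁻¹) = 1 := by
  rw [map_mul, map_inv, H.ea, H.eb]; decide

theorem eps_wp (n : ℕ) : eps ((B.q a * (B.q b)⁻¹) ^ n) = 1 := by
  rw [map_pow, H.eps_w, one_pow]

theorem pos_w : pos (B.q a * (B.q b)⁻¹) = (L : ZMod M) := by
  rw [H.pos_neg H.ea, H.inv_neg H.eb, H.hp, H.hp, H.hL]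
  push_cast
  ring

theorem pos_wp (n : ℕ) : pos ((B.q a * (B.q b)⁻¹) ^ n) = ((L * n : ℕ) : ZMod M) := by
  induction n with
  | zero => rw [pow_zero, H.pos_one]; simp
  | succ n ih => rw [pow_succ, H.pos_pos (H.eps_wp n), ih, H.pos_w]; push_cast; ring

theorem pos_val (x : Q) : pos x = (((pos x).val : ℕ) : ZMod M) := by
  have : NeZero M := ⟨by have := H.LM; have := H.Lpos; omega⟩
  exact (ZMod.natCast_zmod_val _).symm

theorem U_pos {x : Q} (hx : eps x = 1) : H.up.U x = x * B.q a := if_pos hx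

theorem U_neg {x : Q} (hx : eps x = -1) : H.up.U x = x * (B.q b)⁻¹ := if_neg (by rw [hx]; decide)

theorem up_pos {x : Q} (hx : eps x = 1) : H.up.up x = a := if_pos hx

theorem up_neg {x : Q} (hx : eps x = -1) : H.up.up x = B.inv b := if_neg (by rw [hx]; decide)

theorem U_even {x : Q} (hx : eps x = 1) (n : ℕ) : (H.up.U ^ (2 * n)) x = x * (B.q a * (B.q b)⁻¹) ^ n := by
  induction n with
  | zero =>
    show x = x * (B.q a * (B.q b)⁻¹) ^ 0
    rw [pow_zero, mul_one]
  | succ n ih =>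
    have h1 : eps (x * (B.q a * (B.q b)⁻¹) ^ n) = 1 := by rw [map_mul, hx, H.eps_wp, one_mul]
    have h2 : eps (x * (B.q a * (B.q b)⁻¹) ^ n * B.q a) = -1 := by rw [map_mul, h1, H.ea, one_mul]
    rw [show 2 * (n + 1) = 2 * n + 1 + 1 by ring, H.up.U_pow_succ', H.up.U_pow_succ', ih, H.U_pos h1, H.U_neg h2,
      pow_succ]
    group

theorem U_odd {x : Q} (hx : eps x = 1) (n : ℕ) :
    (H.up.U ^ (2 * n + 1)) x = x * (B.q a * (B.q b)⁻¹) ^ n * B.q a := by
  have h1 : eps (x * (B.q a * (B.q b)⁻¹) ^ n) = 1 := by rw [map_mul, hx, H.eps_wp, one_mul]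
  rw [H.up.U_pow_succ', H.U_even hx, H.U_pos h1]

theorem Per_up : Per H.up (2 * k) ((B.q a * (B.q b)⁻¹) ^ k) where
  per x := by
    rcases Int.units_eq_one_or (eps x) with hx | hx
    · rw [H.U_even hx, H.per x hx]
    · have h0 : eps (x * (B.q a)⁻¹) = 1 := by rw [map_mul, map_inv, hx, H.ea]; decide
      have h1 : x = H.up.U (x * (B.q a)⁻¹) := by rw [H.U_pos h0, inv_mul_cancel_right]
      have h2 : eps ((B.q a * (B.q b)⁻¹) ^ k * (x * (B.q a)⁻¹)) = 1 := by rw [map_mul, h0, H.eps_wp, one_mul]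
      have h3 : (H.up.U ^ (2 * k)) x = H.up.U ((H.up.U ^ (2 * k)) (x * (B.q a)⁻¹)) := by
        rw [← H.up.U_pow_succ', H.up.U_pow_succ, ← h1]
      rw [h3, H.U_even h0, H.per _ h0, H.U_pos h2]
      group
  up x := by
    rcases Int.units_eq_one_or (eps x) with hx | hx
    · rw [H.up_pos hx, H.up_pos (by rw [map_mul, H.eps_wp, hx, one_mul])]
    · rw [H.up_neg hx, H.up_neg (by rw [map_mul, H.eps_wp, hx, one_mul])]

end RgN

/-- The strands of the tube: `g s` are the elements of `ker eps` with a position in `[0, L)`. -/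
structure StN {S Q : Type} [Group Q] (eps : Q →* ℤˣ) {M : ℕ} (pos : Q → ZMod M) (L : ℕ) (g : S → Q) : Prop where
  inj : Function.Injective g
  eps_g : ∀ s, eps (g s) = 1
  lt : ∀ s, (pos (g s)).val < L
  surj : ∀ x, eps x = 1 → (pos x).val < L → ∃ s, g s = x

section time

variable {Q : Type} [Group Q] {B : Lb.{0, v} Q} {a b : B.L} {eps : Q →* ℤˣ} {M : ℕ} {pos : Q → ZMod M}
    {h : B.L → ℤ} {L k : ℕ}

/-- The number of steps of the strand `v` before the time `y + 2 L`. -/
def nmN (L i p y : ℕ) : ℕ := (y + 3 * L - 1 - p) / L + (y + 3 * L - 1 - p - i) / L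

/-- Some vertex has the time `y + 2 L`. -/
def acS (L i p y : ℕ) : Prop := L ∣ y + 3 * L - p ∨ L ∣ y + 3 * L - p - i

theorem nmN_succ {L i p y : ℕ} (hi : 0 < i) (hiL : i < L) (hp : p < L) :
    nmN L i p (y + 1) = nmN L i p y + (open Classical in if acS L i p y then 1 else 0) := by
  classical
  unfold nmN acS
  have h1 : (y + 1 + 3 * L - 1 - p) / L = (y + 3 * L - 1 - p) / L + if L ∣ y + 3 * L - p then 1 else 0 := by
    rw [show y + 1 + 3 * L - 1 - p = (y + 3 * L - 1 - p) + 1 by omega, Nat.succ_div,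
      show y + 3 * L - 1 - p + 1 = y + 3 * L - p by omega]
  have h2 : (y + 1 + 3 * L - 1 - p - i) / L = (y + 3 * L - 1 - p - i) / L + if L ∣ y + 3 * L - p - i then 1 else 0 := by
    rw [show y + 1 + 3 * L - 1 - p - i = (y + 3 * L - 1 - p - i) + 1 by omega, Nat.succ_div,
      show y + 3 * L - 1 - p - i + 1 = y + 3 * L - p - i by omega]
  rw [h1, h2]
  by_cases c1 : L ∣ y + 3 * L - p
  · have c2 : ¬ L ∣ y + 3 * L - p - i := by
      intro c2
      have c3 := Nat.dvd_sub c1 c2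
      rw [show y + 3 * L - p - (y + 3 * L - p - i) = i by omega] at c3
      exact absurd (Nat.le_of_dvd hi c3) (by omega)
    rw [if_pos c1, if_neg c2, if_pos (Or.inl c1)]
    ring
  · by_cases c2 : L ∣ y + 3 * L - p - i
    · rw [if_neg c1, if_pos c2, if_pos (Or.inr c2)]
      ring
    · rw [if_neg c1, if_neg c2, if_neg (by tauto), add_zero, add_zero, add_zero]

/-- The two cases of a cut. -/
theorem nmN_cases {L i p y : ℕ} (hi : 0 < i) (hiL : i < L) (hp : p < L) :
    (∃ c, nmN L i p y = 2 * c ∧ y + 2 * L ≤ p + L * c ∧ p + L * c < y + 3 * L) ∨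
      ∃ c, nmN L i p y = 2 * c + 1 ∧ y + 2 * L ≤ p + i + L * c ∧ p + i + L * c < y + 3 * L := by
  have hL : 0 < L := by omega
  unfold nmN
  set A := (y + 3 * L - 1 - p) / L with hA
  set C := (y + 3 * L - 1 - p - i) / L with hC
  have a1 : L * A ≤ y + 3 * L - 1 - p := Nat.mul_div_le _ _
  have a2 : y + 3 * L - 1 - p < L * A + L := by
    have := Nat.lt_mul_div_succ (y + 3 * L - 1 - p) hL
    rw [Nat.mul_succ] at this
    exact this
  have c1 : L * C ≤ y + 3 * L - 1 - p - i := Nat.mul_div_le _ _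
  have c2 : y + 3 * L - 1 - p - i < L * C + L := by
    have := Nat.lt_mul_div_succ (y + 3 * L - 1 - p - i) hL
    rw [Nat.mul_succ] at this
    exact this
  have h1 : C ≤ A := Nat.div_le_div_right (by omega)
  have h2 : A ≤ C + 1 := by
    by_contra h3
    have h4 : C + 2 ≤ A := by omega
    have h5 := Nat.mul_le_mul_left L h4
    rw [Nat.mul_add] at h5
    omega
  rcases Nat.lt_or_ge C A with h3 | h3
  · right
    refine ⟨C, by omega, ?_, by omega⟩
    have h4 : A = C + 1 := by omega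
    rw [h4, Nat.mul_add] at a1 a2
    omega
  · left
    have h4 : A = C := by omega
    refine ⟨A, by omega, ?_, by omega⟩
    rw [← h4] at c1 c2
    omega

theorem nmN_even {L i p y c : ℕ} (hi : 0 < i) (hiL : i < L) (hp : p < L) (h : p + L * c = y + 2 * L) :
    nmN L i p y = 2 * c ∧ acS L i p y := by
  have hL : 0 < L := by omega
  constructor
  · unfold nmN
    have h1 : (y + 3 * L - 1 - p) / L = c := by
      rw [show y + 3 * L - 1 - p = (L - 1) + L * c by omega, Nat.add_mul_div_left _ _ hL, Nat.div_eq_of_lt (by omega)]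
      omega
    have h2 : (y + 3 * L - 1 - p - i) / L = c := by
      rw [show y + 3 * L - 1 - p - i = (L - 1 - i) + L * c by omega, Nat.add_mul_div_left _ _ hL,
        Nat.div_eq_of_lt (by omega)]
      omega
    rw [h1, h2]
    ring
  · left
    exact ⟨c + 1, by rw [Nat.mul_add]; omega⟩

theorem nmN_odd {L i p y c : ℕ} (hi : 0 < i) (hiL : i < L) (hp : p < L) (h : p + i + L * c = y + 2 * L) :
    nmN L i p y = 2 * c + 1 ∧ acS L i p y := by
  have hL : 0 < L := by omega
  constructor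
  · unfold nmN
    have h1 : (y + 3 * L - 1 - p) / L = c + 1 := by
      rw [show y + 3 * L - 1 - p = (i - 1) + L * (c + 1) by rw [Nat.mul_add]; omega, Nat.add_mul_div_left _ _ hL,
        Nat.div_eq_of_lt (by omega)]
      omega
    have h2 : (y + 3 * L - 1 - p - i) / L = c := by
      rw [show y + 3 * L - 1 - p - i = (L - 1) + L * c by omega, Nat.add_mul_div_left _ _ hL,
        Nat.div_eq_of_lt (by omega)]
      omega
    rw [h1, h2]
    ring
  · right
    exact ⟨c + 1, by rw [Nat.mul_add]; omega⟩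

/-- The two kinds of active times. -/
theorem acS_cases {L i p y : ℕ} (hi : 0 < i) (hiL : i < L) (hp : p < L) (ha : acS L i p y) :
    (∃ c, nmN L i p y = 2 * c ∧ p + L * c = y + 2 * L) ∨
      ∃ c, nmN L i p y = 2 * c + 1 ∧ p + i + L * c = y + 2 * L := by
  rcases ha with ⟨c, hc⟩ | ⟨c, hc⟩
  · left
    have h1 : 1 ≤ c := by
      rcases Nat.eq_zero_or_pos c with h | h
      · rw [h] at hc; omega
      · exact h
    obtain ⟨c, rfl⟩ : ∃ c', c = c' + 1 := ⟨c - 1, by omega⟩
    have h2 : p + L * c = y + 2 * L := by rw [Nat.mul_add] at hc; omega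
    exact ⟨c, (nmN_even hi hiL hp h2).1, h2⟩
  · right
    have h1 : 1 ≤ c := by
      rcases Nat.eq_zero_or_pos c with h | h
      · rw [h] at hc; omega
      · exact h
    obtain ⟨c, rfl⟩ : ∃ c', c = c' + 1 := ⟨c - 1, by omega⟩
    have h2 : p + i + L * c = y + 2 * L := by rw [Nat.mul_add] at hc; omega
    exact ⟨c, (nmN_odd hi hiL hp h2).1, h2⟩

theorem nmN_per {L i p y k : ℕ} (hiL : i < L) (hp : p < L) : nmN L i p (y + L * k) = nmN L i p y + 2 * k := by
  have hL : 0 < L := by omega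
  unfold nmN
  rw [show y + L * k + 3 * L - 1 - p = (y + 3 * L - 1 - p) + L * k by omega,
    show (y + 3 * L - 1 - p) + L * k - i = (y + 3 * L - 1 - p - i) + L * k by omega, Nat.add_mul_div_left _ _ hL,
    Nat.add_mul_div_left _ _ hL]
  ring

theorem acS_per {L i p y k : ℕ} (hiL : i < L) (hp : p < L) : acS L i p (y + L * k) ↔ acS L i p y := by
  unfold acS
  rw [show y + L * k + 3 * L - p = (y + 3 * L - p) + L * k by omega,
    show (y + 3 * L - p) + L * k - i = (y + 3 * L - p - i) + L * k by omega, Nat.dvd_add_left (Nat.dvd_mul_right L k),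
    Nat.dvd_add_left (Nat.dvd_mul_right L k)]

theorem nmN_zero {L i p : ℕ} (hp : p < L) : nmN L i p 0 ≤ 4 := by
  have hL : 0 < L := by omega
  unfold nmN
  have h1 : (0 + 3 * L - 1 - p) / L ≤ 2 := by
    rw [← Nat.lt_succ_iff, Nat.div_lt_iff_lt_mul hL]
    omega
  have h2 : (0 + 3 * L - 1 - p - i) / L ≤ 2 := by
    rw [← Nat.lt_succ_iff, Nat.div_lt_iff_lt_mul hL]
    omega
  omega

open Classical in
/-- The time of the letter `t` with `h t + i = h a`. -/
noncomputable def tmN {S : Type} {g : S → Q} (G : StN eps pos L g) {i : ℕ} (hi : 0 < i) (hiL : i < L) : Tme S where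
  n y v := nmN L i (pos (g v)).val y
  act y v := acS L i (pos (g v)).val y
  step y v ha := by
    rw [nmN_succ hi hiL (G.lt v), if_pos ha]
  stay y v ha := by
    rw [nmN_succ hi hiL (G.lt v), if_neg ha, add_zero]

end time

theorem eq_of_cast {M L A x x' : ℕ} (hM : L ≤ M) (h : (x : ZMod M) = (x' : ZMod M)) (h1 : A ≤ x) (h2 : x < A + L)
    (h1' : A ≤ x') (h2' : x' < A + L) : x = x' := by
  have h3 := (ZMod.natCast_eq_natCast_iff x x' M).1 h
  rcases le_total x x' with h4 | h4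
  · obtain ⟨d, hd⟩ := (Nat.modEq_iff_dvd' h4).1 h3
    rcases Nat.eq_zero_or_pos d with h5 | h5
    · rw [h5] at hd; omega
    · have := Nat.le_mul_of_pos_right M h5
      omega
  · obtain ⟨d, hd⟩ := (Nat.modEq_iff_dvd' h4).1 h3.symm
    rcases Nat.eq_zero_or_pos d with h5 | h5
    · rw [h5] at hd; omega
    · have := Nat.le_mul_of_pos_right M h5
      omega

theorem eq_of_div {L p p' c c' : ℕ} (hp : p < L) (hp' : p' < L) (h : p + L * c = p' + L * c') : p = p' ∧ c = c' := by
  have h1 := congrArg (· % L) h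
  simp only [Nat.add_mul_mod_self_left, Nat.mod_eq_of_lt hp, Nat.mod_eq_of_lt hp'] at h1
  refine ⟨h1, ?_⟩
  rw [h1] at h
  exact Nat.eq_of_mul_eq_mul_left (by omega) (Nat.add_left_cancel h)

section verts

variable {S : Type} {Q : Type} [Group Q] {B : Lb.{0, v} Q} {a b : B.L} {eps : Q →* ℤˣ} {M : ℕ} {pos : Q → ZMod M}
    {h : B.L → ℤ} {L k : ℕ} {g : S → Q} (H : RgN B a b eps M pos h L k) (G : StN eps pos L g) {t : B.L}
    (et : eps (B.q t) = -1) {i : ℕ} (hi : 0 < i) (hiL : i < L) (ht : h t + i = h a)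

/-- The vertex of the strand `v` at the time `y + 2 L`. -/
noncomputable def vtN (y : ℕ) (v : S) : Q := vN H.up g (tmN G hi hiL) y v

theorem vtN_e {y c : ℕ} {v : S} (hc : nmN L i (pos (g v)).val y = 2 * c) :
    vtN H G hi hiL y v = g v * (B.q a * (B.q b)⁻¹) ^ c := by
  show (H.up.U ^ nmN L i (pos (g v)).val y) (g v) = _
  rw [hc, H.U_even (G.eps_g v)]

theorem vtN_o {y c : ℕ} {v : S} (hc : nmN L i (pos (g v)).val y = 2 * c + 1) :
    vtN H G hi hiL y v = g v * (B.q a * (B.q b)⁻¹) ^ c * B.q a := by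
  show (H.up.U ^ nmN L i (pos (g v)).val y) (g v) = _
  rw [hc, H.U_odd (G.eps_g v)]

theorem vtN_inj (y : ℕ) : Function.Injective (vtN H G hi hiL y : S → Q) := by
  intro v v' hv
  have ew : ∀ c, eps ((B.q a * (B.q b)⁻¹) ^ c) = 1 := H.eps_wp
  rcases nmN_cases hi hiL (G.lt v) (y := y) with ⟨c, h1, h2, h3⟩ | ⟨c, h1, h2, h3⟩ <;>
    rcases nmN_cases hi hiL (G.lt v') (y := y) with ⟨c', h1', h2', h3'⟩ | ⟨c', h1', h2', h3'⟩
  · rw [vtN_e H G hi hiL h1, vtN_e H G hi hiL h1'] at hv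
    have h4 := congrArg pos hv
    rw [H.pos_pos (G.eps_g v), H.pos_pos (G.eps_g v'), H.pos_wp, H.pos_wp, H.pos_val (g v), H.pos_val (g v'), ← Nat.cast_add, ← Nat.cast_add] at h4
    have h5 := eq_of_cast (A := y + 2 * L) H.LM h4 h2 (by omega) h2' (by omega)
    have h6 := eq_of_div (G.lt v) (G.lt v') h5
    rw [h6.2] at hv
    exact G.inj (mul_right_cancel hv)
  · exfalso
    rw [vtN_e H G hi hiL h1, vtN_o H G hi hiL h1'] at hv
    have h4 := congrArg eps hv
    rw [map_mul, map_mul, map_mul, (G.eps_g v), (G.eps_g v'), ew, ew, H.ea] at h4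
    exact absurd h4 (by decide)
  · exfalso
    rw [vtN_o H G hi hiL h1, vtN_e H G hi hiL h1'] at hv
    have h4 := congrArg eps hv
    rw [map_mul, map_mul, map_mul, (G.eps_g v), (G.eps_g v'), ew, ew, H.ea] at h4
    exact absurd h4 (by decide)
  · rw [vtN_o H G hi hiL h1, vtN_o H G hi hiL h1'] at hv
    have hv := mul_right_cancel hv
    have h4 := congrArg pos hv
    rw [H.pos_pos (G.eps_g v), H.pos_pos (G.eps_g v'), H.pos_wp, H.pos_wp, H.pos_val (g v), H.pos_val (g v'), ← Nat.cast_add, ← Nat.cast_add] at h4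
    have h5 := eq_of_cast (A := y + 2 * L - i) H.LM h4 (by omega) (by omega) (by omega) (by omega)
    have h6 := eq_of_div (G.lt v) (G.lt v') h5
    rw [h6.2] at hv
    exact G.inj (mul_right_cancel hv)

open Classical in
/-- The time of a vertex. -/
noncomputable def tiN (eps : Q →* ℤˣ) (pos : Q → ZMod M) (h : B.L → ℤ) (t : B.L) (x : Q) : ZMod M :=
  if eps x = 1 then pos x else pos x - (h t : ZMod M)

open Classical in
/-- The other end of the edge `t`. -/
noncomputable def prtN (B : Lb.{0, v} Q) (eps : Q →* ℤˣ) (t : B.L) (x : Q) : Q :=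
  if eps x = 1 then x * B.q t else x * (B.q t)⁻¹

omit H in
include et in
theorem eps_prt (x : Q) : eps (prtN B eps t x) = - eps x := by
  unfold prtN
  split_ifs with hx
  · rw [map_mul, hx, et]; decide
  · rw [map_mul, map_inv, et, (Int.units_eq_one_or (eps x)).resolve_left hx]; decide

omit H in
include et in
theorem prt_prt (x : Q) : prtN B eps t (prtN B eps t x) = x := by
  have h1 := eps_prt et x
  rcases Int.units_eq_one_or (eps x) with hx | hx
  · rw [hx] at h1
    have h2 : prtN B eps t x = x * B.q t := if_pos hx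
    have h3 : prtN B eps t (prtN B eps t x) = prtN B eps t x * (B.q t)⁻¹ := if_neg (by rw [h1]; decide)
    rw [h3, h2, mul_inv_cancel_right]
  · rw [hx, neg_neg] at h1
    have h2 : prtN B eps t x = x * (B.q t)⁻¹ := if_neg (by rw [hx]; decide)
    have h3 : prtN B eps t (prtN B eps t x) = prtN B eps t x * B.q t := if_pos h1
    rw [h3, h2, inv_mul_cancel_right]

include H et in
theorem ti_prt (x : Q) : tiN eps pos h t (prtN B eps t x) = tiN eps pos h t x := by
  have h1 := eps_prt et x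
  rcases Int.units_eq_one_or (eps x) with hx | hx
  · rw [hx] at h1
    have h2 : prtN B eps t x = x * B.q t := if_pos hx
    have h3 : tiN eps pos h t (prtN B eps t x) = pos (prtN B eps t x) - (h t : ZMod M) := if_neg (by rw [h1]; decide)
    have h4 : tiN eps pos h t x = pos x := if_pos hx
    rw [h3, h4, h2, H.pos_pos hx, H.hp, add_sub_cancel_right]
  · rw [hx, neg_neg] at h1
    have h2 : prtN B eps t x = x * (B.q t)⁻¹ := if_neg (by rw [hx]; decide)
    have h3 : tiN eps pos h t (prtN B eps t x) = pos (prtN B eps t x) := if_pos h1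
    have h4 : tiN eps pos h t x = pos x - (h t : ZMod M) := if_neg (by rw [hx]; decide)
    rw [h3, h4, h2, H.pos_neg hx, H.inv_neg et, H.hp]

include ht in
/-- An active vertex has the time `y + 2 L`. -/
theorem ti_vt {y : ℕ} {v : S} (ha : acS L i (pos (g v)).val y) :
    tiN eps pos h t (vtN H G hi hiL y v) = ((y + 2 * L : ℕ) : ZMod M) := by
  have ew : ∀ c, eps (g v * (B.q a * (B.q b)⁻¹) ^ c) = 1 := fun c => by rw [map_mul, (G.eps_g v), H.eps_wp, one_mul]
  rcases acS_cases hi hiL (G.lt v) ha with ⟨c, h1, h2⟩ | ⟨c, h1, h2⟩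
  · rw [vtN_e H G hi hiL h1]
    have h3 : tiN eps pos h t (g v * (B.q a * (B.q b)⁻¹) ^ c) = pos (g v * (B.q a * (B.q b)⁻¹) ^ c) := if_pos (ew c)
    rw [h3, H.pos_pos (G.eps_g v), H.pos_wp, H.pos_val (g v), ← Nat.cast_add, h2]
  · rw [vtN_o H G hi hiL h1]
    have h0 : eps (g v * (B.q a * (B.q b)⁻¹) ^ c * B.q a) ≠ 1 := by rw [map_mul, ew, H.ea]; decide
    have h3 : tiN eps pos h t (g v * (B.q a * (B.q b)⁻¹) ^ c * B.q a) =
      pos (g v * (B.q a * (B.q b)⁻¹) ^ c * B.q a) - (h t : ZMod M) := if_neg h0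
    rw [h3, H.pos_pos (ew c), H.pos_pos (G.eps_g v), H.pos_wp, H.pos_val (g v), H.hp, ← ht, ← h2]
    push_cast
    ring

open Classical in
/-- The strand of a vertex of the time `y + 2 L`. -/
noncomputable def stV (B : Lb.{0, v} Q) (a b : B.L) (eps : Q →* ℤˣ) (L i y : ℕ) (x : Q) : Q :=
  if eps x = 1 then x * ((B.q a * (B.q b)⁻¹) ^ ((y + 2 * L) / L))⁻¹
    else x * (B.q a)⁻¹ * ((B.q a * (B.q b)⁻¹) ^ ((y + 2 * L - i) / L))⁻¹

include H hiL ht in
theorem stV_mem {y : ℕ} {x : Q} (hx : tiN eps pos h t x = ((y + 2 * L : ℕ) : ZMod M)) :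
    eps (stV B a b eps L i y x) = 1 ∧ (pos (stV B a b eps L i y x)).val =
      if eps x = 1 then (y + 2 * L) % L else (y + 2 * L - i) % L := by
  have hL := H.Lpos
  have hval : ∀ n : ℕ, (((n % L : ℕ) : ZMod M)).val = n % L := fun n => by
    rw [ZMod.val_natCast, Nat.mod_eq_of_lt (lt_of_lt_of_le (Nat.mod_lt _ hL) H.LM)]
  have hpw : ∀ c, pos ((B.q a * (B.q b)⁻¹) ^ c)⁻¹ = - ((L * c : ℕ) : ZMod M) := fun c => by
    rw [H.inv_pos (H.eps_wp c), H.pos_wp]
  rcases Int.units_eq_one_or (eps x) with h0 | h0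
  · have h1 : stV B a b eps L i y x = x * ((B.q a * (B.q b)⁻¹) ^ ((y + 2 * L) / L))⁻¹ := if_pos h0
    have h2 : tiN eps pos h t x = pos x := if_pos h0
    rw [h1, if_pos h0, map_mul, map_inv, H.eps_wp, h0, H.pos_pos h0, hpw, ← h2, hx]
    refine ⟨by decide, ?_⟩
    have h3 : ((y + 2 * L : ℕ) : ZMod M) + - ((L * ((y + 2 * L) / L) : ℕ) : ZMod M) = (((y + 2 * L) % L : ℕ) : ZMod M) := by
      rw [← sub_eq_add_neg, sub_eq_iff_eq_add, ← Nat.cast_add, Nat.mod_add_div]
    rw [h3, hval]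
  · have h0' : eps x ≠ 1 := by rw [h0]; decide
    have h1 : stV B a b eps L i y x = x * (B.q a)⁻¹ * ((B.q a * (B.q b)⁻¹) ^ ((y + 2 * L - i) / L))⁻¹ := if_neg h0'
    have h2 : tiN eps pos h t x = pos x - (h t : ZMod M) := if_neg h0'
    have h4 : eps (x * (B.q a)⁻¹) = 1 := by rw [map_mul, map_inv, h0, H.ea]; decide
    rw [h1, if_neg h0', map_mul, map_inv, H.eps_wp, h4, H.pos_pos h4, hpw, H.pos_neg h0, H.inv_neg H.ea, H.hp, ← ht]
    refine ⟨by decide, ?_⟩
    rw [h2] at hx
    have h5 : pos x = ((y + 2 * L : ℕ) : ZMod M) + (h t : ZMod M) := by rw [← hx, sub_add_cancel]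
    have h3 : pos x - ((h t + i : ℤ) : ZMod M) + - ((L * ((y + 2 * L - i) / L) : ℕ) : ZMod M) =
        (((y + 2 * L - i) % L : ℕ) : ZMod M) := by
      have h6 : ((y + 2 * L : ℕ) : ZMod M) = ((y + 2 * L - i : ℕ) : ZMod M) + (i : ZMod M) := by
        rw [← Nat.cast_add, Nat.sub_add_cancel (by omega)]
      rw [← sub_eq_add_neg, sub_eq_iff_eq_add, ← Nat.cast_add, Nat.mod_add_div, h5, h6]
      push_cast
      ring
    rw [h3, hval]

include H G hi hiL ht in
theorem ex_st {y : ℕ} {x : Q} (hx : tiN eps pos h t x = ((y + 2 * L : ℕ) : ZMod M)) :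
    ∃ s : S, acS L i (pos (g s)).val y ∧ vtN H G hi hiL y s = x ∧ g s = stV B a b eps L i y x := by
  have h1 := (stV_mem H hiL ht hx).2
  obtain ⟨s, hs⟩ := G.surj (stV B a b eps L i y x) (stV_mem H hiL ht hx).1 (by
    rw [h1]
    split_ifs <;> exact Nat.mod_lt _ H.Lpos)
  rw [← hs] at h1
  rcases Int.units_eq_one_or (eps x) with h0 | h0
  · rw [if_pos h0] at h1
    have h2 := nmN_even (y := y) (c := (y + 2 * L) / L) hi hiL (Nat.mod_lt _ H.Lpos) (Nat.mod_add_div (y + 2 * L) L)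
    rw [← h1] at h2
    refine ⟨s, h2.2, ?_, hs⟩
    have h3 : stV B a b eps L i y x = x * ((B.q a * (B.q b)⁻¹) ^ ((y + 2 * L) / L))⁻¹ := if_pos h0
    rw [vtN_e H G hi hiL h2.1, hs, h3, inv_mul_cancel_right]
  · have h0' : eps x ≠ 1 := by rw [h0]; decide
    rw [if_neg h0'] at h1
    have h2 := nmN_odd (y := y) (p := (y + 2 * L - i) % L) (c := (y + 2 * L - i) / L) hi hiL (Nat.mod_lt _ H.Lpos) (by
      have := Nat.mod_add_div (y + 2 * L - i) L
      omega)
    rw [← h1] at h2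
    refine ⟨s, h2.2, ?_, hs⟩
    have h3 : stV B a b eps L i y x = x * (B.q a)⁻¹ * ((B.q a * (B.q b)⁻¹) ^ ((y + 2 * L - i) / L))⁻¹ := if_neg h0'
    rw [vtN_o H G hi hiL h2.1, hs, h3, inv_mul_cancel_right, inv_mul_cancel_right]

open Classical in
/-- The other end of the rung of the strand `s` at the time `y + 2 L`. -/
noncomputable def pfN (y : ℕ) (s : S) : S :=
  if ha : acS L i (pos (g s)).val y then
    (ex_st H G hi hiL ht (y := y) (x := prtN B eps t (vtN H G hi hiL y s)) (by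
      rw [ti_prt H et, ti_vt H G hi hiL ht ha])).choose
  else s

theorem pfN_act {y : ℕ} {s : S} (ha : acS L i (pos (g s)).val y) :
    acS L i (pos (g (pfN H G et hi hiL ht y s))).val y ∧
      vtN H G hi hiL y (pfN H G et hi hiL ht y s) = prtN B eps t (vtN H G hi hiL y s) ∧
      g (pfN H G et hi hiL ht y s) = stV B a b eps L i y (prtN B eps t (vtN H G hi hiL y s)) := by
  have h1 := (ex_st H G hi hiL ht (y := y) (x := prtN B eps t (vtN H G hi hiL y s)) (by
      rw [ti_prt H et, ti_vt H G hi hiL ht ha])).choose_spec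
  have h2 : pfN H G et hi hiL ht y s = (ex_st H G hi hiL ht (y := y) (x := prtN B eps t (vtN H G hi hiL y s)) (by
      rw [ti_prt H et, ti_vt H G hi hiL ht ha])).choose := dif_pos ha
  rw [h2]
  exact h1

theorem pfN_not {y : ℕ} {s : S} (ha : ¬ acS L i (pos (g s)).val y) : pfN H G et hi hiL ht y s = s := dif_neg ha

theorem pfN_inv (y : ℕ) (s : S) : pfN H G et hi hiL ht y (pfN H G et hi hiL ht y s) = s := by
  by_cases ha : acS L i (pos (g s)).val y
  · obtain ⟨h1, h2, -⟩ := pfN_act H G et hi hiL ht ha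
    obtain ⟨h3, h4, -⟩ := pfN_act H G et hi hiL ht h1
    apply vtN_inj H G hi hiL y
    rw [h4, h2, prt_prt et]
  · rw [pfN_not H G et hi hiL ht ha, pfN_not H G et hi hiL ht ha]

/-- The rung permutation at the time `y + 2 L`. -/
noncomputable def pmN (y : ℕ) : Equiv.Perm S := Function.Involutive.toPerm _ (pfN_inv H G et hi hiL ht y)

theorem pmN_apply (y : ℕ) (s : S) : pmN H G et hi hiL ht y s = pfN H G et hi hiL ht y s := rfl

theorem vtN_per (y : ℕ) (s : S) : vtN H G hi hiL (y + L * k) s = (B.q a * (B.q b)⁻¹) ^ k * vtN H G hi hiL y s := by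
  show (H.up.U ^ nmN L i (pos (g s)).val (y + L * k)) (g s) = _ * (H.up.U ^ nmN L i (pos (g s)).val y) (g s)
  rw [nmN_per hiL (G.lt s), H.up.U_pow_add, H.Per_up.per]

include H in
theorem prt_wk (m : ℕ) (x : Q) : prtN B eps t ((B.q a * (B.q b)⁻¹) ^ m * x) =
    (B.q a * (B.q b)⁻¹) ^ m * prtN B eps t x := by
  unfold prtN
  rw [map_mul, H.eps_wp, one_mul]
  split_ifs <;> rw [mul_assoc]

theorem pmN_per (y : ℕ) : pmN H G et hi hiL ht (y + L * k) = pmN H G et hi hiL ht y := by
  apply Equiv.ext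
  intro s
  rw [pmN_apply, pmN_apply]
  by_cases ha : acS L i (pos (g s)).val y
  · have ha' := (acS_per (k := k) hiL (G.lt s)).2 ha
    obtain ⟨h1, h2, -⟩ := pfN_act H G et hi hiL ht ha
    obtain ⟨h3, h4, -⟩ := pfN_act H G et hi hiL ht ha'
    rw [vtN_per, vtN_per, prt_wk H, ← h2] at h4
    exact vtN_inj H G hi hiL y (mul_left_cancel h4)
  · have ha' : ¬ acS L i (pos (g s)).val (y + L * k) := fun h => ha ((acS_per hiL (G.lt s)).1 h)
    rw [pfN_not H G et hi hiL ht ha, pfN_not H G et hi hiL ht ha']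

theorem pmN_mod (y : ℕ) : pmN H G et hi hiL ht (y % (L * k)) = pmN H G et hi hiL ht y := by
  conv_rhs => rw [← Nat.mod_add_div y (L * k)]
  induction y / (L * k) with
  | zero => rw [Nat.mul_zero, add_zero]
  | succ c ih => rw [Nat.mul_succ, ← add_assoc, pmN_per, ih]

theorem acS_mod {L i p k : ℕ} (hiL : i < L) (hp : p < L) (y : ℕ) : acS L i p (y % (L * k)) ↔ acS L i p y := by
  conv_rhs => rw [← Nat.mod_add_div y (L * k)]
  induction y / (L * k) with
  | zero => rw [Nat.mul_zero, add_zero]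
  | succ c ih => rw [Nat.mul_succ, ← add_assoc, acS_per hiL hp, ih]

end verts

end Pool.Agent.Lib.MP_688fd0_co.SQ5.H87
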