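import Pool.Agent.Lib.MP_688fd0_co.SQ2.H98.Hole
import Pool.Agent.Lib.MP_688fd0_co.SQ3.Up

/-!
T-gadgets along a time: the strand `s` has the vertices `U ^ j (g s)`; `n y s` is the number `j` of the first vertex of
`s` whose time is at least `y`; `act y s` says that its time is `y`. At the time `y` the rung at an active strand `s` goes to
the active strand `P y s` (label `ρ y s`); `P y` is the identity on the other strands.
-/

set_option autoImplicit false

namespace Pool.Agent.Lib.MP_688fd0_co.SQ5.H87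

open Pool.Agent.Lib.MP_688fd0_co.OSF Pool.Agent.Lib.MP_688fd0_co.SQ2 Pool.Agent.Lib.MP_688fd0_co.SQ3

universe u v

/-- A time for the strands `S`. -/
structure Tme (S : Type u) where
  n : ℕ → S → ℕ
  act : ℕ → S → Prop
  step : ∀ y s, act y s → n (y + 1) s = n y s + 1
  stay : ∀ y s, ¬ act y s → n (y + 1) s = n y s

section

variable {S : Type} [Fintype S] {Q : Type} [Group Q] {B : Lb.{0, v} Q} {U : Up B} {g : S → Q} {T : Tme S}

/-- The vertex of the strand `s` at the time `y`. -/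
def vN (U : Up B) (g : S → Q) (T : Tme S) (y : ℕ) (s : S) : Q := (U.U ^ T.n y s) (g s)

omit [Fintype S] in
theorem vN_step {y : ℕ} {s : S} (h : T.act y s) : vN U g T (y + 1) s = U.U (vN U g T y s) := by
  unfold vN
  rw [T.step y s h, U.U_pow_succ']

omit [Fintype S] in
theorem vN_stay {y : ℕ} {s : S} (h : ¬ T.act y s) : vN U g T (y + 1) s = vN U g T y s := by
  unfold vN
  rw [T.stay y s h]

omit [Fintype S] in
theorem Tme.le_succ (T : Tme S) (y : ℕ) (s : S) : T.n y s ≤ T.n (y + 1) s := by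
  by_cases h : T.act y s
  · rw [T.step y s h]; omega
  · rw [T.stay y s h]

omit [Fintype S] in
theorem Tme.mono (T : Tme S) {y y' : ℕ} (h : y ≤ y') (s : S) : T.n y s ≤ T.n y' s := by
  induction h with
  | refl => exact le_rfl
  | step _ ih => exact ih.trans (T.le_succ _ s)

variable (inj : ∀ y, Function.Injective (vN U g T y))

/-- The cut at the time `y`. -/
def cN (y : ℕ) : Finset Q := Finset.univ.map ⟨vN U g T y, inj y⟩

theorem mem_cN {y : ℕ} {x : Q} : x ∈ cN inj y ↔ ∃ s, vN U g T y s = x := by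
  unfold cN
  rw [Finset.mem_map]
  constructor
  · rintro ⟨s, _, h⟩; exact ⟨s, h⟩
  · rintro ⟨s, h⟩; exact ⟨s, Finset.mem_univ _, h⟩

theorem vN_mem (y : ℕ) (s : S) : vN U g T y s ∈ cN inj y := (mem_cN inj).2 ⟨s, rfl⟩

theorem sum_cN {M : Type*} [AddCommMonoid M] (y : ℕ) (φ : Q → M) :
    ∑ x ∈ cN inj y, φ x = ∑ s : S, φ (vN U g T y s) := by
  unfold cN
  rw [Finset.sum_map]
  rfl

/-- The vertex `x` is active at the time `y`. -/
def AcN (U : Up B) (g : S → Q) (T : Tme S) (y : ℕ) (x : Q) : Prop := ∃ s, T.act y s ∧ vN U g T y s = x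

include inj in
omit [Fintype S] in
theorem acN_iff (y : ℕ) (s : S) : AcN U g T y (vN U g T y s) ↔ T.act y s := by
  constructor
  · rintro ⟨s', h1, h2⟩
    rwa [← inj y h2]
  · exact fun h => ⟨s, h, rfl⟩

open Classical in
/-- The next vertex. -/
noncomputable def gN (U : Up B) (g : S → Q) (T : Tme S) (y : ℕ) (x : Q) : Q := if AcN U g T y x then U.U x else x

open Classical in
/-- The path to the next vertex. -/
noncomputable def pN (U : Up B) (g : S → Q) (T : Tme S) (y : ℕ) (x : Q) : List B.L :=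
  if AcN U g T y x then [U.up x] else []

include inj in
omit [Fintype S] in
theorem gN_vN (y : ℕ) (s : S) : gN U g T y (vN U g T y s) = vN U g T (y + 1) s := by
  unfold gN
  by_cases h : T.act y s
  · rw [if_pos ((acN_iff inj y s).2 h), vN_step h]
  · rw [if_neg fun h' => h ((acN_iff inj y s).1 h'), vN_stay h]

omit [Fintype S] in
theorem fin_pN (y : ℕ) (x : Q) : B.fin x (pN U g T y x) = gN U g T y x := by
  unfold pN gN
  by_cases h : AcN U g T y x
  · rw [if_pos h, if_pos h, U.hU]; rfl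
  · rw [if_neg h, if_neg h]; rfl

omit [Fintype S] in
/-- The used vertices of one time step. -/
theorem src_pN (y : ℕ) (x : Q) : (src B x (pN U g T y x) : Multiset Q) =
    open Classical in if AcN U g T y x then {x} else 0 := by
  unfold pN
  by_cases h : AcN U g T y x
  · rw [if_pos h, if_pos h]; rfl
  · rw [if_neg h, if_neg h]; rfl

variable [DecidableEq Q]

/-- All tokens and holes go to the next cut. -/
noncomputable def stN (X : HW B) (y : ℕ) (p q : S) (hL : X.L₁ = cN inj y) (hp : X.p₀ = vN U g T y p)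
    (hq : X.p₁ = vN U g T y q) : X.Step where
  L := cN inj (y + 1)
  p := vN U g T (y + 1) p
  q := vN U g T (y + 1) q
  g := gN U g T y
  gp := pN U g T y
  hp := vN_mem inj _ _
  hq := vN_mem inj _ _
  hpq := fun h => X.hp (by rw [hp, hq, inj _ h])
  fin := fun x _ => fin_pN y x
  mem := fun x hx => by
    rw [HW.mem_tok₁, hL, mem_cN] at hx
    obtain ⟨⟨s, rfl⟩, h1, h2⟩ := hx
    rw [gN_vN inj]
    exact ⟨vN_mem inj _ _, fun h => h1 (by rw [hp, inj _ h]), fun h => h2 (by rw [hq, inj _ h])⟩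
  inj := fun x hx x' hx' h => by
    rw [HW.mem_tok₁, hL, mem_cN] at hx hx'
    obtain ⟨⟨s, rfl⟩, -, -⟩ := hx
    obtain ⟨⟨s', rfl⟩, -, -⟩ := hx'
    rw [gN_vN inj, gN_vN inj] at h
    rw [inj _ h]
  surj := fun x hx h1 h2 => by
    obtain ⟨s, rfl⟩ := (mem_cN inj).1 hx
    refine ⟨vN U g T y s, ?_, gN_vN inj y s⟩
    rw [HW.mem_tok₁, hL, hp, hq]
    exact ⟨vN_mem inj _ _, fun h => h1 (by rw [inj _ h]), fun h => h2 (by rw [inj _ h])⟩

/-- The tokens: those in `D` are again in `D`, the others have gone straight. -/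
def TkN (U : Up B) (g : S → Q) (T : Tme S) (y₀ : ℕ) (D : S → Prop) (u₀ u₁ : Q) (f : Q → Q)
    (path : Q → List B.L) (y : ℕ) : Prop :=
  ∀ s : S, vN U g T y₀ s ≠ u₀ → vN U g T y₀ s ≠ u₁ →
    (D s → ∃ s', D s' ∧ f (vN U g T y₀ s) = vN U g T y s') ∧
    (¬ D s → f (vN U g T y₀ s) = vN U g T y s ∧
      path (vN U g T y₀ s) = U.str (T.n y s - T.n y₀ s) (vN U g T y₀ s))

/-- One time step without crossing. -/
theorem adv_step (X : HW B) (y₀ y : ℕ) (hy : y₀ ≤ y) {D : S → Prop} (p q : S) (hL : X.L₁ = cN inj y)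
    (hp : X.p₀ = vN U g T y p) (hq : X.p₁ = vN U g T y q) (ht : TkN U g T y₀ D X.u₀ X.u₁ X.f X.path y) :
    ∃ Y : HW B, Y.L₀ = X.L₀ ∧ Y.L₁ = cN inj (y + 1) ∧ Y.u₀ = X.u₀ ∧ Y.u₁ = X.u₁ ∧ Y.cup = X.cup ∧
      Y.p₀ = vN U g T (y + 1) p ∧ Y.p₁ = vN U g T (y + 1) q ∧
      (Y.R = X.R + open Classical in ∑ x ∈ X.tok₁, if AcN U g T y x then {x} else 0) ∧
      TkN U g T y₀ D Y.u₀ Y.u₁ Y.f Y.path (y + 1) := by
  refine ⟨X.post (stN inj X y p q hL hp hq), rfl, rfl, rfl, rfl, rfl, rfl, rfl, ?_, ?_⟩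
  · rw [HW.post_R]
    congr 1
    exact Finset.sum_congr rfl fun x _ => src_pN y x
  · intro s h0 h1
    obtain ⟨t1, t2⟩ := ht s h0 h1
    have ef : ∀ x, (X.post (stN inj X y p q hL hp hq)).f x = gN U g T y (X.f x) := fun _ => rfl
    have eg : ∀ x, (X.post (stN inj X y p q hL hp hq)).path x = X.path x ++ pN U g T y (X.f x) := fun _ => rfl
    refine ⟨fun hs => ?_, fun hs => ?_⟩
    · obtain ⟨s', h2, h3⟩ := t1 hs
      exact ⟨s', h2, by rw [ef, h3, gN_vN inj]⟩
    · obtain ⟨h2, h3⟩ := t2 hs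
      refine ⟨by rw [ef, h2, gN_vN inj], ?_⟩
      rw [eg, h2, h3]
      have hle := T.mono hy s
      unfold pN
      by_cases h : T.act y s
      · rw [if_pos ((acN_iff inj y s).2 h), T.step y s h, show T.n y s + 1 - T.n y₀ s = T.n y s - T.n y₀ s + 1 by omega,
          U.str_succ']
        congr 2
        unfold vN
        rw [← U.U_pow_add, show T.n y₀ s + (T.n y s - T.n y₀ s) = T.n y s by omega]
      · rw [if_neg fun h' => h ((acN_iff inj y s).1 h'), T.stay y s h, List.append_nil]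

end

section run

variable {S : Type} [Fintype S] {Q : Type} [Group Q] [DecidableEq Q] {B : Lb.{0, v} Q} {U : Up B} {g : S → Q}
  {T : Tme S} (inj : ∀ y, Function.Injective (vN U g T y)) {P : ℕ → Equiv.Perm S} {ρ : ℕ → S → B.L} {D : S → Prop}
  (hP : ∀ (y : ℕ) (s : S), D s → T.act y s → vN U g T y s * B.q (ρ y s) = vN U g T y (P y s))
  (hA : ∀ (y : ℕ) (s : S), D s → T.act y s → T.act y (P y s))
  (hN : ∀ (y : ℕ) (s : S), D s → ¬ T.act y s → P y s = s)
  (hDP : ∀ (y : ℕ) (s : S), D s → D (P y s))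

include hP in
omit [Fintype S] [DecidableEq Q] in
theorem PN_ne (y : ℕ) (s : S) (hs : D s) (ha : T.act y s) : P y s ≠ s := by
  intro h
  have := hP y s hs ha
  rw [h] at this
  exact B.ne_one _ (mul_eq_left.1 this)

include hP hDP in
/-- The crossing at the first hole; then the holes are exchanged. -/
theorem cross_step (X : HW B) (y₀ y : ℕ) (p q : S) (hDp : D p) (hne : P y p ≠ q)
    (hN : ∀ (y : ℕ) (s : S), D s → ¬ T.act y s → P y s = s)
    (hL : X.L₁ = cN inj y) (hp : X.p₀ = vN U g T y p) (hq : X.p₁ = vN U g T y q)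
    (ht : TkN U g T y₀ D X.u₀ X.u₁ X.f X.path y) :
    ∃ Y : HW B, Y.L₀ = X.L₀ ∧ Y.L₁ = cN inj y ∧ Y.u₀ = X.u₀ ∧ Y.u₁ = X.u₁ ∧ Y.cup = X.cup ∧
      Y.p₀ = vN U g T y q ∧ Y.p₁ = vN U g T y (P y p) ∧
      (Y.R = X.R + open Classical in if T.act y p then {vN U g T y (P y p)} else 0) ∧
      TkN U g T y₀ D Y.u₀ Y.u₁ Y.f Y.path y := by
  by_cases ha : T.act y p
  · have hr : vN U g T y (P y p) ∈ X.tok₁ := by
      rw [HW.mem_tok₁, hL, hp, hq]
      exact ⟨vN_mem inj _ _, fun h => PN_ne hP y p hDp ha (inj _ h), fun h => hne (inj _ h)⟩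
    have hc : B.fin (vN U g T y (P y p)) [B.inv (ρ y p)] = X.p₀ := by
      show vN U g T y (P y p) * B.q (B.inv (ρ y p)) = X.p₀
      rw [hp, B.q_inv, ← hP y p hDp ha, mul_inv_cancel_right]
    refine ⟨(X.cross _ _ hr hc).swap, rfl, hL, rfl, rfl, rfl, hq, rfl, ?_, ?_⟩
    · rw [HW.swap_R, HW.cross_R, if_pos ha]
      rfl
    · intro s h0 h1
      obtain ⟨t1, t2⟩ := ht s h0 h1
      have ef : (X.cross _ _ hr hc).swap.f (vN U g T y₀ s) = if X.f (vN U g T y₀ s) = vN U g T y (P y p) then X.p₀ else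
        X.f (vN U g T y₀ s) := rfl
      have eg : (X.cross _ _ hr hc).swap.path (vN U g T y₀ s) = X.path (vN U g T y₀ s) ++
        (if X.f (vN U g T y₀ s) = vN U g T y (P y p) then [B.inv (ρ y p)] else []) := rfl
      refine ⟨fun hs => ?_, fun hs => ?_⟩
      · obtain ⟨s', h2, h3⟩ := t1 hs
        by_cases hh : X.f (vN U g T y₀ s) = vN U g T y (P y p)
        · exact ⟨p, hDp, by rw [ef, if_pos hh, hp]⟩
        · exact ⟨s', h2, by rw [ef, if_neg hh, h3]⟩
      · obtain ⟨h2, h3⟩ := t2 hs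
        have hh : X.f (vN U g T y₀ s) ≠ vN U g T y (P y p) := by
          rw [h2]
          intro h
          exact hs (inj _ h ▸ hDP y p hDp)
        exact ⟨by rw [ef, if_neg hh, h2], by rw [eg, if_neg hh, h3, List.append_nil]⟩
  · have h1 := hN y p hDp ha
    refine ⟨X.swap, rfl, hL, rfl, rfl, rfl, hq, by rw [h1]; exact hp, ?_, ht⟩
    rw [HW.swap_R, if_neg ha, add_zero]

include hP hA hN hDP in
/-- One time step of the hole run. -/
theorem runN_step (X : HW B) (y₀ y : ℕ) (hy : y₀ ≤ y) (p q : S) (hDp : D p) (hDq : D q) (hL : X.L₁ = cN inj y)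
    (hp : X.p₀ = vN U g T y p) (hq : X.p₁ = vN U g T y q) (hne : P y p ≠ q)
    (ht : TkN U g T y₀ D X.u₀ X.u₁ X.f X.path y) :
    ∃ Y : HW B, Y.L₀ = X.L₀ ∧ Y.L₁ = cN inj (y + 1) ∧ Y.u₀ = X.u₀ ∧ Y.u₁ = X.u₁ ∧ Y.cup = X.cup ∧
      Y.p₀ = vN U g T (y + 1) (P y p) ∧ Y.p₁ = vN U g T (y + 1) (P y q) ∧
      (Y.R = X.R + open Classical in ∑ s : S, if T.act y s then {vN U g T y s} else 0) ∧
      TkN U g T y₀ D Y.u₀ Y.u₁ Y.f Y.path (y + 1) := by
  classical
  have hpq : p ≠ q := by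
    rintro rfl
    exact X.hp (by rw [hp, hq])
  obtain ⟨X1, a1, a2, a3, a4, a5, a6, a7, a8, a9⟩ := cross_step inj hP hDP X y₀ y p q hDp hne hN hL hp hq ht
  have hne2 : P y q ≠ P y p := fun h => hpq ((P y).injective h).symm
  obtain ⟨X2, b1, b2, b3, b4, b5, b6, b7, b8, b9⟩ := cross_step inj hP hDP X1 y₀ y q (P y p) hDq hne2 hN a2 a6 a7 a9
  obtain ⟨Y, c1, c2, c3, c4, c5, c6, c7, c8, c9⟩ := adv_step inj X2 y₀ y hy (P y p) (P y q) b2 b6 b7 b9
  refine ⟨Y, by rw [c1, b1, a1], c2, by rw [c3, b3, a3], by rw [c4, b4, a4], by rw [c5, b5, a5], c6, c7, ?_, c9⟩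
  rw [c8, b8, a8]
  have h1 : ∑ s : S, (if T.act y s then ({vN U g T y s} : Multiset Q) else 0) =
      ∑ x ∈ cN inj y, if AcN U g T y x then ({x} : Multiset Q) else 0 := by
    rw [sum_cN inj]
    refine Finset.sum_congr rfl fun s _ => ?_
    by_cases h : T.act y s
    · rw [if_pos h, if_pos ((acN_iff inj y s).2 h)]
    · rw [if_neg h, if_neg fun h' => h ((acN_iff inj y s).1 h')]
  have h2 : ∑ x ∈ cN inj y, (if AcN U g T y x then ({x} : Multiset Q) else 0) =
      ∑ x ∈ X2.tok₁, (if AcN U g T y x then ({x} : Multiset Q) else 0) +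
        (if AcN U g T y X2.p₀ then ({X2.p₀} : Multiset Q) else 0) +
        (if AcN U g T y X2.p₁ then ({X2.p₁} : Multiset Q) else 0) := by
    rw [← b2]
    show (X2.L₁.val.map _).sum = _
    rw [X2.L₁_val, Multiset.map_add, Multiset.map_add, Multiset.sum_add, Multiset.sum_add]
    simp only [Multiset.map_singleton, Multiset.sum_singleton]
    rfl
  have hAp : T.act y (P y p) ↔ T.act y p := by
    constructor
    · intro h
      by_contra h'
      rw [hN y p hDp h'] at h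
      exact h' h
    · exact hA y p hDp
  have hAq : T.act y (P y q) ↔ T.act y q := by
    constructor
    · intro h
      by_contra h'
      rw [hN y q hDq h'] at h
      exact h' h
    · exact hA y q hDq
  have e1 : (if AcN U g T y (vN U g T y (P y p)) then ({vN U g T y (P y p)} : Multiset Q) else 0) =
      if T.act y p then {vN U g T y (P y p)} else 0 := by
    by_cases h : T.act y p
    · rw [if_pos h, if_pos ((acN_iff inj y _).2 (hAp.2 h))]
    · rw [if_neg h, if_neg fun h' => h (hAp.1 ((acN_iff inj y _).1 h'))]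
  have e2 : (if AcN U g T y (vN U g T y (P y q)) then ({vN U g T y (P y q)} : Multiset Q) else 0) =
      if T.act y q then {vN U g T y (P y q)} else 0 := by
    by_cases h : T.act y q
    · rw [if_pos h, if_pos ((acN_iff inj y _).2 (hAq.2 h))]
    · rw [if_neg h, if_neg fun h' => h (hAq.1 ((acN_iff inj y _).1 h'))]
  rw [h1, h2, b6, b7, e1, e2]
  abel

/-- The product of `P 0, .., P (i - 1)` (the last one acts last). -/
def prN (P : ℕ → Equiv.Perm S) : ℕ → Equiv.Perm S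
  | 0 => 1
  | i + 1 => P i * prN P i

include hP hA hN hDP in
/-- The hole run from the time `y₀` to the time `y₀ + m`. -/
theorem runN (y₀ : ℕ) (x : S) (hx : D x) (ha : T.act y₀ x) (m : ℕ) (hm : 1 ≤ m)
    (hn : ∀ i, 1 ≤ i → i < m → P (y₀ + i) (prN (fun j => P (y₀ + j)) i ((P y₀)⁻¹ x)) ≠
      prN (fun j => P (y₀ + j)) i x) :
    ∃ X : HW B, X.L₀ = cN inj y₀ ∧ X.L₁ = cN inj (y₀ + m) ∧ X.u₀ = vN U g T y₀ x ∧
      X.u₁ = vN U g T y₀ (P y₀ x) ∧ X.cup = [ρ y₀ x] ∧
      X.p₀ = vN U g T (y₀ + m) (prN (fun j => P (y₀ + j)) m ((P y₀)⁻¹ x)) ∧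
      X.p₁ = vN U g T (y₀ + m) (prN (fun j => P (y₀ + j)) m x) ∧
      (X.R = open Classical in ∑ i ∈ Finset.range m, ∑ s : S, if T.act (y₀ + i) s then {vN U g T (y₀ + i) s} else 0) ∧
      TkN U g T y₀ D X.u₀ X.u₁ X.f X.path (y₀ + m) := by
  classical
  obtain ⟨k, rfl⟩ : ∃ k, m = k + 1 := ⟨m - 1, by omega⟩
  clear hm
  induction k with
  | zero =>
    have hf : B.fin (vN U g T y₀ x) [ρ y₀ x] = vN U g T y₀ (P y₀ x) := hP y₀ x hx ha
    have hne : P y₀ x ≠ x := PN_ne hP y₀ x hx ha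
    set X0 : HW B := HW.start (cN inj y₀) (vN U g T y₀ x) (vN U g T y₀ (P y₀ x)) [ρ y₀ x] (vN_mem inj _ _)
      (vN_mem inj _ _) (fun h => hne (inj _ h).symm) hf with hX0
    have h0R : X0.R = {vN U g T y₀ x} + {vN U g T y₀ (P y₀ x)} := by
      rw [hX0, HW.start_R]
      show ((vN U g T y₀ x :: [vN U g T y₀ x * B.q (ρ y₀ x)] : List Q) : Multiset Q) = _
      rw [hP y₀ x hx ha]
      rfl
    have ht0 : TkN U g T y₀ D X0.u₀ X0.u₁ X0.f X0.path y₀ := by
      intro s _ _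
      refine ⟨fun hs => ⟨s, hs, rfl⟩, fun _ => ⟨rfl, ?_⟩⟩
      rw [Nat.sub_self]
      rfl
    obtain ⟨Y, c1, c2, c3, c4, c5, c6, c7, c8, c9⟩ := adv_step inj X0 y₀ y₀ le_rfl x (P y₀ x) rfl rfl rfl ht0
    refine ⟨Y, c1, c2, c3, c4, c5, ?_, ?_, ?_, c9⟩
    · rw [c6]
      show vN U g T (y₀ + 1) x = vN U g T (y₀ + 1) ((P (y₀ + 0) * 1) ((P y₀)⁻¹ x))
      simp
    · rw [c7]
      show _ = vN U g T (y₀ + 1) ((P (y₀ + 0) * 1) x)
      simp
    · rw [c8, h0R, zero_add, Finset.sum_range_one, add_zero]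
      have h1 : ∑ s : S, (if T.act y₀ s then ({vN U g T y₀ s} : Multiset Q) else 0) =
          ∑ x ∈ X0.L₁, if AcN U g T y₀ x then ({x} : Multiset Q) else 0 := by
        show _ = ∑ x ∈ cN inj y₀, _
        rw [sum_cN inj]
        refine Finset.sum_congr rfl fun s _ => ?_
        by_cases h : T.act y₀ s
        · rw [if_pos h, if_pos ((acN_iff inj y₀ s).2 h)]
        · rw [if_neg h, if_neg fun h' => h ((acN_iff inj y₀ s).1 h')]
      have h2 : ∑ x ∈ X0.L₁, (if AcN U g T y₀ x then ({x} : Multiset Q) else 0) =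
          ∑ x ∈ X0.tok₁, (if AcN U g T y₀ x then ({x} : Multiset Q) else 0) +
            (if AcN U g T y₀ X0.p₀ then ({X0.p₀} : Multiset Q) else 0) +
            (if AcN U g T y₀ X0.p₁ then ({X0.p₁} : Multiset Q) else 0) := by
        show (X0.L₁.val.map _).sum = _
        rw [X0.L₁_val, Multiset.map_add, Multiset.map_add, Multiset.sum_add, Multiset.sum_add]
        simp only [Multiset.map_singleton, Multiset.sum_singleton]
        rfl
      have e1 : X0.p₀ = vN U g T y₀ x := rfl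
      have e2 : X0.p₁ = vN U g T y₀ (P y₀ x) := rfl
      rw [h1, h2, e1, e2, if_pos ((acN_iff inj y₀ _).2 ha), if_pos ((acN_iff inj y₀ _).2 (hA y₀ x hx ha))]
      abel
  | succ k ih =>
    obtain ⟨X, a1, a2, a3, a4, a5, a6, a7, a8, a9⟩ := ih (fun i h1 h2 => hn i h1 (by omega))
    have hD : ∀ i s, D s → D (prN (fun j => P (y₀ + j)) i s) := by
      intro i s hs
      induction i with
      | zero => exact hs
      | succ i ih => exact hDP _ _ ih
    have hD' : D (prN (fun j => P (y₀ + j)) (k + 1) ((P y₀)⁻¹ x)) := by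
      have : ∀ i, D (prN (fun j => P (y₀ + j)) (i + 1) ((P y₀)⁻¹ x)) := by
        intro i
        induction i with
        | zero =>
          show D ((P (y₀ + 0) * 1) ((P y₀)⁻¹ x))
          simpa using hx
        | succ i ih => exact hDP _ _ ih
      exact this k
    obtain ⟨Y, b1, b2, b3, b4, b5, b6, b7, b8, b9⟩ := runN_step inj hP hA hN hDP X y₀ (y₀ + (k + 1)) (by omega) _ _ hD'
      (hD _ x hx) a2 a6 a7 (hn (k + 1) (by omega) (by omega)) a9
    refine ⟨Y, b1.trans a1, b2, b3.trans a3, b4.trans a4, b5.trans a5, b6, b7, ?_, b9⟩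
    rw [b8, a8, Finset.sum_range_succ _ (k + 1)]

include hP hA hN hDP in
/-- The T-gadget from the time `y₀` to the time `y₀ + m`. -/
theorem TGN (y₀ : ℕ) (x : S) (hx : D x) (ha : T.act y₀ x) (m : ℕ) (hm : 1 ≤ m)
    (h1 : P (y₀ + m) (prN (fun j => P (y₀ + j)) m ((P y₀)⁻¹ x)) = prN (fun j => P (y₀ + j)) m x)
    (hn : ∀ i, 1 ≤ i → i < m → P (y₀ + i) (prN (fun j => P (y₀ + j)) i ((P y₀)⁻¹ x)) ≠
      prN (fun j => P (y₀ + j)) i x) :
    ∃ X : TW B, X.L₀ = cN inj y₀ ∧ X.L₁ = cN inj (y₀ + m) ∧ X.u₀ = vN U g T y₀ x ∧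
      X.u₁ = vN U g T y₀ (P y₀ x) ∧ X.cup = [ρ y₀ x] ∧
      X.w₀ = vN U g T (y₀ + m) (prN (fun j => P (y₀ + j)) m ((P y₀)⁻¹ x)) ∧
      X.w₁ = vN U g T (y₀ + m) (P (y₀ + m) (prN (fun j => P (y₀ + j)) m ((P y₀)⁻¹ x))) ∧
      X.cap = [ρ (y₀ + m) (prN (fun j => P (y₀ + j)) m ((P y₀)⁻¹ x))] ∧
      T.act (y₀ + m) (prN (fun j => P (y₀ + j)) m ((P y₀)⁻¹ x)) ∧
      D (prN (fun j => P (y₀ + j)) m ((P y₀)⁻¹ x)) ∧
      (X.R = open Classical in ∑ i ∈ Finset.range m, ∑ s : S, if T.act (y₀ + i) s then {vN U g T (y₀ + i) s} else 0) ∧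
      TkN U g T y₀ D X.u₀ X.u₁ X.f X.path (y₀ + m) := by
  obtain ⟨X, a1, a2, a3, a4, a5, a6, a7, a8, a9⟩ := runN inj hP hA hN hDP y₀ x hx ha m hm hn
  set p := prN (fun j => P (y₀ + j)) m ((P y₀)⁻¹ x) with hp
  have hDp : D p := by
    have : ∀ i, D (prN (fun j => P (y₀ + j)) (i + 1) ((P y₀)⁻¹ x)) := by
      intro i
      induction i with
      | zero =>
        show D ((P (y₀ + 0) * 1) ((P y₀)⁻¹ x))
        simpa using hx
      | succ i ih => exact hDP _ _ ih
    obtain ⟨k, rfl⟩ : ∃ k, m = k + 1 := ⟨m - 1, by omega⟩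
    exact this k
  have hap : T.act (y₀ + m) p := by
    by_contra h
    have h2 := hN _ _ hDp h
    rw [h1] at h2
    exact X.hp (by rw [a6, a7, h2])
  have hcl := hP _ _ hDp hap
  rw [h1] at hcl
  refine ⟨X.close [ρ (y₀ + m) p] ?_, a1, a2, a3, a4, a5, a6, ?_, rfl, hap, hDp, ?_, a9⟩
  · show X.p₀ * B.q _ = X.p₁
    rw [a6, a7, hcl]
  · show X.p₁ = _
    rw [a7, h1]
  · rw [HW.close_R, a8]
    show _ + (([] : List Q) : Multiset Q) = _
    simp

end run

end Pool.Agent.Lib.MP_688fd0_co.SQ5.H87
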